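import Mathlib

namespace Pool.Agent.K7.H29.FC

open Polynomial Finset

/-- `(1 - X)^A (1 + X)^B`. -/
noncomputable def F (A B : ℕ) : ℤ[X] := (1 - X) ^ A * (1 + X) ^ B

noncomputable def R (A B : ℕ) : ℤ := (F A B).coeff B
noncomputable def S (A B : ℕ) : ℤ := (F A B).coeff (B + 1)

theorem R_succ_B (A B : ℕ) : R A (B + 1) = R A B + S A B := by
  have h : F A (B + 1) = F A B + F A B * X := by unfold F; ring
  unfold R S
  rw [h, coeff_add, coeff_mul_X]; ring

theorem S_succ_A (A B : ℕ) : S (A + 1) B = S A B - R A B := by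
  have h : F (A + 1) B = F A B - F A B * X := by unfold F; ring
  unfold R S
  rw [h, coeff_sub, coeff_mul_X]

theorem ode (A B : ℕ) : (1 - X ^ 2) * derivative (F A B)
    = ((B : ℤ[X]) - (A : ℤ[X]) - ((A : ℤ[X]) + (B : ℤ[X])) * X) * F A B := by
  have h1 : ∀ n : ℕ, (1 - X) * derivative ((1 - X : ℤ[X]) ^ n) = - (n : ℤ[X]) * (1 - X) ^ n := by
    intro n
    rcases n with _ | n
    · simp
    · rw [derivative_pow]
      simp
      ring
  have h2 : ∀ n : ℕ, (1 + X) * derivative ((1 + X : ℤ[X]) ^ n) = (n : ℤ[X]) * (1 + X) ^ n := by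
    intro n
    rcases n with _ | n
    · simp
    · rw [derivative_pow]
      simp
      ring
  unfold F
  rw [derivative_mul]
  linear_combination ((1 + X) * (1 + X) ^ B) * h1 A + ((1 - X) * (1 - X) ^ A) * h2 B

/-- `(k+2) f_{k+2} = (B - A) f_{k+1} + (k - A - B) f_k`. -/
theorem rec_coeff (A B k : ℕ) :
    ((k : ℤ) + 2) * (F A B).coeff (k + 2)
      = ((B : ℤ) - A) * (F A B).coeff (k + 1) + ((k : ℤ) - A - B) * (F A B).coeff k := by
  have h := congrArg (fun p : ℤ[X] => p.coeff (k + 1)) (ode A B)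
  have e1 : (1 - X ^ 2) * derivative (F A B) = derivative (F A B) - derivative (F A B) * X * X := by
    ring
  have e2 : ((B : ℤ[X]) - (A : ℤ[X]) - ((A : ℤ[X]) + (B : ℤ[X])) * X) * F A B
      = C ((B : ℤ) - A) * F A B - C ((A : ℤ) + B) * (F A B * X) := by
    simp only [map_sub, map_add, map_natCast]
    ring
  rw [e1, e2, coeff_sub, coeff_sub, coeff_C_mul, coeff_C_mul, coeff_mul_X, coeff_mul_X,
    coeff_derivative] at h
  rcases k with _ | k
  · simp only [Nat.cast_zero, zero_add] at h ⊢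
    rw [coeff_mul_X_zero] at h
    push_cast at h
    linear_combination h
  · rw [coeff_mul_X, coeff_derivative] at h
    push_cast at h ⊢
    linear_combination h

theorem S_succ_B (A B : ℕ) :
    ((B : ℤ) + 2) * S A (B + 1) = (2 * B + 2 - A) * S A B - A * R A B := by
  have h : F A (B + 1) = F A B + F A B * X := by unfold F; ring
  have hr := rec_coeff A B B
  unfold R S
  rw [h, coeff_add, coeff_mul_X]
  linear_combination hr

theorem R_succ_A (A B : ℕ) :
    ((A : ℤ) + 1) * R (A + 1) B = (2 * A + 1 - B) * R A B + (B + 1) * S A B := by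
  have h : F (A + 1) B = F A B - F A B * X := by unfold F; ring
  unfold R S
  rw [h, coeff_sub]
  rcases B with _ | B
  · rw [coeff_mul_X_zero]
    have hr : (F A 0).coeff 1 = - (A : ℤ) * (F A 0).coeff 0 := by
      have h := congrArg (fun p : ℤ[X] => p.coeff 0) (ode A 0)
      have e1 : (1 - X ^ 2) * derivative (F A 0)
          = derivative (F A 0) - derivative (F A 0) * X * X := by ring
      have e2 : (((0 : ℕ) : ℤ[X]) - (A : ℤ[X]) - ((A : ℤ[X]) + ((0 : ℕ) : ℤ[X])) * X) * F A 0
          = - (C (A : ℤ)) * F A 0 - C (A : ℤ) * (F A 0 * X) := by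
        simp
        ring
      rw [e1, e2, coeff_sub, coeff_sub, coeff_mul_X_zero, ← C_neg, coeff_C_mul, coeff_C_mul,
        coeff_mul_X_zero, coeff_derivative] at h
      push_cast at h
      linear_combination h
    push_cast
    linear_combination -hr
  · rw [coeff_mul_X]
    have hr := rec_coeff A (B + 1) B
    push_cast at hr ⊢
    linear_combination -hr

/-- the step `(A, B + 1) -> (A + 1, B)`. -/
theorem step_R (A B : ℕ) :
    ((B : ℤ) + 1) * (A + 1) * R (A + 1) B
      = (3 * (A + 1) * (B + 1) - (B + 1) - (B + 1) ^ 2 - (A + 1) ^ 2 + (A + 1)) * R A (B + 1)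
        + ((B + 1) + 1) * ((B + 1) - (A + 1)) * S A (B + 1) := by
  have h1 := R_succ_B A B
  have h2 := S_succ_B A B
  have h3 := R_succ_A A B
  have h : (2 : ℤ) * (((B : ℤ) + 1) * (A + 1) * R (A + 1) B)
      = 2 * ((3 * (A + 1) * (B + 1) - (B + 1) - (B + 1) ^ 2 - (A + 1) ^ 2 + (A + 1)) * R A (B + 1)
        + ((B + 1) + 1) * ((B + 1) - (A + 1)) * S A (B + 1)) := by
    linear_combination (2 * ((B : ℤ) + 1)) * h3
      - 2 * (3 * (A + 1) * (B + 1) - (B + 1) - (B + 1) ^ 2 - (A + 1) ^ 2 + (A + 1)) * h1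
      - 2 * ((B + 1) - (A + 1)) * h2
  exact mul_left_cancel₀ two_ne_zero h

theorem step_S (A B : ℕ) :
    ((B : ℤ) + 1) * (A + 1) * S (A + 1) B
      = (A + 1) * ((A + 1) - 1 - (B + 1)) * R A (B + 1)
        + (A + 1) * ((B + 1) + 1) * S A (B + 1) := by
  have h1 := R_succ_B A B
  have h2 := S_succ_B A B
  have h3 := S_succ_A A B
  linear_combination (((B : ℤ) + 1) * (A + 1)) * h3
      - ((A + 1) * ((A + 1) - 1 - (B + 1))) * h1 - (A + 1) * h2

theorem R_zero_right (A : ℕ) : R A 0 = 1 := by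
  unfold R F
  simp [coeff_zero_eq_eval_zero]

theorem ne_zero (A B : ℕ) : ¬ (R A B = 0 ∧ S A B = 0) := by
  induction B with
  | zero => intro h; rw [R_zero_right] at h; exact one_ne_zero h.1
  | succ B ih =>
    intro h
    apply ih
    have h1 := R_succ_B A B
    have h2 := S_succ_B A B
    rw [h.1] at h1
    rw [h.2] at h2
    have hS : S A B = - R A B := by linarith
    rw [hS] at h2
    have h3 : (2 * (B : ℤ) + 2) * R A B = 0 := by linear_combination h2
    have h4 : (2 * (B : ℤ) + 2) ≠ 0 := by positivity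
    have h5 : R A B = 0 := by
      rcases mul_eq_zero.mp h3 with h | h
      · exact absurd h h4
      · exact h
    exact ⟨h5, by rw [hS, h5]; ring⟩

end Pool.Agent.K7.H29.FC
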