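import Pool.Agent.K7.H29.FC9

namespace Pool.Agent.K7.H29.FC

theorem chk62 : allChk 2305843009213693951 62 = true := by decide +kernel

theorem central (x : ℤ) (t : ℕ) (hp : Even (x + t)) (h1 : -(t : ℤ) + 2 < x) (h2 : x < t)
    (h : |x| ≤ 60 ∨ (|x| + 3) * (|x| + 4) < t) (hx : x ≠ 0) :
    (amp x t).re ≠ 0 ∧
      (x ≠ 2 → ¬ (x = 5 ∧ t = 11) → ¬ (x = -3 ∧ t = 11) → (amp x t).im ≠ 0) := by
  rcases h with h | h
  · exact columns 2305843009213693951 62 (by norm_num) chk62 x t hp h1 h2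
      (by push_cast; linarith) hx
  · have := centre x t hp h hx
    exact ⟨this.1, fun h3 _ _ => this.2 h3⟩

end Pool.Agent.K7.H29.FC
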