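import Pool.Agent.K7.H29.FC1

namespace Pool.Agent.K7.H29.FC

open Polynomial Finset

noncomputable def pa (h : ℕ) : ℤ[X] := X + C ((h : ℤ) + 1)
noncomputable def pb (n h : ℕ) : ℤ[X] := C ((n : ℤ) - h) - X
noncomputable def w11 (n h : ℕ) : ℤ[X] :=
  3 * pa h * pb n h - pb n h - pb n h ^ 2 - pa h ^ 2 + pa h
noncomputable def w12 (n h : ℕ) : ℤ[X] := (pb n h + 1) * (pb n h - pa h)
noncomputable def w21 (n h : ℕ) : ℤ[X] := pa h * (pa h - 1 - pb n h)
noncomputable def w22 (n h : ℕ) : ℤ[X] := pa h * (pb n h + 1)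

noncomputable def PQ (n : ℕ) (u w : ℤ) : ℕ → ℤ[X] × ℤ[X]
  | 0 => (C u, C w)
  | h + 1 => (w11 n h * (PQ n u w h).1 + w12 n h * (PQ n u w h).2,
      w21 n h * (PQ n u w h).1 + w22 n h * (PQ n u w h).2)

theorem deg_w (n h : ℕ) : (w11 n h).natDegree ≤ 2 ∧ (w12 n h).natDegree ≤ 2 ∧
    (w21 n h).natDegree ≤ 2 ∧ (w22 n h).natDegree ≤ 2 := by
  unfold w11 w12 w21 w22 pa pb
  refine ⟨?_, ?_, ?_, ?_⟩ <;> compute_degree

theorem deg_PQ (n : ℕ) (u w : ℤ) (h : ℕ) :
    (PQ n u w h).1.natDegree ≤ 2 * h ∧ (PQ n u w h).2.natDegree ≤ 2 * h := by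
  induction h with
  | zero => simp [PQ]
  | succ h ih =>
    obtain ⟨d1, d2, d3, d4⟩ := deg_w n h
    have e : 2 * (h + 1) = 2 + 2 * h := by ring
    rw [e]
    constructor
    · exact natDegree_add_le_of_le (natDegree_mul_le_of_le d1 ih.1) (natDegree_mul_le_of_le d2 ih.2)
        |>.trans (by simp)
    · exact natDegree_add_le_of_le (natDegree_mul_le_of_le d3 ih.1) (natDegree_mul_le_of_le d4 ih.2)
        |>.trans (by simp)

def K (n A h : ℕ) : ℤ := ∏ j ∈ range h, (((n : ℤ) - A - j) * ((A : ℤ) + j + 1))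

theorem eval_PQ (n A : ℕ) (u w s : ℤ) (hR : A ≤ n) (h1 : R A (n - A) = u * s)
    (h2 : S A (n - A) = w * s) (h : ℕ) : ∀ B, A + h + B = n →
    K n A h * R (A + h) B = s * (PQ n u w h).1.eval (A : ℤ) ∧
    K n A h * S (A + h) B = s * (PQ n u w h).2.eval (A : ℤ) := by
  induction h with
  | zero =>
    intro B hB
    have : n - A = B := by omega
    rw [this] at h1 h2
    simp only [K, range_zero, prod_empty, Nat.add_zero, PQ, eval_C]
    rw [h1, h2]
    constructor <;> ring
  | succ h ih =>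
    intro B hB
    obtain ⟨i1, i2⟩ := ih (B + 1) (by omega)
    have s1 := step_R (A + h) B
    have s2 := step_S (A + h) B
    have hn : (n : ℤ) = A + h + B + 1 := by
      have : n = A + h + B + 1 := by omega
      rw [this]; push_cast; ring
    have hK : K n A (h + 1) = K n A h * (((B : ℤ) + 1) * (A + h + 1)) := by
      unfold K
      rw [prod_range_succ]
      congr 1
      rw [hn]; ring
    have ea : (pa h).eval (A : ℤ) = (A : ℤ) + h + 1 := by simp [pa]; ring
    have eb : (pb n h).eval (A : ℤ) = (B : ℤ) + 1 := by simp [pb]; rw [hn]; ring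
    have a1 : A + (h + 1) = A + h + 1 := by ring
    rw [a1, hK]
    push_cast at s1 s2
    constructor
    · simp only [PQ, eval_add, eval_mul, w11, w12, eval_sub, eval_pow, ea, eb, eval_one,
        eval_ofNat]
      linear_combination (K n A h) * s1
        + (3 * ((A : ℤ) + h + 1) * (B + 1) - (B + 1) - (B + 1) ^ 2 - (A + h + 1) ^ 2
            + (A + h + 1)) * i1 + ((B + 1) + 1) * ((B + 1) - ((A : ℤ) + h + 1)) * i2
    · simp only [PQ, eval_add, eval_mul, w21, w22, eval_sub, eval_pow, ea, eb, eval_one,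
        eval_ofNat]
      linear_combination (K n A h) * s2
        + (((A : ℤ) + h + 1) * ((A + h + 1) - 1 - (B + 1))) * i1
        + ((A : ℤ) + h + 1) * ((B + 1) + 1) * i2

theorem sign_PQ (n : ℕ) (u w : ℤ) (hu : 0 ≤ u) (hw : 0 ≤ -w) (huw : 0 < u + -w) (h : ℕ) :
    (0 ≤ (-1) ^ h * (PQ n u w h).1.eval ((n : ℤ) + 2)) ∧
    (0 ≤ - ((-1) ^ h * (PQ n u w h).2.eval ((n : ℤ) + 2))) ∧
    (0 < (-1) ^ h * (PQ n u w h).1.eval ((n : ℤ) + 2)
      + - ((-1) ^ h * (PQ n u w h).2.eval ((n : ℤ) + 2))) ∧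
    (1 ≤ h → 0 < (-1) ^ h * (PQ n u w h).1.eval ((n : ℤ) + 2) ∧
      0 < - ((-1) ^ h * (PQ n u w h).2.eval ((n : ℤ) + 2))) := by
  induction h with
  | zero =>
    simp only [PQ, eval_C, pow_zero, one_mul]
    exact ⟨hu, hw, huw, fun h => absurd h (by norm_num)⟩
  | succ h ih =>
    obtain ⟨i1, i2, i3, -⟩ := ih
    have ea : (pa h).eval ((n : ℤ) + 2) = (n : ℤ) + h + 3 := by simp [pa]; ring
    have eb : (pb n h).eval ((n : ℤ) + 2) = -((h : ℤ) + 2) := by simp [pb]; ring
    have e1 : (-1) ^ (h + 1) * (PQ n u w (h + 1)).1.eval ((n : ℤ) + 2)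
        = (3 * ((n : ℤ) + h + 3) * (h + 2) + (h + 2) * (h + 1) + (n + h + 3) * (n + h + 2))
            * ((-1) ^ h * (PQ n u w h).1.eval ((n : ℤ) + 2))
          + ((h + 1) * ((n : ℤ) + h + 3 + (h + 2)))
            * (- ((-1) ^ h * (PQ n u w h).2.eval ((n : ℤ) + 2))) := by
      simp only [PQ, eval_add, eval_mul, w11, w12, eval_sub, eval_pow, ea, eb, eval_one,
        eval_ofNat]
      ring
    have e2 : - ((-1) ^ (h + 1) * (PQ n u w (h + 1)).2.eval ((n : ℤ) + 2))
        = (((n : ℤ) + h + 3) * ((n + h + 2) + (h + 2)))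
            * ((-1) ^ h * (PQ n u w h).1.eval ((n : ℤ) + 2))
          + (((n : ℤ) + h + 3) * (h + 1))
            * (- ((-1) ^ h * (PQ n u w h).2.eval ((n : ℤ) + 2))) := by
      simp only [PQ, eval_add, eval_mul, w21, w22, eval_sub, eval_pow, ea, eb, eval_one,
        eval_ofNat]
      ring
    rw [e1, e2]
    generalize (-1) ^ h * (PQ n u w h).1.eval ((n : ℤ) + 2) = p at *
    generalize - ((-1) ^ h * (PQ n u w h).2.eval ((n : ℤ) + 2)) = q at *
    have key : ∀ c d : ℤ, 0 < c → 0 < d → 0 < c * p + d * q := by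
      intro c d hc hd
      rcases i1.lt_or_eq with hp | hp
      · have := mul_pos hc hp
        have := mul_nonneg hd.le i2
        linarith
      · rw [← hp] at i3 ⊢
        have := mul_pos hd (by linarith : (0:ℤ) < q)
        linarith
    have k1 := key (3 * ((n : ℤ) + h + 3) * (h + 2) + (h + 2) * (h + 1) + (n + h + 3) * (n + h + 2))
      ((h + 1) * ((n : ℤ) + h + 3 + (h + 2))) (by positivity) (by positivity)
    have k2 := key (((n : ℤ) + h + 3) * ((n + h + 2) + (h + 2))) (((n : ℤ) + h + 3) * (h + 1))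
      (by positivity) (by positivity)
    exact ⟨k1.le, k2.le, by linarith, fun _ => ⟨k1, k2⟩⟩

theorem roots_le (P : ℤ[X]) (hP : P ≠ 0) (d : ℕ) (hd : P.natDegree ≤ d) (Z : Finset ℕ)
    (hZ : ∀ A ∈ Z, P.eval (A : ℤ) = 0) : Z.card ≤ d := by
  have h1 : Z.card ≤ P.roots.toFinset.card := by
    apply Finset.card_le_card_of_injOn (fun A : ℕ => (A : ℤ))
    · intro A hA
      simp only [Finset.mem_coe, Multiset.mem_toFinset, mem_roots hP]
      exact hZ A (by simpa using hA)
    · intro a _ b _ hab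
      simp only at hab
      exact_mod_cast hab
  exact h1.trans ((Multiset.toFinset_card_le _).trans ((card_roots' P).trans hd))

noncomputable def ZR (n : ℕ) : Finset ℕ := by
  classical exact (range (n + 1)).filter (fun A => R A (n - A) = 0)
noncomputable def ZS (n : ℕ) : Finset ℕ := by
  classical exact (range (n + 1)).filter (fun A => S A (n - A) = 0)

theorem pairR (n h : ℕ) (hh : 1 ≤ h) : ((ZR n).filter (fun A => A + h ∈ ZR n)).card ≤ 2 * h := by
  have hs := (sign_PQ n 0 (-1) le_rfl (by norm_num) (by norm_num) h).2.2.2 hh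
  apply roots_le (PQ n 0 (-1) h).1 _ _ (deg_PQ n 0 (-1) h).1
  · intro A hA
    simp only [ZR, mem_filter, mem_range] at hA
    obtain ⟨⟨hA1, hA2⟩, hA3, hA4⟩ := hA
    have hv := ne_zero A (n - A)
    obtain ⟨e1, e2⟩ := eval_PQ n A 0 (-1) (-(S A (n - A))) (by omega) (by rw [hA2]; ring)
      (by ring) h (n - (A + h)) (by omega)
    rw [hA4, mul_zero] at e1
    rcases mul_eq_zero.mp e1.symm with h0 | h0
    · exact absurd ⟨hA2, neg_eq_zero.mp h0⟩ hv
    · exact h0
  · intro h0
    rw [h0] at hs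
    simp at hs

theorem pairS (n h : ℕ) (hh : 1 ≤ h) : ((ZS n).filter (fun A => A + h ∈ ZS n)).card ≤ 2 * h := by
  have hs := (sign_PQ n 1 0 (by norm_num) (by norm_num) (by norm_num) h).2.2.2 hh
  apply roots_le (PQ n 1 0 h).2 _ _ (deg_PQ n 1 0 h).2
  · intro A hA
    simp only [ZS, mem_filter, mem_range] at hA
    obtain ⟨⟨hA1, hA2⟩, hA3, hA4⟩ := hA
    have hv := ne_zero A (n - A)
    obtain ⟨e1, e2⟩ := eval_PQ n A 1 0 (R A (n - A)) (by omega) (by ring)
      (by rw [hA2]; ring) h (n - (A + h)) (by omega)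
    rw [hA4, mul_zero] at e2
    rcases mul_eq_zero.mp e2.symm with h0 | h0
    · exact absurd ⟨h0, hA2⟩ hv
    · exact h0
  · intro h0
    rw [h0] at hs
    simp at hs

theorem count (n H : ℕ) (hH : 1 ≤ H) (Z : Finset ℕ) (hZ : ∀ A ∈ Z, A ≤ n)
    (hp : ∀ h, 1 ≤ h → h < H → (Z.filter (fun A => A + h ∈ Z)).card ≤ 2 * h) :
    Z.card ≤ n / H + 1 + H * (H - 1) := by
  classical
  set Z1 := (Finset.Ico 1 H).biUnion (fun h => Z.filter (fun A => A + h ∈ Z)) with hZ1
  set Z2 := Z.filter (fun A => ∀ h ∈ Finset.Ico 1 H, A + h ∉ Z) with hZ2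
  have hsub : Z ⊆ Z2 ∪ Z1 := by
    intro A hA
    rw [mem_union]
    by_cases h : ∀ h ∈ Finset.Ico 1 H, A + h ∉ Z
    · left; rw [hZ2, mem_filter]; exact ⟨hA, h⟩
    · right
      push Not at h
      obtain ⟨h, h1, h2⟩ := h
      rw [hZ1, mem_biUnion]
      exact ⟨h, h1, mem_filter.mpr ⟨hA, h2⟩⟩
  have c1 : Z1.card ≤ H * (H - 1) := by
    calc Z1.card ≤ ∑ h ∈ Finset.Ico 1 H, (Z.filter (fun A => A + h ∈ Z)).card := card_biUnion_le
      _ ≤ ∑ h ∈ Finset.Ico 1 H, 2 * h := by
        apply Finset.sum_le_sum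
        intro h hh
        rw [Finset.mem_Ico] at hh
        exact hp h hh.1 hh.2
      _ ≤ ∑ h ∈ range H, 2 * h := by
        apply Finset.sum_le_sum_of_subset
        intro h hh
        rw [Finset.mem_Ico] at hh
        exact mem_range.mpr hh.2
      _ = H * (H - 1) := by
        rw [← Finset.mul_sum, mul_comm, Finset.sum_range_id_mul_two]
  have c2 : Z2.card ≤ n / H + 1 := by
    have : Z2.card ≤ (range (n / H + 1)).card := by
      apply Finset.card_le_card_of_injOn (fun A => A / H)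
      · intro A hA
        have hA' : A ∈ Z2 := by simpa using hA
        rw [hZ2, mem_filter] at hA'
        have : A / H ≤ n / H := Nat.div_le_div_right (hZ A hA'.1)
        simp only [Finset.coe_range, Set.mem_Iio]
        omega
      · have main : ∀ a ∈ Z2, ∀ b ∈ Z2, a / H = b / H → a < b → False := by
          intro a ha b hb hab hlt
          rw [hZ2, mem_filter] at ha hb
          have h1 : b - a < H := by
            have e1 := Nat.div_add_mod a H
            have e2 := Nat.div_add_mod b H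
            have m1 := Nat.mod_lt a (by omega : H > 0)
            have m2 := Nat.mod_lt b (by omega : H > 0)
            rw [hab] at e1
            omega
          apply ha.2 (b - a) (Finset.mem_Ico.mpr ⟨by omega, h1⟩)
          have : a + (b - a) = b := by omega
          rw [this]; exact hb.1
        intro a ha b hb hab
        have ha' : a ∈ Z2 := by simpa using ha
        have hb' : b ∈ Z2 := by simpa using hb
        simp only at hab
        rcases lt_trichotomy a b with h | h | h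
        · exact (main a ha' b hb' hab h).elim
        · exact h
        · exact (main b hb' a ha' hab.symm h).elim
    simpa using this
  calc Z.card ≤ (Z2 ∪ Z1).card := card_le_card hsub
    _ ≤ Z2.card + Z1.card := card_union_le _ _
    _ ≤ n / H + 1 + H * (H - 1) := by omega

end Pool.Agent.K7.H29.FC
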