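import Pool.Agent.K7.H29.FC2

namespace Pool.Agent.K7.H29.FC

open Finset

/-- The horizontal displacement of a step: `true` is the step `(1,1)`, `false` is `(-1,1)`. -/
def stepVal (b : Bool) : ℤ := if b then 1 else -1

/-- Number of direction changes in a list of steps. -/
def turns : List Bool → ℕ
  | a :: b :: l => (if a = b then 0 else 1) + turns (b :: l)
  | _ => 0

/-- The checker paths from `(0,0)` to `(x,t)` whose second point is `(1,1)`, recorded by
their `t` steps. -/
def paths (x : ℤ) (t : ℕ) : Finset (Fin t → Bool) :=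
  Finset.univ.filter fun s =>
    (List.ofFn s).head? = some true ∧ ((List.ofFn s).map stepVal).sum = x

/-- The amplitude `a(x,t)`. -/
noncomputable def amp (x : ℤ) (t : ℕ) : ℂ :=
  (((2 : ℝ) ^ ((1 - (t : ℝ)) / 2) : ℝ) : ℂ) * Complex.I *
    ∑ s ∈ paths x t, (-Complex.I) ^ turns (List.ofFn s)

/-- sum over all lists of length t with total x, preceded by the step b. -/
noncomputable def G (b : Bool) (x : ℤ) (t : ℕ) : ℂ :=
  ∑ s : Fin t → Bool, if ((List.ofFn s).map stepVal).sum = x then
    (-Complex.I) ^ turns (b :: List.ofFn s) else 0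

theorem G_zero (b : Bool) (x : ℤ) : G b x 0 = if x = 0 then 1 else 0 := by
  unfold G
  simp [turns, eq_comm]

theorem sum_cons {M : Type*} [AddCommMonoid M] (t : ℕ) (f : (Fin (t + 1) → Bool) → M) :
    ∑ s, f s = ∑ c : Bool, ∑ s : Fin t → Bool, f (Fin.cons c s) := by
  rw [← Fintype.sum_prod_type']
  exact (Fintype.sum_equiv (Fin.consEquiv (fun _ : Fin (t + 1) => Bool)) _ _ (fun _ => rfl)).symm

theorem G_succ (b : Bool) (x : ℤ) (t : ℕ) : G b x (t + 1)
    = ∑ c : Bool, (-Complex.I) ^ (if b = c then 0 else 1) * G c (x - stepVal c) t := by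
  unfold G
  rw [sum_cons]
  apply Finset.sum_congr rfl
  intro c _
  rw [Finset.mul_sum]
  apply Finset.sum_congr rfl
  intro s _
  rw [List.ofFn_cons]
  simp only [List.map_cons, List.sum_cons, turns]
  have : (stepVal c + (List.map stepVal (List.ofFn s)).sum = x)
      ↔ ((List.map stepVal (List.ofFn s)).sum = x - stepVal c) := by
    constructor <;> intro h <;> linarith
  simp only [this]
  by_cases h : (List.map stepVal (List.ofFn s)).sum = x - stepVal c
  · rw [if_pos h, if_pos h, pow_add]
  · rw [if_neg h, if_neg h, mul_zero]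

theorem amp_succ (x : ℤ) (t : ℕ) : amp x (t + 1)
    = (((2 : ℝ) ^ (-(t : ℝ) / 2) : ℝ) : ℂ) * Complex.I * G true (x - 1) t := by
  unfold amp
  congr 1
  · congr 4
    push_cast; ring
  · unfold paths G
    rw [Finset.sum_filter, sum_cons]
    simp only [Fintype.sum_bool, List.ofFn_cons, List.head?_cons, List.map_cons, List.sum_cons]
    have h1 : ∀ s : Fin t → Bool, (if True ∧
        stepVal true + (List.map stepVal (List.ofFn s)).sum = x then
          (-Complex.I) ^ turns (true :: List.ofFn s) else 0)
        = (if (List.map stepVal (List.ofFn s)).sum = x - 1 then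
          (-Complex.I) ^ turns (true :: List.ofFn s) else 0) := by
      intro s
      have : (True ∧
        stepVal true + (List.map stepVal (List.ofFn s)).sum = x) ↔
        ((List.map stepVal (List.ofFn s)).sum = x - 1) := by
        simp only [stepVal, true_and, if_true]
        constructor <;> intro h <;> linarith
      by_cases h : (List.map stepVal (List.ofFn s)).sum = x - 1
      · rw [if_pos h, if_pos (this.mpr h)]
      · rw [if_neg h, if_neg (fun h' => h (this.mp h'))]
    rw [Finset.sum_congr rfl (fun s _ => h1 s)]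
    simp

theorem G_out (b : Bool) (t : ℕ) : ∀ x : ℤ, (x < -t ∨ (t : ℤ) < x) → G b x t = 0 := by
  induction t generalizing b with
  | zero =>
    intro x hx
    rw [G_zero, if_neg]
    rcases hx with h | h <;> · simp at h; omega
  | succ t ih =>
    intro x hx
    rw [G_succ]
    apply Finset.sum_eq_zero
    intro c _
    rw [ih c (x - stepVal c), mul_zero]
    push_cast at hx
    cases c <;> simp [stepVal] <;> omega

theorem S_zero (B : ℕ) : S 0 B = 0 := by
  unfold S F
  rw [pow_zero, one_mul]
  apply Polynomial.coeff_eq_zero_of_natDegree_lt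
  have : ((1 + Polynomial.X : Polynomial ℤ) ^ B).natDegree ≤ B := by
    compute_degree
  omega

theorem R_zero (B : ℕ) : R 0 B = 1 := by
  induction B with
  | zero => exact R_zero_right 0
  | succ B ih => rw [R_succ_B, ih, S_zero]; ring

theorem R_symm (A : ℕ) : ∀ B, R A B = R B A := by
  induction A with
  | zero => intro B; rw [R_zero, R_zero_right]
  | succ A ihA =>
    intro B
    induction B with
    | zero => rw [R_zero, R_zero_right]
    | succ B ihB =>
      have h1 : R (A + 1) (B + 1) = R (A + 1) B + R A (B + 1) - 2 * R A B := by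
        have a := R_succ_B (A + 1) B
        have b := S_succ_A A B
        have c := R_succ_B A B
        linarith
      have h2 : R (B + 1) (A + 1) = R (B + 1) A + R B (A + 1) - 2 * R B A := by
        have a := R_succ_B (B + 1) A
        have b := S_succ_A B A
        have c := R_succ_B B A
        linarith
      rw [h1, h2, ihB, ihA (B + 1), ihA B]; ring

/-- closed form -/
noncomputable def T (p q : ℕ) : ℂ :=
  match q with
  | 0 => 1
  | q + 1 => (S p q : ℂ) - Complex.I * (R p q : ℂ)

theorem G_eq (t : ℕ) : ∀ p q : ℕ, p + q = t →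
    G true ((p : ℤ) - q) t = T p q ∧ G false ((p : ℤ) - q) t = T q p := by
  induction t with
  | zero =>
    intro p q h
    have hp : p = 0 := by omega
    have hq : q = 0 := by omega
    subst hp hq
    simp [G_zero, T]
  | succ t ih =>
    intro p q h
    rw [G_succ, G_succ]
    simp only [Fintype.sum_bool, stepVal, if_true, Bool.false_eq_true, if_false, pow_zero,
      Bool.true_eq_false, pow_one, one_mul, sub_neg_eq_add]
    rcases p with _ | p
    · rcases q with _ | q
      · omega
      · have hG : ∀ b, G b (((0 : ℕ) : ℤ) - ((q + 1 : ℕ) : ℤ) - 1) t = 0 := by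
          intro b; apply G_out; left; push_cast; omega
        have e : (((0 : ℕ) : ℤ) - ((q + 1 : ℕ) : ℤ) + 1) = ((0 : ℕ) : ℤ) - (q : ℤ) := by
          push_cast; ring
        obtain ⟨i1, i2⟩ := ih 0 q (by omega)
        rw [hG, e, i2]
        simp only [T, S_zero, R_zero]
        constructor
        · push_cast; ring
        · push_cast; ring
    · rcases q with _ | q
      · have hG : ∀ b, G b (((p + 1 : ℕ) : ℤ) - ((0 : ℕ) : ℤ) + 1) t = 0 := by
          intro b; apply G_out; right; push_cast; omega
        have e : (((p + 1 : ℕ) : ℤ) - ((0 : ℕ) : ℤ) - 1) = (p : ℤ) - ((0 : ℕ) : ℤ) := by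
          push_cast; ring
        obtain ⟨i1, i2⟩ := ih p 0 (by omega)
        rw [hG, e, i1]
        simp only [T, S_zero, R_zero]
        constructor
        · ring
        · push_cast; ring
      · have e1 : (((p + 1 : ℕ) : ℤ) - ((q + 1 : ℕ) : ℤ) - 1) = (p : ℤ) - ((q + 1 : ℕ) : ℤ) := by
          push_cast; ring
        have e2 : (((p + 1 : ℕ) : ℤ) - ((q + 1 : ℕ) : ℤ) + 1) = ((p + 1 : ℕ) : ℤ) - (q : ℤ) := by
          push_cast; ring
        obtain ⟨i1, i2⟩ := ih p (q + 1) (by omega)
        obtain ⟨j1, j2⟩ := ih (p + 1) q (by omega)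
        rw [e1, e2, i1, j2]
        have hI : Complex.I * Complex.I = -1 := Complex.I_mul_I
        have a1 := S_succ_A p q
        have a2 := R_succ_B q p
        have a3 := S_succ_A q p
        have a4 := R_succ_B p q
        have s1 := R_symm p q
        have s2 := R_symm (p + 1) q
        have s3 := R_symm p (q + 1)
        have a1' : (S (p + 1) q : ℂ) = S p q - R p q := by exact_mod_cast a1
        have a2' : (R (p + 1) q : ℂ) = R p q + S q p := by
          have : R (p + 1) q = R p q + S q p := by rw [s2, a2, s1]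
          exact_mod_cast this
        have a3' : (S (q + 1) p : ℂ) = S q p - R p q := by
          have : S (q + 1) p = S q p - R p q := by rw [a3, s1]
          exact_mod_cast this
        have a4' : (R (q + 1) p : ℂ) = R p q + S p q := by
          have : R (q + 1) p = R p q + S p q := by rw [← s3, a4]
          exact_mod_cast this
        have s1' : (R q p : ℂ) = R p q := by exact_mod_cast s1.symm
        simp only [T]
        rw [a1', a2', a3', a4', s1']
        constructor
        · linear_combination (R p q : ℂ) * hI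
        · linear_combination (R p q : ℂ) * hI

theorem amp_eq (A B : ℕ) : amp ((A : ℤ) - B) (A + B + 2)
    = (((2 : ℝ) ^ (-((A : ℝ) + B + 1) / 2) : ℝ) : ℂ) * ((R A B : ℂ) + (S A B : ℂ) * Complex.I) := by
  have h := amp_succ ((A : ℤ) - B) (A + B + 1)
  have e : (A : ℤ) - B - 1 = (A : ℤ) - ((B + 1 : ℕ) : ℤ) := by push_cast; ring
  rw [e, (G_eq (A + B + 1) A (B + 1) (by ring)).1] at h
  have e2 : A + B + 2 = A + B + 1 + 1 := by ring
  rw [e2, h]
  simp only [T]
  push_cast
  have hI : Complex.I * Complex.I = -1 := Complex.I_mul_I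
  linear_combination (-(((2 : ℝ) ^ (-((A : ℝ) + B + 1) / 2) : ℝ) : ℂ) * (R A B : ℂ)) * hI

theorem re_im_amp (A B : ℕ) :
    (amp ((A : ℤ) - B) (A + B + 2)).re = (2 : ℝ) ^ (-((A : ℝ) + B + 1) / 2) * (R A B : ℝ) ∧
    (amp ((A : ℤ) - B) (A + B + 2)).im = (2 : ℝ) ^ (-((A : ℝ) + B + 1) / 2) * (S A B : ℝ) := by
  rw [amp_eq]
  constructor
  · rw [Complex.re_ofReal_mul]
    simp
  · rw [Complex.im_ofReal_mul]
    simp

end Pool.Agent.K7.H29.FC
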