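import Pool.Agent.K7.H29.FC3

namespace Pool.Agent.K7.H29.FC

open Finset

theorem F_mod (A B : ℕ) : (F A B).map (Int.castRingHom (ZMod 2)) = (1 + Polynomial.X) ^ (A + B) := by
  have : (1 - Polynomial.X : Polynomial (ZMod 2)) = 1 + Polynomial.X := CharTwo.sub_eq_add _ _
  unfold F
  rw [Polynomial.map_mul, Polynomial.map_pow, Polynomial.map_pow, Polynomial.map_sub,
    Polynomial.map_add, Polynomial.map_one, Polynomial.map_X, this, pow_add]

theorem R_mod (A B : ℕ) : (R A B : ZMod 2) = ((Nat.choose (A + B) B : ℕ) : ZMod 2) := by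
  have h := congrArg (fun p : Polynomial (ZMod 2) => p.coeff B) (F_mod A B)
  rw [Polynomial.coeff_map, Polynomial.coeff_one_add_X_pow] at h
  exact h

theorem S_mod (A B : ℕ) : (S A B : ZMod 2) = ((Nat.choose (A + B) (B + 1) : ℕ) : ZMod 2) := by
  have h := congrArg (fun p : Polynomial (ZMod 2) => p.coeff (B + 1)) (F_mod A B)
  rw [Polynomial.coeff_map, Polynomial.coeff_one_add_X_pow] at h
  exact h

theorem R_ne (A B : ℕ) (h : Odd (Nat.choose (A + B) B)) : R A B ≠ 0 := by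
  intro h0
  have := R_mod A B
  rw [h0, Int.cast_zero] at this
  have h2 := (ZMod.natCast_eq_zero_iff_even).mp this.symm
  exact (Nat.not_even_iff_odd.mpr h) h2

theorem S_ne (A B : ℕ) (h : Odd (Nat.choose (A + B) (B + 1))) : S A B ≠ 0 := by
  intro h0
  have := S_mod A B
  rw [h0, Int.cast_zero] at this
  have h2 := (ZMod.natCast_eq_zero_iff_even).mp this.symm
  exact (Nat.not_even_iff_odd.mpr h) h2

theorem odd_row (k j : ℕ) (hj : j < 2 ^ k) : Odd (Nat.choose (2 ^ k - 1) j) := by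
  induction j with
  | zero => simp
  | succ j ih =>
    have ih := ih (by omega)
    have h1 : 2 ∣ Nat.choose (2 ^ k) (j + 1) :=
      Nat.prime_two.dvd_choose_pow (by omega) (by omega)
    have h2 : Nat.choose (2 ^ k) (j + 1)
        = Nat.choose (2 ^ k - 1) j + Nat.choose (2 ^ k - 1) (j + 1) := by
      have e : 2 ^ k = (2 ^ k - 1) + 1 := by
        have := Nat.one_le_two_pow (n := k)
        omega
      conv_lhs => rw [e]
      exact Nat.choose_succ_succ _ _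
    rw [h2] at h1
    rw [Nat.odd_iff] at ih ⊢
    omega

theorem two_rpow_ne (a : ℝ) : (2 : ℝ) ^ a ≠ 0 := (Real.rpow_pos_of_pos two_pos a).ne'

theorem re_ne (A B : ℕ) (h : R A B ≠ 0) : (amp ((A : ℤ) - B) (A + B + 2)).re ≠ 0 := by
  rw [(re_im_amp A B).1]
  exact mul_ne_zero (two_rpow_ne _) (by exact_mod_cast h)

theorem im_ne (A B : ℕ) (h : S A B ≠ 0) : (amp ((A : ℤ) - B) (A + B + 2)).im ≠ 0 := by
  rw [(re_im_amp A B).2]
  exact mul_ne_zero (two_rpow_ne _) (by exact_mod_cast h)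

theorem re_zero (A B : ℕ) (h : (amp ((A : ℤ) - B) (A + B + 2)).re = 0) : R A B = 0 := by
  by_contra h'; exact re_ne A B h' h

theorem im_zero (A B : ℕ) (h : (amp ((A : ℤ) - B) (A + B + 2)).im = 0) : S A B = 0 := by
  by_contra h'; exact im_ne A B h' h

/-- coordinates -/
theorem coords (t : ℕ) (x : ℤ) (h1 : -(t : ℤ) + 2 < x) (h2 : x < t) (h3 : Even (x + t)) :
    ∃ A B : ℕ, 1 ≤ A ∧ x = (A : ℤ) - B ∧ t = A + B + 2 := by
  obtain ⟨r, hr⟩ := h3
  refine ⟨(r - 1).toNat, (t - r - 1).toNat, ?_, ?_, ?_⟩ <;> omega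

theorem num_bound (t H : ℕ) (ht : 2 ≤ t) (hH : H = ⌈(t : ℝ) ^ (1 / 3 : ℝ)⌉₊) :
    (((t - 2) / H + 1 + H * (H - 1) : ℕ) : ℝ) ≤ 4 * (t : ℝ) ^ (2 / 3 : ℝ) := by
  have ht' : (2 : ℝ) ≤ t := by exact_mod_cast ht
  have t0 : (0 : ℝ) < t := by linarith
  set c := (t : ℝ) ^ (1 / 3 : ℝ) with hc
  have c1 : 1 ≤ c := Real.one_le_rpow (by linarith) (by norm_num)
  have c2 : c ^ 2 = (t : ℝ) ^ (2 / 3 : ℝ) := by
    rw [hc, ← Real.rpow_natCast, ← Real.rpow_mul t0.le]; norm_num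
  have c3 : c ^ 3 = t := by
    rw [hc, ← Real.rpow_natCast, ← Real.rpow_mul t0.le]; norm_num
  have hH1 : c ≤ (H : ℝ) := by rw [hH]; exact Nat.le_ceil _
  have hH2 : (H : ℝ) < c + 1 := by rw [hH]; exact Nat.ceil_lt_add_one (by linarith)
  have hHpos : (0 : ℝ) < H := by linarith
  have hH0 : 1 ≤ H := by
    have : (0 : ℝ) < H := hHpos
    have : 0 < H := by exact_mod_cast this
    omega
  have a1 : (((t - 2) / H : ℕ) : ℝ) ≤ c ^ 2 := by
    have b1 : (((t - 2) / H : ℕ) : ℝ) ≤ ((t - 2 : ℕ) : ℝ) / H := Nat.cast_div_le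
    have b2 : ((t - 2 : ℕ) : ℝ) ≤ t := by exact_mod_cast Nat.sub_le t 2
    have b3 : ((t - 2 : ℕ) : ℝ) / H ≤ t / H := by gcongr
    have b4 : (t : ℝ) / H ≤ c ^ 2 := by
      rw [div_le_iff₀ hHpos]
      nlinarith [sq_nonneg c]
    linarith
  have a2 : ((H * (H - 1) : ℕ) : ℝ) ≤ 2 * c ^ 2 := by
    rw [Nat.cast_mul, Nat.cast_sub hH0]
    push_cast
    nlinarith
  push_cast at a2 ⊢
  rw [← c2]
  nlinarith

theorem rowZ (n H : ℕ) (hH : 1 ≤ H) :
    (ZR n ∪ ZS n).card ≤ 2 * (n / H + 1 + H * (H - 1)) := by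
  have h1 := count n H hH (ZR n) (fun A hA => by
    simp only [ZR, mem_filter, mem_range] at hA; omega) (fun h h1 _ => pairR n h h1)
  have h2 := count n H hH (ZS n) (fun A hA => by
    simp only [ZS, mem_filter, mem_range] at hA; omega) (fun h h1 _ => pairS n h h1)
  have h3 := card_union_le (ZR n) (ZS n)
  omega

theorem main (t : ℕ) :
    (({x : ℤ | -(t : ℤ) + 2 < x ∧ x < t ∧ Even (x + t) ∧
      ((amp x t).re = 0 ∨ (amp x t).im = 0)}.ncard : ℕ) : ℝ) ≤ 8 * (t : ℝ) ^ (2 / 3 : ℝ) := by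
  rcases lt_or_ge t 2 with ht | ht
  · have : {x : ℤ | -(t : ℤ) + 2 < x ∧ x < t ∧ Even (x + t) ∧
      ((amp x t).re = 0 ∨ (amp x t).im = 0)} = ∅ := by
      ext x
      simp only [Set.mem_setOf_eq, Set.mem_empty_iff_false, iff_false]
      rintro ⟨h1, h2, h3, -⟩
      obtain ⟨A, B, hA, -, h⟩ := coords t x h1 h2 h3
      omega
    rw [this, Set.ncard_empty, Nat.cast_zero]
    exact mul_nonneg (by norm_num) (Real.rpow_nonneg (Nat.cast_nonneg t) _)
  · set Z := (ZR (t - 2) ∪ ZS (t - 2)).image (fun A : ℕ => 2 * (A : ℤ) + 2 - t) with hZ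
    have hsub : {x : ℤ | -(t : ℤ) + 2 < x ∧ x < t ∧ Even (x + t) ∧
      ((amp x t).re = 0 ∨ (amp x t).im = 0)} ⊆ (Z : Set ℤ) := by
      rintro x ⟨h1, h2, h3, h4⟩
      obtain ⟨A, B, hA, hx, h⟩ := coords t x h1 h2 h3
      have hB : B = t - 2 - A := by omega
      rw [hZ, Finset.mem_coe, mem_image]
      refine ⟨A, ?_, by rw [hx, h]; push_cast; ring⟩
      rw [hx, h] at h4
      rw [mem_union]
      rcases h4 with h4 | h4
      · left
        simp only [ZR, mem_filter, mem_range]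
        refine ⟨by omega, ?_⟩
        rw [← hB]; exact re_zero A B h4
      · right
        simp only [ZS, mem_filter, mem_range]
        refine ⟨by omega, ?_⟩
        rw [← hB]; exact im_zero A B h4
    have c1 : {x : ℤ | -(t : ℤ) + 2 < x ∧ x < t ∧ Even (x + t) ∧
      ((amp x t).re = 0 ∨ (amp x t).im = 0)}.ncard ≤ Z.card := by
      rw [← Set.ncard_coe_finset]
      exact Set.ncard_le_ncard hsub (Finset.finite_toSet _)
    have hH : 1 ≤ ⌈(t : ℝ) ^ (1 / 3 : ℝ)⌉₊ := by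
      apply Nat.one_le_ceil_iff.mpr
      apply Real.rpow_pos_of_pos
      have : (2 : ℝ) ≤ t := by exact_mod_cast ht
      linarith
    have c2 := rowZ (t - 2) _ hH
    have c3 := num_bound t _ ht rfl
    have c4 : Z.card ≤ (ZR (t - 2) ∪ ZS (t - 2)).card := card_image_le
    have c5 : ({x : ℤ | -(t : ℤ) + 2 < x ∧ x < t ∧ Even (x + t) ∧
      ((amp x t).re = 0 ∨ (amp x t).im = 0)}.ncard : ℝ)
      ≤ ((2 * ((t - 2) / ⌈(t : ℝ) ^ (1 / 3 : ℝ)⌉₊ + 1 + ⌈(t : ℝ) ^ (1 / 3 : ℝ)⌉₊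
        * (⌈(t : ℝ) ^ (1 / 3 : ℝ)⌉₊ - 1)) : ℕ) : ℝ) := by
      exact_mod_cast c1.trans (c4.trans c2)
    refine c5.trans ?_
    rw [Nat.cast_mul]
    push_cast at c3 ⊢
    linarith

theorem rows (k : ℕ) (x : ℤ) (h1 : -((2 ^ k + 1 : ℕ) : ℤ) + 2 < x) (h2 : x < (2 ^ k + 1 : ℕ))
    (h3 : Even (x + ((2 ^ k + 1 : ℕ) : ℤ))) :
    (amp x (2 ^ k + 1)).re ≠ 0 ∧ (amp x (2 ^ k + 1)).im ≠ 0 := by
  obtain ⟨A, B, hA, hx, h⟩ := coords _ x h1 h2 h3
  have hn : A + B = 2 ^ k - 1 := by omega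
  rw [hx, h]
  constructor
  · apply re_ne; apply R_ne; rw [hn]; exact odd_row k B (by omega)
  · apply im_ne; apply S_ne; rw [hn]; exact odd_row k (B + 1) (by omega)

end Pool.Agent.K7.H29.FC
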