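import Pool.Agent.K7.H29.FC4

namespace Pool.Agent.K7.H29.FC

open Finset

theorem F_diag (A : ℕ) : F A A = Polynomial.expand ℤ 2 ((1 - Polynomial.X) ^ A) := by
  unfold F
  rw [map_pow, map_sub, Polynomial.expand_X, map_one, ← mul_pow]
  congr 1
  ring

theorem R_diag_odd (A : ℕ) (h : ¬ 2 ∣ A) : R A A = 0 := by
  unfold R
  rw [F_diag, Polynomial.coeff_expand (by norm_num), if_neg h]

theorem S_diag_even (A : ℕ) (h : 2 ∣ A) : S A A = 0 := by
  unfold S
  rw [F_diag, Polynomial.coeff_expand (by norm_num), if_neg (by omega)]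

theorem R_diag1 (B : ℕ) : R (B + 1) B = R B B + S B B := by
  have h := R_succ_A B B
  have h1 : ((B : ℤ) + 1) * R (B + 1) B = ((B : ℤ) + 1) * (R B B + S B B) := by
    rw [h]; ring
  exact mul_left_cancel₀ (by positivity) h1

theorem S_diag1 (B : ℕ) : S (B + 1) B = S B B - R B B := S_succ_A B B

theorem S_symm (A B : ℕ) : ((B : ℤ) + 1) * S (A + 1) B = ((A : ℤ) + 1) * S (B + 1) A := by
  have h1 := R_succ_A A B
  have h2 := S_succ_A A B
  have h3 := S_succ_A B A
  have h4 := R_succ_B B A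
  have h5 := R_symm A B
  have h6 := R_symm (A + 1) B
  rw [h2, h3]
  have h7 : S B A = R (A + 1) B - R A B := by rw [h6, h4, h5]; ring
  rw [h7, ← h5]
  linear_combination -h1

/-- one step, real form -/
theorem step_bound (a b δ r s r' s' E : ℝ) (hb : 0 < b) (ha : a = b + δ) (hδ : 1 ≤ δ)
    (h1 : b * a * r' = (3 * a * b - b - b ^ 2 - a ^ 2 + a) * r + (b + 1) * (b - a) * s)
    (h2 : b * a * s' = a * (a - 1 - b) * r + a * (b + 1) * s)
    (hr : |r| ≤ E) (hs : |s| ≤ E) : |r' - r| ≤ δ * E / b ∧ |s' - s| ≤ δ * E / b := by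
  have ha0 : 0 < a := by rw [ha]; linarith
  have hE : 0 ≤ E := (abs_nonneg r).trans hr
  obtain ⟨r1, r2⟩ := abs_le.mp hr
  obtain ⟨s1, s2⟩ := abs_le.mp hs
  have e1 : b * a * (r' - r) = -(δ * (δ - 1)) * r - (b + 1) * δ * s := by
    rw [ha] at h1 ⊢
    linear_combination h1
  have e2 : b * (s' - s) = (δ - 1) * r + s := by
    have : a * (b * (s' - s)) = a * ((δ - 1) * r + s) := by
      rw [ha] at h2 ⊢
      linear_combination h2
    exact mul_left_cancel₀ ha0.ne' this
  constructor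
  · rw [le_div_iff₀ hb]
    have h3 : |b * a * (r' - r)| ≤ δ * a * E := by
      rw [e1, abs_le]
      have p1 : 0 ≤ δ * (δ - 1) := mul_nonneg (by linarith) (by linarith)
      have p2 : 0 ≤ (b + 1) * δ := mul_nonneg (by linarith) (by linarith)
      have q1 := mul_le_mul_of_nonneg_left r2 p1
      have q2 := mul_le_mul_of_nonneg_left s2 p2
      have q3 := mul_le_mul_of_nonneg_left r1 p1
      have q4 := mul_le_mul_of_nonneg_left s1 p2
      constructor
      · rw [ha]; nlinarith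
      · rw [ha]; nlinarith
    rw [abs_mul, abs_of_pos (mul_pos hb ha0)] at h3
    have : a * (|r' - r| * b) ≤ a * (δ * E) := by linarith
    exact le_of_mul_le_mul_left this ha0
  · rw [le_div_iff₀ hb]
    have h3 : |b * (s' - s)| ≤ δ * E := by
      rw [e2, abs_le]
      have p1 : 0 ≤ δ - 1 := by linarith
      have q1 := mul_le_mul_of_nonneg_left r2 p1
      have q3 := mul_le_mul_of_nonneg_left r1 p1
      constructor <;> nlinarith
    rw [abs_mul, abs_of_pos hb] at h3
    linarith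

theorem stepR' (A B k : ℕ) (hk : k < B) :
    ((B : ℝ) - k) * ((A : ℝ) + k + 1) * (R (A + (k + 1)) (B - (k + 1)) : ℝ)
      = (3 * ((A : ℝ) + k + 1) * ((B : ℝ) - k) - ((B : ℝ) - k) - ((B : ℝ) - k) ^ 2
          - ((A : ℝ) + k + 1) ^ 2 + ((A : ℝ) + k + 1)) * (R (A + k) (B - k) : ℝ)
        + (((B : ℝ) - k) + 1) * (((B : ℝ) - k) - ((A : ℝ) + k + 1)) * (S (A + k) (B - k) : ℝ) ∧
    ((B : ℝ) - k) * ((A : ℝ) + k + 1) * (S (A + (k + 1)) (B - (k + 1)) : ℝ)
      = ((A : ℝ) + k + 1) * (((A : ℝ) + k + 1) - 1 - ((B : ℝ) - k)) * (R (A + k) (B - k) : ℝ)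
        + ((A : ℝ) + k + 1) * (((B : ℝ) - k) + 1) * (S (A + k) (B - k) : ℝ) := by
  obtain ⟨c, hc⟩ : ∃ c, B = c + 1 + k := ⟨B - k - 1, by omega⟩
  subst hc
  have e1 : c + 1 + k - k = c + 1 := by omega
  have e2 : c + 1 + k - (k + 1) = c := by omega
  have e3 : A + (k + 1) = A + k + 1 := by ring
  rw [e1, e2, e3]
  have h1 := step_R (A + k) c
  have h2 := step_S (A + k) c
  have h1' : (((c : ℤ) + 1) * (((A + k : ℕ) : ℤ) + 1) * R (A + k + 1) c : ℝ) = _ :=
    congrArg (fun z : ℤ => (z : ℝ)) h1 |> fun h => by simpa using h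
  have h2' : (((c : ℤ) + 1) * (((A + k : ℕ) : ℤ) + 1) * S (A + k + 1) c : ℝ) = _ :=
    congrArg (fun z : ℤ => (z : ℝ)) h2 |> fun h => by simpa using h
  push_cast at h1' h2' ⊢
  constructor
  · linear_combination h1'
  · linear_combination h2'

theorem pert (A B K : ℕ) (hd : A = B ∨ A = B + 1) (m : ℝ) (hr : |(R A B : ℝ)| ≤ m)
    (hs : |(S A B : ℝ)| ≤ m) (hK : 2 * (K ^ 2 + K) + K < B) (k : ℕ) (hk : k ≤ K) :
    |(R (A + k) (B - k) : ℝ) - R A B| ≤ 2 * ((k : ℝ) ^ 2 + k) / ((B : ℝ) - K) * m ∧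
    |(S (A + k) (B - k) : ℝ) - S A B| ≤ 2 * ((k : ℝ) ^ 2 + k) / ((B : ℝ) - K) * m := by
  have hm : 0 ≤ m := (abs_nonneg _).trans hr
  have hK' : 2 * ((K : ℝ) ^ 2 + K) + K < B := by exact_mod_cast hK
  have hβ : 0 < (B : ℝ) - K := by nlinarith [sq_nonneg (K : ℝ), (Nat.cast_nonneg K : (0:ℝ) ≤ K)]
  induction k with
  | zero => simp
  | succ k ih =>
    obtain ⟨i1, i2⟩ := ih (by omega)
    have hk' : (k : ℝ) + 1 ≤ K := by exact_mod_cast hk
    have k0 : (0 : ℝ) ≤ k := Nat.cast_nonneg k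
    have hD : 2 * ((k : ℝ) ^ 2 + k) / ((B : ℝ) - K) * m ≤ m := by
      have : 2 * ((k : ℝ) ^ 2 + k) / ((B : ℝ) - K) ≤ 1 := by
        rw [div_le_one hβ]
        nlinarith
      nlinarith
    have r1 : |(R (A + k) (B - k) : ℝ)| ≤ 2 * m := by
      have := abs_sub_abs_le_abs_sub (R (A + k) (B - k) : ℝ) (R A B)
      linarith
    have s1 : |(S (A + k) (B - k) : ℝ)| ≤ 2 * m := by
      have := abs_sub_abs_le_abs_sub (S (A + k) (B - k) : ℝ) (S A B)
      linarith
    obtain ⟨q1, q2⟩ := stepR' A B k (by omega)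
    have hb : 0 < (B : ℝ) - k := by linarith
    have hδ : 1 ≤ ((A : ℝ) + k + 1) - ((B : ℝ) - k) ∧
        ((A : ℝ) + k + 1) - ((B : ℝ) - k) ≤ 2 * k + 2 := by
      rcases hd with hd | hd
      · rw [hd]; constructor <;> linarith
      · rw [hd]; push_cast; constructor <;> linarith
    obtain ⟨b1, b2⟩ := step_bound ((A : ℝ) + k + 1) ((B : ℝ) - k)
      (((A : ℝ) + k + 1) - ((B : ℝ) - k)) _ _ _ _ (2 * m) hb (by ring) hδ.1 q1 q2 r1 s1
    have c1 : (((A : ℝ) + k + 1) - ((B : ℝ) - k)) * (2 * m) / ((B : ℝ) - k)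
        ≤ (2 * k + 2) * (2 * m) / ((B : ℝ) - K) := by
      apply div_le_div₀ (by positivity) _ hβ (by linarith)
      exact mul_le_mul_of_nonneg_right hδ.2 (by linarith)
    have c2 : 2 * (((k + 1 : ℕ) : ℝ) ^ 2 + ((k + 1 : ℕ) : ℝ)) / ((B : ℝ) - K) * m
        = 2 * ((k : ℝ) ^ 2 + k) / ((B : ℝ) - K) * m + (2 * k + 2) * (2 * m) / ((B : ℝ) - K) := by
      push_cast; field_simp; ring
    rw [c2]
    constructor
    · have := abs_sub_le (R (A + (k + 1)) (B - (k + 1)) : ℝ) (R (A + k) (B - k)) (R A B)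
      linarith
    · have := abs_sub_le (S (A + (k + 1)) (B - (k + 1)) : ℝ) (S (A + k) (B - k)) (S A B)
      linarith

theorem D_lt (B K : ℕ) (hK : 2 * (K ^ 2 + K) + K < B) (k : ℕ) (hk : k ≤ K) :
    2 * ((k : ℝ) ^ 2 + k) / ((B : ℝ) - K) < 1 := by
  have hK' : 2 * ((K : ℝ) ^ 2 + K) + K < B := by exact_mod_cast hK
  have hβ : 0 < (B : ℝ) - K := by nlinarith [sq_nonneg (K : ℝ), (Nat.cast_nonneg K : (0:ℝ) ≤ K)]
  have hk' : (k : ℝ) ≤ K := by exact_mod_cast hk
  have k0 : (0 : ℝ) ≤ k := Nat.cast_nonneg k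
  rw [div_lt_one hβ]
  nlinarith

theorem pos_of_close (u v D : ℝ) (hv : v ≠ 0) (hD : D < 1) (h : |u - v| ≤ D * |v|) :
    0 < u * v := by
  have hv' := abs_pos.mpr hv
  have h1 : |u - v| < |v| := lt_of_le_of_lt h (by nlinarith)
  obtain ⟨a1, a2⟩ := abs_lt.mp h1
  rcases lt_or_gt_of_ne hv with h0 | h0
  · rw [abs_of_neg h0] at a1 a2; nlinarith
  · rw [abs_of_pos h0] at a1 a2; nlinarith

/-- `n` odd -/
theorem case3 (B K : ℕ) (hK : 2 * (K ^ 2 + K) + K < B) :
    R (B + 1 + K) (B - K) ≠ 0 ∧ S (B + 1 + K) (B - K) ≠ 0 := by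
  have hv := ne_zero B B
  have h : R (B + 1) B ≠ 0 ∧ |(S (B + 1) B : ℝ)| = |(R (B + 1) B : ℝ)| := by
    rw [R_diag1, S_diag1]
    by_cases hB : 2 ∣ B
    · have h0 := S_diag_even B hB
      rw [h0] at hv ⊢
      refine ⟨fun h => hv ⟨by linarith, rfl⟩, ?_⟩
      push_cast
      rw [zero_sub, add_zero, abs_neg]
    · have h0 := R_diag_odd B hB
      rw [h0] at hv ⊢
      refine ⟨fun h => hv ⟨rfl, by linarith⟩, ?_⟩
      push_cast
      rw [sub_zero, zero_add]
  obtain ⟨p1, p2⟩ := pert (B + 1) B K (Or.inr rfl) |(R (B + 1) B : ℝ)| le_rfl h.2.le hK K le_rfl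
  have hD := D_lt B K hK K le_rfl
  have hR : (R (B + 1) B : ℝ) ≠ 0 := by exact_mod_cast h.1
  have hS : (S (B + 1) B : ℝ) ≠ 0 := by
    intro h0
    have := h.2
    rw [h0, abs_zero] at this
    exact hR (abs_eq_zero.mp this.symm)
  constructor
  · intro h0
    have := pos_of_close _ _ _ hR hD p1
    rw [h0] at this
    simp at this
  · intro h0
    rw [← h.2] at p2
    have := pos_of_close _ _ _ hS hD p2
    rw [h0] at this
    simp at this

/-- `n` even, half of it even -/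
theorem case1 (B K : ℕ) (hB : 2 ∣ B) (hK : 2 * (K ^ 2 + K) + K < B) :
    R (B + K) (B - K) ≠ 0 ∧ (2 ≤ K → S (B + K) (B - K) ≠ 0) := by
  have hv := ne_zero B B
  have h0 := S_diag_even B hB
  have hR : R B B ≠ 0 := fun h => hv ⟨h, h0⟩
  have hR' : (R B B : ℝ) ≠ 0 := by exact_mod_cast hR
  have hs : |(S B B : ℝ)| ≤ |(R B B : ℝ)| := by rw [h0]; simp
  have hpos : ∀ k ≤ K, 0 < (R (B + k) (B - k) : ℝ) * R B B := fun k hk =>
    pos_of_close _ _ _ hR' (D_lt B K hK k hk) (pert B B K (Or.inl rfl) _ le_rfl hs hK k hk).1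
  have hS : ∀ k ≤ K, 0 ≤ (S (B + k) (B - k) : ℝ) * R B B ∧
      (2 ≤ k → 0 < (S (B + k) (B - k) : ℝ) * R B B) := by
    intro k hk
    induction k with
    | zero => simp [h0]
    | succ k ih =>
      obtain ⟨i1, -⟩ := ih (by omega)
      have hp := hpos k (by omega)
      have q2 := (stepR' B B k (by omega)).2
      have hkB : (k : ℝ) + 1 ≤ B := by
        have : k + 1 ≤ B := by omega
        exact_mod_cast this
      have k0 : (0 : ℝ) ≤ k := Nat.cast_nonneg k
      have ha : (0 : ℝ) < (B : ℝ) + k + 1 := by linarith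
      have hb : (0 : ℝ) < (B : ℝ) - k := by linarith
      have e : ((B : ℝ) - k) * ((S (B + (k + 1)) (B - (k + 1)) : ℝ) * R B B)
          = (2 * k) * ((R (B + k) (B - k) : ℝ) * R B B)
            + (((B : ℝ) - k) + 1) * ((S (B + k) (B - k) : ℝ) * R B B) := by
        apply mul_left_cancel₀ ha.ne'
        linear_combination (R B B : ℝ) * q2
      have g1 : 0 ≤ (2 * (k : ℝ)) * ((R (B + k) (B - k) : ℝ) * R B B) :=
        mul_nonneg (by linarith) hp.le
      have g2 : 0 ≤ (((B : ℝ) - k) + 1) * ((S (B + k) (B - k) : ℝ) * R B B) :=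
        mul_nonneg (by linarith) i1
      constructor
      · by_contra hneg
        push Not at hneg
        have := mul_neg_of_pos_of_neg hb hneg
        linarith
      · intro hk2
        have g3 : 0 < (2 * (k : ℝ)) * ((R (B + k) (B - k) : ℝ) * R B B) := by
          have : (1 : ℝ) ≤ k := by
            have : 1 ≤ k := by omega
            exact_mod_cast this
          exact mul_pos (by linarith) hp
        by_contra hneg
        push Not at hneg
        have := mul_nonpos_of_nonneg_of_nonpos hb.le hneg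
        linarith
  constructor
  · intro h
    have := hpos K le_rfl
    rw [h] at this
    simp at this
  · intro h2 h
    have := (hS K le_rfl).2 h2
    rw [h] at this
    simp at this

/-- `n` even, half of it odd -/
theorem case2 (B K : ℕ) (hB : ¬ 2 ∣ B) (hK : 2 * (K ^ 2 + K) + K < B) :
    (1 ≤ K → R (B + K) (B - K) ≠ 0) ∧ S (B + K) (B - K) ≠ 0 := by
  have hv := ne_zero B B
  have h0 := R_diag_odd B hB
  have hS : S B B ≠ 0 := fun h => hv ⟨h0, h⟩
  have hS' : (S B B : ℝ) ≠ 0 := by exact_mod_cast hS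
  have hr : |(R B B : ℝ)| ≤ |(S B B : ℝ)| := by rw [h0]; simp
  have hpos : ∀ k ≤ K, 0 < (S (B + k) (B - k) : ℝ) * S B B := fun k hk =>
    pos_of_close _ _ _ hS' (D_lt B K hK k hk) (pert B B K (Or.inl rfl) _ hr le_rfl hK k hk).2
  have hR : ∀ k ≤ K, (R (B + k) (B - k) : ℝ) * S B B ≤ 0 ∧
      (1 ≤ k → (R (B + k) (B - k) : ℝ) * S B B < 0) := by
    intro k hk
    induction k with
    | zero => simp [h0]
    | succ k ih =>
      obtain ⟨i1, -⟩ := ih (by omega)
      have hp := hpos k (by omega)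
      have q1 := (stepR' B B k (by omega)).1
      have hKB : 2 * ((K : ℝ) ^ 2 + K) + K < B := by exact_mod_cast hK
      have hkK : (k : ℝ) + 1 ≤ K := by exact_mod_cast hk
      have k0 : (0 : ℝ) ≤ k := Nat.cast_nonneg k
      have hb1 : 2 * (((k : ℝ) + 1) ^ 2 + (k + 1)) < (B : ℝ) - k := by nlinarith
      have hb : (0 : ℝ) < (B : ℝ) - k := by nlinarith
      have ha : (0 : ℝ) < (B : ℝ) + k + 1 := by linarith
      have e : (((B : ℝ) - k) * ((B : ℝ) + k + 1))
            * ((R (B + (k + 1)) (B - (k + 1)) : ℝ) * S B B)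
          = (((B : ℝ) - k) * ((B : ℝ) + k + 1) - (2 * k + 1) * (2 * k))
              * ((R (B + k) (B - k) : ℝ) * S B B)
            - ((((B : ℝ) - k) + 1) * (2 * k + 1)) * ((S (B + k) (B - k) : ℝ) * S B B) := by
        linear_combination (S B B : ℝ) * q1
      have g0 : 0 ≤ ((B : ℝ) - k) * ((B : ℝ) + k + 1) - (2 * k + 1) * (2 * k) := by
        nlinarith
      have g1 := mul_nonpos_of_nonneg_of_nonpos g0 i1
      have g2 : 0 < ((((B : ℝ) - k) + 1) * (2 * k + 1)) * ((S (B + k) (B - k) : ℝ) * S B B) :=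
        mul_pos (mul_pos (by linarith) (by linarith)) hp
      have g3 : (R (B + (k + 1)) (B - (k + 1)) : ℝ) * S B B < 0 := by
        by_contra hneg
        push Not at hneg
        have := mul_nonneg (mul_pos hb ha).le hneg
        linarith
      exact ⟨g3.le, fun _ => g3⟩
  constructor
  · intro h2 h
    have := (hR K le_rfl).2 h2
    rw [h] at this
    simp at this
  · intro h
    have := hpos K le_rfl
    rw [h] at this
    simp at this

/-- the right half -/
theorem right (A B x : ℕ) (hx : A = B + x) (h0 : 1 ≤ x) (h : (x + 1) * (x + 2) < A + B + 2) :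
    R A B ≠ 0 ∧ (x ≠ 2 → S A B ≠ 0) := by
  obtain ⟨K, hK | hK⟩ : ∃ K, x = 2 * K ∨ x = 2 * K + 1 := ⟨x / 2, by omega⟩
  · subst hK
    have e1 : A = (B + K) + K := by omega
    have e2 : B = (B + K) - K := by omega
    have hK : 2 * (K ^ 2 + K) + K < B + K := by nlinarith
    by_cases hp : 2 ∣ (B + K)
    · have := case1 (B + K) K hp hK
      rw [← e1, ← e2] at this
      exact ⟨this.1, fun h => this.2 (by omega)⟩
    · have := case2 (B + K) K hp hK
      rw [← e1, ← e2] at this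
      exact ⟨this.1 (by omega), fun _ => this.2⟩
  · subst hK
    have e1 : A = (B + K) + 1 + K := by omega
    have e2 : B = (B + K) - K := by omega
    have hK : 2 * (K ^ 2 + K) + K < B + K := by nlinarith
    have := case3 (B + K) K hK
    rw [← e1, ← e2] at this
    exact ⟨this.1, fun _ => this.2⟩

theorem centre (x : ℤ) (t : ℕ) (hp : Even (x + t)) (h : (|x| + 3) * (|x| + 4) < t) (hx : x ≠ 0) :
    (amp x t).re ≠ 0 ∧ (x ≠ 2 → (amp x t).im ≠ 0) := by
  have hx0 := abs_nonneg x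
  have g1 : |x| + 12 < t := by nlinarith
  have g2 := neg_abs_le x
  have g3 := le_abs_self x
  obtain ⟨A, B, hA, hxA, ht⟩ := coords t x (by linarith) (by linarith) hp
  subst hxA ht
  rcases lt_or_gt_of_ne hx with hneg | hpos
  · -- left half
    obtain ⟨y, hy⟩ : ∃ y : ℕ, B = A + y := ⟨B - A, by omega⟩
    have hyx : |(A : ℤ) - B| = y := by rw [hy]; push_cast; rw [abs_of_nonpos] <;> linarith
    rw [hyx] at h
    have hy1 : 1 ≤ y := by omega
    have h' : (y + 3) * (y + 4) < A + B + 2 := by exact_mod_cast h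
    have r1 := (right B A y hy hy1 (by nlinarith)).1
    obtain ⟨a, ha⟩ : ∃ a, A = a + 1 := ⟨A - 1, by omega⟩
    have s1 := (right (B + 1) a (y + 2) (by omega) (by omega)
      (by have : a + 1 + B + 2 = A + B + 2 := by omega
          nlinarith)).2 (by omega)
    constructor
    · apply re_ne; rw [R_symm]; exact r1
    · intro _
      apply im_ne
      intro h0
      have hs := S_symm a B
      rw [← ha, h0, mul_zero] at hs
      rcases mul_eq_zero.mp hs.symm with h1 | h1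
      · have : (0 : ℤ) < (a : ℤ) + 1 := by positivity
        linarith
      · exact s1 h1
  · obtain ⟨y, hy⟩ : ∃ y : ℕ, A = B + y := ⟨A - B, by omega⟩
    have hyx : |(A : ℤ) - B| = y := by rw [hy]; push_cast; rw [abs_of_nonneg] <;> linarith
    rw [hyx] at h
    have h' : (y + 3) * (y + 4) < A + B + 2 := by exact_mod_cast h
    obtain ⟨r1, s1⟩ := right A B y hy (by omega) (by nlinarith)
    exact ⟨re_ne A B r1, fun h2 => im_ne A B (s1 (by omega))⟩

end Pool.Agent.K7.H29.FC
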