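import Pool.Agent.K7.H29.FC5

namespace Pool.Agent.K7.H29.FC

open Polynomial

theorem S_zero_right (A : ℕ) : S A 0 = -(A : ℤ) := by
  have h := R_succ_A A 0
  rw [R_zero_right, R_zero_right] at h
  push_cast at h
  linarith

theorem down (A B : ℕ) :
    2 * ((A : ℤ) + 1) * R A B = ((A : ℤ) + 1) * R (A + 1) B - ((B : ℤ) + 1) * S (A + 1) B := by
  have h1 := R_succ_A A B
  have h2 := S_succ_A A B
  rw [h2]
  linear_combination -h1

theorem cast_ne (p : ℕ) [hp : Fact p.Prime] (k : ℕ) (h0 : 0 < k) (h : k < p) :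
    (k : ZMod p) ≠ 0 := by
  intro h1
  rw [ZMod.natCast_eq_zero_iff] at h1
  exact absurd (Nat.le_of_dvd h0 h1) (by omega)

theorem two_ne (p : ℕ) [hp : Fact p.Prime] (h2 : p ≠ 2) : (2 : ZMod p) ≠ 0 := by
  have h := hp.out.two_le
  have := cast_ne p 2 (by norm_num) (by omega)
  exact_mod_cast this

theorem base (p : ℕ) [hp : Fact p.Prime] (B : ℕ) (hB : B + 2 ≤ p) :
    (R (p - 1) B : ZMod p) = 2 ^ B ∧ (S (p - 1) B : ZMod p) = 2 ^ B := by
  have hA : ((p - 1 : ℕ) : ZMod p) = -1 := by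
    rw [Nat.cast_sub hp.out.one_le]; simp
  induction B with
  | zero =>
    rw [R_zero_right, S_zero_right]
    push_cast
    rw [hA]
    simp
  | succ B ih =>
    obtain ⟨i1, i2⟩ := ih (by omega)
    have h1 : (R (p - 1) (B + 1) : ZMod p) = R (p - 1) B + S (p - 1) B := by
      exact_mod_cast congrArg (fun z : ℤ => (z : ZMod p)) (R_succ_B (p - 1) B)
    have h2 := congrArg (fun z : ℤ => (z : ZMod p)) (S_succ_B (p - 1) B)
    simp only [Int.cast_mul, Int.cast_add, Int.cast_sub, Int.cast_natCast, Int.cast_ofNat] at h2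
    rw [hA, i1, i2] at h2
    rw [i1, i2] at h1
    constructor
    · rw [h1]; ring
    · have hne : ((B : ZMod p) + 2) ≠ 0 := by
        have := cast_ne p (B + 2) (by omega) (by omega)
        push_cast at this
        exact this
      apply mul_left_cancel₀ hne
      rw [h2]; ring

noncomputable def rs (p : ℕ) [Fact p.Prime] : ℕ → (ZMod p)[X] × (ZMod p)[X]
  | 0 => (1, 1)
  | j + 1 => (C ((2 : ZMod p)⁻¹) * (rs p j).1
        + C ((2 * ((j : ZMod p) + 1))⁻¹) * ((X + 1) * (rs p j).2),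
      (rs p j).2 + (C ((2 : ZMod p)⁻¹) * (rs p j).1
        + C ((2 * ((j : ZMod p) + 1))⁻¹) * ((X + 1) * (rs p j).2)))

theorem rs_deg (p : ℕ) [hp : Fact p.Prime] (h2 : p ≠ 2) (j : ℕ) (hj : j < p) :
    (rs p j).1.natDegree ≤ j ∧ (rs p j).2.natDegree ≤ j ∧
    (rs p j).1.coeff j = (rs p j).2.coeff j ∧ (rs p j).1.coeff j ≠ 0 := by
  induction j with
  | zero => simp [rs]
  | succ j ih =>
    obtain ⟨i1, i2, i3, i4⟩ := ih (by omega)
    have d1 : (C ((2 : ZMod p)⁻¹) * (rs p j).1).natDegree ≤ j + 1 :=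
      (natDegree_C_mul_le _ _).trans (by omega)
    have d2 : (C ((2 * ((j : ZMod p) + 1))⁻¹) * ((X + 1) * (rs p j).2)).natDegree ≤ j + 1 := by
      refine (natDegree_C_mul_le _ _).trans ?_
      have hX : (X + 1 : (ZMod p)[X]).natDegree ≤ 1 := by compute_degree
      exact (natDegree_mul_le_of_le hX i2).trans (by omega)
    have d3 := natDegree_add_le_of_degree_le d1 d2
    have c1 : (rs p j).1.coeff (j + 1) = 0 := coeff_eq_zero_of_natDegree_lt (by omega)
    have c2 : (rs p j).2.coeff (j + 1) = 0 := coeff_eq_zero_of_natDegree_lt (by omega)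
    have c3 : (C ((2 : ZMod p)⁻¹) * (rs p j).1
        + C ((2 * ((j : ZMod p) + 1))⁻¹) * ((X + 1) * (rs p j).2)).coeff (j + 1)
        = (2 * ((j : ZMod p) + 1))⁻¹ * (rs p j).2.coeff j := by
      rw [coeff_add, coeff_C_mul, coeff_C_mul, c1, add_mul, one_mul, coeff_add, c2, coeff_X_mul]
      ring
    have hne : (2 * ((j : ZMod p) + 1))⁻¹ ≠ 0 := by
      apply inv_ne_zero
      apply mul_ne_zero (two_ne p h2)
      have := cast_ne p (j + 1) (by omega) (by omega)
      push_cast at this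
      exact this
    simp only [rs]
    refine ⟨d3, natDegree_add_le_of_degree_le (i2.trans (by omega)) d3, ?_, ?_⟩
    · rw [coeff_add (rs p j).2, c2, zero_add]
    · rw [c3]
      exact mul_ne_zero hne (i3 ▸ i4)

theorem rs_eval (p : ℕ) [hp : Fact p.Prime] (h2 : p ≠ 2) (B : ℕ) (hB : B + 2 ≤ p) (j : ℕ) :
    ∀ A, A + 1 + j = p → (R A B : ZMod p) = 2 ^ B * (rs p j).1.eval (B : ZMod p) ∧
      (S A B : ZMod p) = 2 ^ B * (rs p j).2.eval (B : ZMod p) := by
  induction j with
  | zero =>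
    intro A hA
    have : A = p - 1 := by omega
    rw [this]
    obtain ⟨b1, b2⟩ := base p B hB
    simp [rs, b1, b2]
  | succ j ih =>
    intro A hA
    obtain ⟨i1, i2⟩ := ih (A + 1) (by omega)
    have h1 := congrArg (fun z : ℤ => (z : ZMod p)) (down A B)
    have h3 : (S A B : ZMod p) = S (A + 1) B + R A B := by
      have : S A B = S (A + 1) B + R A B := by rw [S_succ_A]; ring
      exact_mod_cast congrArg (fun z : ℤ => (z : ZMod p)) this
    simp only [Int.cast_mul, Int.cast_add, Int.cast_sub, Int.cast_natCast, Int.cast_ofNat,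
      Int.cast_one] at h1
    have ha : (A : ZMod p) + 1 = -((j : ZMod p) + 1) := by
      have h : ((A + 1 + (j + 1) : ℕ) : ZMod p) = 0 := by
        rw [hA]; simp
      push_cast at h
      linear_combination h
    have hj : ((j : ZMod p) + 1) ≠ 0 := by
      have := cast_ne p (j + 1) (by omega) (by omega)
      push_cast at this
      exact this
    have h2' := two_ne p h2
    rw [ha, i1, i2] at h1
    have hR : (R A B : ZMod p) = 2 ^ B * (rs p (j + 1)).1.eval (B : ZMod p) := by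
      simp only [rs, eval_add, eval_mul, eval_C, eval_X, eval_one]
      apply mul_left_cancel₀ (mul_ne_zero h2' (neg_ne_zero.mpr hj))
      rw [h1]
      field_simp
      ring
    refine ⟨hR, ?_⟩
    rw [h3, i2, hR]
    simp only [rs, eval_add]
    ring

theorem roots_mod (p : ℕ) [hp : Fact p.Prime] (P : (ZMod p)[X]) (hP : P ≠ 0) (d : ℕ)
    (hd : P.natDegree ≤ d) (Z : Finset ℕ) (hlt : ∀ B ∈ Z, B < p)
    (hZ : ∀ B ∈ Z, P.eval (B : ZMod p) = 0) : Z.card ≤ d := by
  have h1 : Z.card ≤ P.roots.toFinset.card := by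
    apply Finset.card_le_card_of_injOn (fun B : ℕ => (B : ZMod p))
    · intro B hB
      simp only [Finset.mem_coe, Multiset.mem_toFinset, mem_roots hP]
      exact hZ B (by simpa using hB)
    · intro a ha b hb hab
      simp only at hab
      rw [ZMod.natCast_eq_natCast_iff'] at hab
      rw [Nat.mod_eq_of_lt (hlt a (by simpa using ha)),
        Nat.mod_eq_of_lt (hlt b (by simpa using hb))] at hab
      exact hab
  exact h1.trans ((Multiset.toFinset_card_le _).trans ((card_roots' P).trans hd))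

theorem line (p : ℕ) (hp : p.Prime) (h2 : p ≠ 2) (A : ℕ) (hA : A + 1 ≤ p) (Z : Finset ℕ)
    (hlt : ∀ B ∈ Z, B + 2 ≤ p) :
    ((∀ B ∈ Z, R A B = 0) → Z.card ≤ p - (A + 1)) ∧
    ((∀ B ∈ Z, S A B = 0) → Z.card ≤ p - (A + 1)) := by
  have : Fact p.Prime := ⟨hp⟩
  obtain ⟨j, hj⟩ : ∃ j, A + 1 + j = p := ⟨p - (A + 1), by omega⟩
  have hj' : p - (A + 1) = j := by omega
  obtain ⟨d1, d2, d3, d4⟩ := rs_deg p h2 j (by omega)
  have n1 : (rs p j).1 ≠ 0 := fun h => d4 (by rw [h]; simp)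
  have n2 : (rs p j).2 ≠ 0 := fun h => d4 (by rw [d3, h]; simp)
  rw [hj']
  constructor
  · intro hZ
    apply roots_mod p _ n1 j d1 Z (fun B hB => by have := hlt B hB; omega)
    intro B hB
    have e := (rs_eval p h2 B (hlt B hB) j A hj).1
    rw [hZ B hB, Int.cast_zero] at e
    rcases mul_eq_zero.mp e.symm with h | h
    · exact absurd h (pow_ne_zero _ (two_ne p h2))
    · exact h
  · intro hZ
    apply roots_mod p _ n2 j d2 Z (fun B hB => by have := hlt B hB; omega)
    intro B hB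
    have e := (rs_eval p h2 B (hlt B hB) j A hj).2
    rw [hZ B hB, Int.cast_zero] at e
    rcases mul_eq_zero.mp e.symm with h | h
    · exact absurd h (pow_ne_zero _ (two_ne p h2))
    · exact h

theorem lines (p m : ℕ) (hp : p.Prime) (h2 : p ≠ 2) (hm : 1 ≤ m) (hmp : m ≤ p) :
    {v : ℕ | 1 ≤ v ∧ v < p ∧ (amp ((m : ℤ) - v) (m + v)).re = 0}.ncard ≤ p - m ∧
    {v : ℕ | 1 ≤ v ∧ v < p ∧ (amp ((m : ℤ) - v) (m + v)).im = 0}.ncard ≤ p - m ∧
    {u : ℕ | 1 ≤ u ∧ u < p ∧ (amp ((u : ℤ) - m) (u + m)).re = 0}.ncard ≤ p - m ∧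
    (2 ≤ m → {u : ℕ | 2 ≤ u ∧ u ≤ p ∧ (amp ((u : ℤ) - ((m - 1 : ℕ) : ℤ)) (u + (m - 1))).im = 0}.ncard
      ≤ p - m) := by
  obtain ⟨A, rfl⟩ : ∃ A, m = A + 1 := ⟨m - 1, by omega⟩
  have key : ∀ (f : ℕ → Prop) (g : ℕ → ℕ) (s : Set ℕ), (Set.InjOn g s) → (∀ v ∈ s, v ≤ p) →
      (∀ v ∈ s, g v + 2 ≤ p) →
      ((∀ v ∈ s, R A (g v) = 0) ∨ (∀ v ∈ s, S A (g v) = 0)) → s.ncard ≤ p - (A + 1) := by
    intro _ g s hg hfin hlt hz
    have hs : s.Finite := (Set.finite_Iic p).subset (fun v hv => hfin v hv)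
    classical
    have e : s.ncard = (hs.toFinset.image g).card := by
      rw [Finset.card_image_of_injOn (by simpa using hg), Set.ncard_eq_toFinset_card s hs]
    rw [e]
    have hl := line p hp h2 A (by omega) (hs.toFinset.image g) (by
      intro B hB
      obtain ⟨v, hv, rfl⟩ := Finset.mem_image.mp hB
      exact hlt v (by simpa using hv))
    rcases hz with hz | hz
    · apply hl.1
      intro B hB
      obtain ⟨v, hv, rfl⟩ := Finset.mem_image.mp hB
      exact hz v (by simpa using hv)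
    · apply hl.2
      intro B hB
      obtain ⟨v, hv, rfl⟩ := Finset.mem_image.mp hB
      exact hz v (by simpa using hv)
  refine ⟨?_, ?_, ?_, ?_⟩
  · apply key (fun _ => True) (fun v => v - 1)
    · rintro a ⟨ha, -⟩ b ⟨hb, -⟩ hab
      simp only at hab
      omega
    · rintro v ⟨-, h, -⟩; omega
    · rintro v ⟨h1, h, -⟩; omega
    · left
      rintro v ⟨h1, h, h3⟩
      obtain ⟨B, rfl⟩ : ∃ B, v = B + 1 := ⟨v - 1, by omega⟩
      have e1 : (((A + 1 : ℕ) : ℤ) - ((B + 1 : ℕ) : ℤ)) = (A : ℤ) - B := by push_cast; ring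
      have e2 : A + 1 + (B + 1) = A + B + 2 := by ring
      rw [e1, e2] at h3
      exact re_zero A B h3
  · apply key (fun _ => True) (fun v => v - 1)
    · rintro a ⟨ha, -⟩ b ⟨hb, -⟩ hab
      simp only at hab
      omega
    · rintro v ⟨-, h, -⟩; omega
    · rintro v ⟨h1, h, -⟩; omega
    · right
      rintro v ⟨h1, h, h3⟩
      obtain ⟨B, rfl⟩ : ∃ B, v = B + 1 := ⟨v - 1, by omega⟩
      have e1 : (((A + 1 : ℕ) : ℤ) - ((B + 1 : ℕ) : ℤ)) = (A : ℤ) - B := by push_cast; ring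
      have e2 : A + 1 + (B + 1) = A + B + 2 := by ring
      rw [e1, e2] at h3
      exact im_zero A B h3
  · apply key (fun _ => True) (fun v => v - 1)
    · rintro a ⟨ha, -⟩ b ⟨hb, -⟩ hab
      simp only at hab
      omega
    · rintro v ⟨-, h, -⟩; omega
    · rintro v ⟨h1, h, -⟩; omega
    · left
      rintro v ⟨h1, h, h3⟩
      obtain ⟨B, rfl⟩ : ∃ B, v = B + 1 := ⟨v - 1, by omega⟩
      have e1 : (((B + 1 : ℕ) : ℤ) - ((A + 1 : ℕ) : ℤ)) = (B : ℤ) - A := by push_cast; ring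
      have e2 : B + 1 + (A + 1) = B + A + 2 := by ring
      rw [e1, e2] at h3
      have := re_zero B A h3
      rw [R_symm]
      exact this
  · intro hm2
    apply key (fun _ => True) (fun u => u - 2)
    · rintro a ⟨ha, -⟩ b ⟨hb, -⟩ hab
      simp only at hab
      omega
    · rintro v ⟨-, h, -⟩; omega
    · rintro v ⟨h1, h, -⟩; omega
    · right
      rintro v ⟨h1, h, h3⟩
      obtain ⟨a, rfl⟩ : ∃ a, v = a + 2 := ⟨v - 2, by omega⟩
      obtain ⟨b, rfl⟩ : ∃ b, A = b + 1 := ⟨A - 1, by omega⟩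
      have e0 : b + 1 + 1 - 1 = b + 1 := by omega
      have e1 : (((a + 2 : ℕ) : ℤ) - ((b + 1 : ℕ) : ℤ)) = ((a + 1 : ℕ) : ℤ) - b := by
        push_cast; ring
      have e2 : a + 2 + (b + 1) = (a + 1) + b + 2 := by omega
      rw [e0] at h3
      rw [e1, e2] at h3
      have h5 := im_zero (a + 1) b h3
      have h6 := S_symm a b
      rw [h5, mul_zero] at h6
      rcases mul_eq_zero.mp h6.symm with h7 | h7
      · have : (0 : ℤ) < (a : ℤ) + 1 := by positivity
        linarith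
      · simpa using h7

end Pool.Agent.K7.H29.FC
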