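import Pool.Agent.K7.H29.FC6

namespace Pool.Agent.K7.H29.FC

open Polynomial

theorem F_deg (a b : ℕ) : (F a b).natDegree ≤ a + b := by
  unfold F
  have h1 : ((1 - X : ℤ[X]) ^ a).natDegree ≤ a := by
    have : (1 - X : ℤ[X]).natDegree ≤ 1 := by compute_degree
    exact (natDegree_pow_le_of_le a this).trans (by omega)
  have h2 : ((1 + X : ℤ[X]) ^ b).natDegree ≤ b := by
    have : (1 + X : ℤ[X]).natDegree ≤ 1 := by compute_degree
    exact (natDegree_pow_le_of_le b this).trans (by omega)
  exact natDegree_mul_le_of_le h1 h2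

theorem F_lucas (p : ℕ) [hp : Fact p.Prime] (a b A B : ℕ) :
    (F (a + p * A) (b + p * B)).map (Int.castRingHom (ZMod p))
      = (F a b).map (Int.castRingHom (ZMod p))
        * expand (ZMod p) p ((F A B).map (Int.castRingHom (ZMod p))) := by
  unfold F
  simp only [Polynomial.map_mul, Polynomial.map_pow, Polynomial.map_sub, Polynomial.map_add,
    Polynomial.map_one, Polynomial.map_X, map_mul, map_pow, map_sub, map_add, map_one, expand_X]
  have e1 : (1 - X ^ p : (ZMod p)[X]) = (1 - X) ^ p := by rw [sub_pow_char, one_pow]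
  have e2 : (1 + X ^ p : (ZMod p)[X]) = (1 + X) ^ p := by rw [add_pow_char, one_pow]
  rw [e1, e2, ← pow_mul, ← pow_mul, pow_add, pow_add]
  ring

theorem R_lucas (p : ℕ) [hp : Fact p.Prime] (a b A B : ℕ) (ha : a < p) (hb : b < p) :
    (R (a + p * A) (b + p * B) : ZMod p) = (R a b : ZMod p) * (R A B : ZMod p) := by
  have hp0 : 0 < p := hp.out.pos
  have h := congrArg (fun q : (ZMod p)[X] => q.coeff (b + p * B)) (F_lucas p a b A B)
  simp only [coeff_map] at h
  rw [coeff_mul, Finset.sum_eq_single (b, p * B)] at h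
  · rw [coeff_map, coeff_expand hp0, if_pos (dvd_mul_right p B), Nat.mul_div_cancel_left _ hp0,
      coeff_map] at h
    exact h
  · rintro ⟨i, j⟩ hij hne
    rw [Finset.HasAntidiagonal.mem_antidiagonal] at hij
    simp only at hij ⊢
    rw [coeff_expand hp0]
    split_ifs with hd
    · obtain ⟨c, rfl⟩ := hd
      rcases lt_trichotomy c B with hc | hc | hc
      · have hi : a + b < i := by
          have : p * (c + 1) ≤ p * B := Nat.mul_le_mul_left p hc
          have e : p * (c + 1) = p * c + p := by ring
          omega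
        have : ((F a b).map (Int.castRingHom (ZMod p))).coeff i = 0 := by
          apply coeff_eq_zero_of_natDegree_lt
          exact lt_of_le_of_lt (natDegree_map_le.trans (F_deg a b)) hi
        rw [this, zero_mul]
      · subst hc
        exfalso
        apply hne
        have : i = b := by omega
        rw [this]
      · exfalso
        have : p * (B + 1) ≤ p * c := Nat.mul_le_mul_left p hc
        have e : p * (B + 1) = p * B + p := by ring
        omega
    · rw [mul_zero]
  · intro h'
    exfalso
    apply h'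
    rw [Finset.HasAntidiagonal.mem_antidiagonal]

/-- no pair in row `n` or `n - 1` is a zero modulo `p` -/
def Good (p n : ℕ) : Prop := ∀ A B : ℕ, (A + B = n ∨ A + B + 1 = n) → (R A B : ZMod p) ≠ 0

theorem good_zero (p : ℕ) [hp : Fact p.Prime] : Good p 0 := by
  intro A B h
  have hA : A = 0 := by omega
  have hB : B = 0 := by omega
  subst hA hB
  rw [R_zero]
  simp

theorem good_step (p : ℕ) [hp : Fact p.Prime] (d n : ℕ) (hd : d < p)
    (hD : ∀ a < p, ∀ b < p, ((a + b) % p = d ∨ (a + b + 1) % p = d) → (R a b : ZMod p) ≠ 0)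
    (hn : Good p n) : Good p (d + p * n) := by
  intro A B h
  have hp0 : 0 < p := hp.out.pos
  have eA : A = A % p + p * (A / p) := (Nat.mod_add_div A p).symm
  have eB : B = B % p + p * (B / p) := (Nat.mod_add_div B p).symm
  have ha : A % p < p := Nat.mod_lt _ hp0
  have hb : B % p < p := Nat.mod_lt _ hp0
  rw [eA, eB, R_lucas p _ _ _ _ ha hb]
  have hs : A + B = (A % p + B % p) + p * (A / p + B / p) := by
    rw [mul_add]; omega
  set a := A % p
  set b := B % p
  set s := A / p + B / p with hsdef
  have hmod : ∀ x, x + p * s = d + p * n → x % p = d := by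
    intro x hx
    have := congrArg (fun z => z % p) hx
    simp only [Nat.add_mul_mod_self_left] at this
    rw [this, Nat.mod_eq_of_lt hd]
  have hcarry : ∀ x, x < 2 * p → x + p * s = d + p * n → (s = n ∨ s + 1 = n) := by
    intro x hx hxs
    rcases lt_trichotomy s n with hc | hc | hc
    · right
      by_contra hne
      have h2 : s + 2 ≤ n := by omega
      have : p * (s + 2) ≤ p * n := Nat.mul_le_mul_left p h2
      have e : p * (s + 2) = p * s + 2 * p := by ring
      omega
    · left; exact hc
    · exfalso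
      have : p * (n + 1) ≤ p * s := Nat.mul_le_mul_left p hc
      have e : p * (n + 1) = p * n + p := by ring
      omega
  have key : ((a + b) % p = d ∨ (a + b + 1) % p = d) ∧ (s = n ∨ s + 1 = n) := by
    rcases h with h | h
    · have h1 : (a + b) + p * s = d + p * n := by omega
      exact ⟨Or.inl (hmod _ h1), hcarry _ (by omega) h1⟩
    · have h1 : (a + b + 1) + p * s = d + p * n := by omega
      exact ⟨Or.inr (hmod _ h1), hcarry _ (by omega) h1⟩
  exact mul_ne_zero (hD a ha b hb key.1) (hn _ _ key.2)

theorem R_rec (A B : ℕ) : R (A + 1) (B + 1) = R (A + 1) B + R A (B + 1) - 2 * R A B := by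
  have a := R_succ_B (A + 1) B
  have b := S_succ_A A B
  have c := R_succ_B A B
  linarith

/-- the table modulo `p` -/
def go (p : ℕ) : ℕ → ℕ → List ℕ → List ℕ
  | _, _, [] => []
  | c, r, r' :: rs => (c + r' + (p - 2) * r) % p :: go p ((c + r' + (p - 2) * r) % p) r' rs

def nextRow (p : ℕ) : List ℕ → List ℕ
  | [] => []
  | r :: rs => 1 :: go p 1 r rs

def chkRow (p : ℕ) (D : List ℕ) (a : ℕ) : ℕ → List ℕ → Bool
  | _, [] => true
  | b, r :: rs => (r != 0 || (!(D.contains ((a + b) % p)) && !(D.contains ((a + b + 1) % p))))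
      && chkRow p D a (b + 1) rs

def chk (p : ℕ) (D : List ℕ) : ℕ → ℕ → List ℕ → Bool
  | 0, _, _ => true
  | k + 1, a, l => chkRow p D a 0 l && chk p D k (a + 1) (nextRow p l)

/-- `l` lists `R a b, R a (b+1), ...` modulo `p` -/
def Rep (p a b : ℕ) (l : List ℕ) : Prop :=
  ∀ i (h : i < l.length), ((l[i] : ℕ) : ZMod p) = (R a (b + i) : ZMod p) ∧ l[i] < p

theorem go_length (p : ℕ) (l : List ℕ) : ∀ c r, (go p c r l).length = l.length := by
  induction l with
  | nil => intro c r; rfl
  | cons x l ih => intro c r; simp [go, ih]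

theorem go_rep (p : ℕ) [hp : Fact p.Prime] (a : ℕ) (l : List ℕ) : ∀ b c r : ℕ,
    ((c : ℕ) : ZMod p) = R (a + 1) b → ((r : ℕ) : ZMod p) = R a b → Rep p a (b + 1) l →
      Rep p (a + 1) (b + 1) (go p c r l) := by
  induction l with
  | nil => intro b c r _ _ _ i hi; simp [go] at hi
  | cons x l ih =>
    intro b c r hc hr hl
    have hx := hl 0 (by simp)
    simp only [List.getElem_cons_zero, Nat.add_zero] at hx
    have hp2 : ((p - 2 : ℕ) : ZMod p) = -2 := by
      rw [Nat.cast_sub hp.out.two_le]; simp
    have hnew : (((c + x + (p - 2) * r) % p : ℕ) : ZMod p) = R (a + 1) (b + 1) := by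
      rw [ZMod.natCast_mod, R_rec]
      push_cast
      rw [hp2, hc, hr, hx.1]; ring
    have htl : Rep p a (b + 1 + 1) l := by
      intro i hi
      have := hl (i + 1) (by simp; omega)
      simp only [List.getElem_cons_succ] at this
      have e : b + 1 + (i + 1) = b + 1 + 1 + i := by ring
      rw [e] at this
      exact this
    have := ih (b + 1) _ x hnew hx.1 htl
    intro i hi
    rcases i with _ | i
    · simp only [go, List.getElem_cons_zero, Nat.add_zero]
      exact ⟨hnew, Nat.mod_lt _ hp.out.pos⟩
    · have h2 := this i (by simpa [go] using hi)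
      simp only [go, List.getElem_cons_succ]
      have e : b + 1 + (i + 1) = b + 1 + 1 + i := by ring
      rw [e]
      exact h2

theorem nextRow_rep (p : ℕ) [hp : Fact p.Prime] (a : ℕ) (l : List ℕ) (hl : Rep p a 0 l) :
    Rep p (a + 1) 0 (nextRow p l) ∧ (nextRow p l).length = l.length := by
  rcases l with _ | ⟨x, l⟩
  · exact ⟨fun i hi => by simp [nextRow] at hi, rfl⟩
  · have hx := hl 0 (by simp)
    simp only [List.getElem_cons_zero, Nat.add_zero] at hx
    have htl : Rep p a (0 + 1) l := by
      intro i hi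
      have := hl (i + 1) (by simp; omega)
      simp only [List.getElem_cons_succ] at this
      have e : 0 + (i + 1) = 0 + 1 + i := by ring
      rw [e] at this
      exact this
    have h1 := go_rep p a l 0 1 x (by rw [R_zero_right]; simp) hx.1 htl
    refine ⟨?_, by simp [nextRow, go_length]⟩
    intro i hi
    rcases i with _ | i
    · simp only [nextRow, List.getElem_cons_zero, Nat.add_zero]
      rw [R_zero_right]
      exact ⟨by simp, hp.out.one_lt⟩
    · have h2 := h1 i (by simpa [nextRow, go_length] using hi)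
      simp only [nextRow, List.getElem_cons_succ]
      have e : 0 + (i + 1) = 0 + 1 + i := by ring
      rw [e]
      exact h2

theorem chkRow_spec (p : ℕ) (D : List ℕ) (a : ℕ) (l : List ℕ) : ∀ b, chkRow p D a b l = true →
    ∀ i (h : i < l.length), l[i] = 0 → ¬ ((a + (b + i)) % p ∈ D) ∧ ¬ ((a + (b + i) + 1) % p ∈ D) := by
  induction l with
  | nil => intro b _ i hi; simp at hi
  | cons x l ih =>
    intro b hb i hi h0
    simp only [chkRow, Bool.and_eq_true, Bool.or_eq_true, bne_iff_ne, ne_eq,
      Bool.not_eq_true', List.contains_eq_mem, decide_eq_false_iff_not] at hb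
    rcases i with _ | i
    · simp only [List.getElem_cons_zero] at h0
      rcases hb.1 with h | h
      · exact absurd h0 h
      · exact h
    · have := ih (b + 1) hb.2 i (by simpa using hi) (by simpa using h0)
      have e : b + (i + 1) = b + 1 + i := by ring
      rw [e]
      exact this

theorem chk_spec (p : ℕ) [hp : Fact p.Prime] (D : List ℕ) (k : ℕ) : ∀ a l, Rep p a 0 l →
    l.length = p → chk p D k a l = true → ∀ a', a ≤ a' → a' < a + k → ∀ b < p,
      (R a' b : ZMod p) = 0 → ¬ ((a' + b) % p ∈ D) ∧ ¬ ((a' + b + 1) % p ∈ D) := by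
  induction k with
  | zero => intro a l _ _ _ a' h1 h2; omega
  | succ k ih =>
    intro a l hl hlen hc a' h1 h2 b hb h0
    simp only [chk, Bool.and_eq_true] at hc
    rcases Nat.eq_or_lt_of_le h1 with h | h
    · subst h
      have hi : b < l.length := by omega
      have h3 := hl b hi
      rw [Nat.zero_add, h0] at h3
      have h4 : l[b] = 0 := by
        rw [ZMod.natCast_eq_zero_iff] at h3
        exact Nat.eq_zero_of_dvd_of_lt h3.1 h3.2
      have h5 := chkRow_spec p D a l 0 hc.1 b hi h4
      rw [Nat.zero_add] at h5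
      exact h5
    · obtain ⟨n1, n2⟩ := nextRow_rep p a l hl
      exact ih (a + 1) _ n1 (by omega) hc.2 a' h (by omega) b hb h0

theorem digits_ok (p : ℕ) [hp : Fact p.Prime] (D : List ℕ)
    (h : chk p D p 0 (List.replicate p 1) = true) (d : ℕ) (hd : d ∈ D) :
    ∀ a < p, ∀ b < p, ((a + b) % p = d ∨ (a + b + 1) % p = d) → (R a b : ZMod p) ≠ 0 := by
  intro a ha b hb hab h0
  have hrep : Rep p 0 0 (List.replicate p 1) := by
    intro i hi
    rw [R_zero]
    simp [hp.out.one_lt]
  have := chk_spec p D p 0 _ hrep (by simp) h a (by omega) (by omega) b hb h0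
  rcases hab with hab | hab
  · rw [hab] at this; exact this.1 hd
  · rw [hab] at this; exact this.2 hd

open Classical in
theorem count_good (p : ℕ) [hp : Fact p.Prime] (D : Finset ℕ) (hlt : ∀ d ∈ D, d < p)
    (hD : ∀ d ∈ D, ∀ a < p, ∀ b < p, ((a + b) % p = d ∨ (a + b + 1) % p = d) →
      (R a b : ZMod p) ≠ 0) (k : ℕ) :
    D.card ^ k ≤ ((Finset.range (p ^ k)).filter (fun n => Good p n)).card := by
  induction k with
  | zero =>
    rw [pow_zero, pow_zero]
    apply Finset.card_pos.mpr
    exact ⟨0, by simp [good_zero p]⟩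
  | succ k ih =>
    set T := (Finset.range (p ^ k)).filter (fun n => Good p n)
    have h1 : D.card ^ (k + 1) ≤ (D ×ˢ T).card := by
      rw [Finset.card_product, pow_succ, mul_comm]
      exact Nat.mul_le_mul_left _ ih
    refine h1.trans ?_
    apply Finset.card_le_card_of_injOn (fun x : ℕ × ℕ => x.1 + p * x.2)
    · rintro ⟨d, n⟩ hx
      rw [Finset.mem_coe, Finset.mem_product, Finset.mem_filter, Finset.mem_range] at hx
      obtain ⟨hd, hn, hg⟩ := hx
      simp only [Finset.coe_filter, Finset.mem_range, Set.mem_setOf_eq] at *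
      refine ⟨?_, good_step p d n (hlt d hd) (hD d hd) hg⟩
      have := hlt d hd
      have h2 : p * (n + 1) ≤ p * p ^ k := Nat.mul_le_mul_left p hn
      have e : p * (n + 1) = p * n + p := by ring
      rw [pow_succ']
      omega
    · rintro ⟨d, n⟩ hx ⟨d', n'⟩ hx' he
      rw [Finset.mem_coe, Finset.mem_product] at hx hx'
      have h2 := hlt d hx.1
      have h3 := hlt d' hx'.1
      simp only at he
      have hd : d = d' := by
        have := congrArg (fun z => z % p) he
        simp only [Nat.add_mul_mod_self_left] at this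
        rw [Nat.mod_eq_of_lt h2, Nat.mod_eq_of_lt h3] at this
        exact this
      subst hd
      have : p * n = p * n' := by omega
      have := Nat.eq_of_mul_eq_mul_left hp.out.pos this
      rw [this]

theorem good_row (p n : ℕ) (h : Good p n) (x : ℤ) (h1 : -((n + 2 : ℕ) : ℤ) + 2 < x)
    (h2 : x < (n + 2 : ℕ)) (h3 : Even (x + ((n + 2 : ℕ) : ℤ))) : (amp x (n + 2)).re ≠ 0 := by
  obtain ⟨A, B, hA, hx, ht⟩ := coords (n + 2) x h1 h2 h3
  have hn : A + B = n := by omega
  subst hn
  rw [hx]
  apply re_ne
  intro h0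
  have := h A B (Or.inl rfl)
  rw [h0] at this
  simp at this

end Pool.Agent.K7.H29.FC
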