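import Pool.Agent.K7.H29.FC7

namespace Pool.Agent.K7.H29.FC

/-- the thirty digits -/
def D167 : List ℕ :=
  [5, 9, 13, 17, 21, 25, 29, 33, 41, 45, 49, 61, 65, 77, 81, 85, 89, 101, 105, 117, 121, 125, 133, 137, 141, 145, 149, 153, 157, 161]

theorem chk167 : chk 167 D167 167 0 (List.replicate 167 1) = true := by
  decide +kernel

theorem complete_rows (k : ℕ) :
    30 ^ k ≤ {t : ℕ | 2 ≤ t ∧ t < 167 ^ k + 2 ∧ ∀ x : ℤ, -(t : ℤ) + 2 < x → x < t →
      Even (x + t) → (amp x t).re ≠ 0}.ncard := by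
  classical
  have : Fact (Nat.Prime 167) := ⟨by norm_num⟩
  have hD : ∀ d ∈ D167.toFinset, ∀ a < 167, ∀ b < 167,
      ((a + b) % 167 = d ∨ (a + b + 1) % 167 = d) → (R a b : ZMod 167) ≠ 0 := fun d hd =>
    digits_ok 167 D167 chk167 d (List.mem_toFinset.mp hd)
  have hlt : ∀ d ∈ D167.toFinset, d < 167 := by decide +kernel
  have hcard : D167.toFinset.card = 30 := by decide +kernel
  have h1 := count_good 167 D167.toFinset hlt hD k
  rw [hcard] at h1
  refine h1.trans ?_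
  set U := {t : ℕ | 2 ≤ t ∧ t < 167 ^ k + 2 ∧ ∀ x : ℤ, -(t : ℤ) + 2 < x → x < t →
      Even (x + t) → (amp x t).re ≠ 0} with hU
  have hfin : U.Finite := (Set.finite_Iio (167 ^ k + 2)).subset (fun t ht => ht.2.1)
  rw [Set.ncard_eq_toFinset_card U hfin]
  apply Finset.card_le_card_of_injOn (fun n => n + 2)
  · intro n hn
    rw [Finset.mem_coe, Finset.mem_filter, Finset.mem_range] at hn
    rw [Finset.mem_coe, Set.Finite.mem_toFinset, hU]
    have h3 := hn.1
    exact ⟨Nat.le_add_left 2 n, Nat.add_lt_add_right h3 2, fun x h1 h2 h3 => good_row 167 n hn.2 x h1 h2 h3⟩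
  · intro a _ b _ hab
    simp only at hab
    omega

end Pool.Agent.K7.H29.FC
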