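import Pool.Agent.K7.H29.FC5

namespace Pool.Agent.K7.H29.FC

theorem diagR (A B : ℕ) : ((A : ℤ) + 1) * R (A + 1) (B + 1)
    = ((A : ℤ) - B) * R A B + ((A : ℤ) + B + 2) * S A B := by
  have h1 := R_succ_A A (B + 1)
  have h2 := R_succ_B A B
  have h3 := S_succ_B A B
  push_cast at h1
  rw [h1]
  linear_combination (2 * (A : ℤ) - B) * h2 + h3

theorem diagS (A B : ℕ) : ((B : ℤ) + 2) * S (A + 1) (B + 1)
    = -(((A : ℤ) + B + 2) * R A B + ((A : ℤ) - B) * S A B) := by
  have h1 := S_succ_A A (B + 1)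
  have h2 := R_succ_B A B
  have h3 := S_succ_B A B
  rw [h1]
  linear_combination h3 - ((B : ℤ) + 2) * h2

/-- check of the first `f` points of the column `x` from `k` on, modulo `P` -/
def colChk (P x : ℕ) : ℕ → ℕ → ℕ → ℕ → Bool
  | 0, _, _, _ => true
  | f + 1, k, r, s => (r != 0) && (s != 0 || x == 2 || (x == 5 && k == 2)) &&
      colChk P x f (k + 1) (((k + 2) * (x * r + (x + 2 * k + 2) * s)) % P)
        ((P - ((x + k + 1) * ((x + 2 * k + 2) * r + x * s)) % P) % P)

theorem colChk_spec (P x : ℕ) (hP : 0 < P) (f : ℕ) : ∀ (k r s : ℕ) (c : ZMod P), r < P → s < P →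
    (r : ZMod P) = c * (R (x + k) k : ZMod P) → (s : ZMod P) = c * (S (x + k) k : ZMod P) →
    colChk P x f k r s = true → ∀ j < f, R (x + (k + j)) (k + j) ≠ 0 ∧
      (x ≠ 2 → ¬ (x = 5 ∧ k + j = 2) → S (x + (k + j)) (k + j) ≠ 0) := by
  induction f with
  | zero => intro k r s c _ _ _ _ _ j hj; omega
  | succ f ih =>
    intro k r s c hr hs h1 h2 hc j hj
    simp only [colChk, Bool.and_eq_true, Bool.or_eq_true, bne_iff_ne, ne_eq, beq_iff_eq] at hc
    obtain ⟨⟨c1, c2⟩, c3⟩ := hc
    have nz : ∀ y : ℕ, y < P → (y : ZMod P) = 0 → y = 0 := by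
      intro y hy h0
      rw [ZMod.natCast_eq_zero_iff] at h0
      exact Nat.eq_zero_of_dvd_of_lt h0 hy
    rcases j with _ | j
    · rw [Nat.add_zero]
      constructor
      · intro h0
        rw [h0, Int.cast_zero, mul_zero] at h1
        exact c1 (nz r hr h1)
      · intro hx hk h0
        rw [h0, Int.cast_zero, mul_zero] at h2
        have := nz s hs h2
        rcases c2 with (c2 | c2) | c2
        · exact c2 this
        · exact hx c2
        · exact hk c2
    · have e : k + (j + 1) = (k + 1) + j := by ring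
      rw [e]
      have dR := congrArg (fun z : ℤ => (z : ZMod P)) (diagR (x + k) k)
      have dS := congrArg (fun z : ℤ => (z : ZMod P)) (diagS (x + k) k)
      push_cast at dR dS
      have e1 : x + (k + 1) = x + k + 1 := by ring
      refine ih (k + 1) _ _ (c * ((k : ZMod P) + 2) * ((x : ZMod P) + k + 1))
        (Nat.mod_lt _ hP) (Nat.mod_lt _ hP) ?_ ?_ c3 j (by omega)
      · rw [ZMod.natCast_mod, e1]
        push_cast
        rw [h1, h2]
        linear_combination (-(c * ((k : ZMod P) + 2))) * dR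
      · rw [ZMod.natCast_mod, Nat.cast_sub (Nat.mod_lt _ hP).le, ZMod.natCast_mod, e1,
          ZMod.natCast_self]
        push_cast
        rw [h1, h2]
        linear_combination (-(c * ((x : ZMod P) + k + 1))) * dS

/-- all columns `1 ≤ x ≤ n` as far as the central theorem does not reach -/
def allChk (P : ℕ) : ℕ → Bool
  | 0 => true
  | n + 1 => colChk P (n + 1) (((n + 2) * (n + 3) - (n + 1)) / 2) 0 1 (P - (n + 1)) && allChk P n

theorem S_zero_right' (A : ℕ) : S A 0 = -(A : ℤ) := by
  have h := R_succ_A A 0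
  rw [R_zero_right, R_zero_right] at h
  push_cast at h
  linarith

theorem allChk_spec (P : ℕ) (n : ℕ) (hP : n + 1 < P) (h : allChk P n = true) (x : ℕ) (h1 : 1 ≤ x)
    (hx : x ≤ n) (B : ℕ) : R (B + x) B ≠ 0 ∧ (x ≠ 2 → ¬ (x = 5 ∧ B = 2) → S (B + x) B ≠ 0) := by
  induction n with
  | zero => omega
  | succ n ih =>
    simp only [allChk, Bool.and_eq_true] at h
    rcases Nat.eq_or_lt_of_le hx with hx' | hx'
    · subst hx'
      by_cases hB : (n + 1 + 1) * (n + 1 + 2) < B + (n + 1) + B + 2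
      · have := right (B + (n + 1)) B (n + 1) rfl h1 hB
        exact ⟨this.1, fun h2 _ => this.2 h2⟩
      · have hlt : B < ((n + 2) * (n + 3) - (n + 1)) / 2 := by
          have e : (n + 1 + 1) * (n + 1 + 2) = (n + 2) * (n + 3) := by ring
          rw [e] at hB
          rw [Nat.lt_div_iff_mul_lt (by norm_num)]
          omega
        have hc : ((1 : ℕ) : ZMod P) = 1 * (R (n + 1 + 0) 0 : ZMod P) := by
          rw [R_zero_right]; simp
        have hs : ((P - (n + 1) : ℕ) : ZMod P) = 1 * (S (n + 1 + 0) 0 : ZMod P) := by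
          rw [S_zero_right', Nat.cast_sub (by omega)]
          simp
        have := colChk_spec P (n + 1) (by omega) _ 0 1 (P - (n + 1)) 1 (by omega) (by omega) hc hs
          h.1 B hlt
        rw [Nat.zero_add] at this
        have e : n + 1 + B = B + (n + 1) := by ring
        rw [e] at this
        exact this
    · exact ih (by omega) h.2 (by omega)

theorem columns (P n : ℕ) (hP : n + 1 < P) (hchk : allChk P n = true) (x : ℤ) (t : ℕ)
    (hp : Even (x + t)) (h1 : -(t : ℤ) + 2 < x) (h2 : x < t) (hx : |x| + 2 ≤ n) (h0 : x ≠ 0) :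
    (amp x t).re ≠ 0 ∧ (x ≠ 2 → ¬ (x = 5 ∧ t = 11) → ¬ (x = -3 ∧ t = 11) →
      (amp x t).im ≠ 0) := by
  obtain ⟨A, B, hA, hxA, ht⟩ := coords t x h1 h2 hp
  subst hxA ht
  rcases lt_or_gt_of_ne h0 with hneg | hpos
  · obtain ⟨y, hy⟩ : ∃ y : ℕ, B = A + y := ⟨B - A, by omega⟩
    have hyx : |(A : ℤ) - B| = y := by rw [hy]; push_cast; rw [abs_of_nonpos] <;> linarith
    rw [hyx] at hx
    have hy1 : 1 ≤ y := by omega
    obtain ⟨a, ha⟩ : ∃ a, A = a + 1 := ⟨A - 1, by omega⟩
    constructor
    · apply re_ne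
      rw [R_symm, hy]
      exact (allChk_spec P n hP hchk y hy1 (by omega) A).1
    · intro _ _ hex
      apply im_ne
      intro h3
      have hs := S_symm a B
      rw [← ha, h3, mul_zero] at hs
      rcases mul_eq_zero.mp hs.symm with h4 | h4
      · have : (0 : ℤ) < (a : ℤ) + 1 := by positivity
        linarith
      · have e : B + 1 = a + (y + 2) := by omega
        rw [e] at h4
        exact (allChk_spec P n hP hchk (y + 2) (by omega) (by omega) a).2 (by omega)
          (fun hh => hex ⟨by omega, by omega⟩) h4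
  · obtain ⟨y, hy⟩ : ∃ y : ℕ, A = B + y := ⟨A - B, by omega⟩
    have hyx : |(A : ℤ) - B| = y := by rw [hy]; push_cast; rw [abs_of_nonneg] <;> linarith
    rw [hyx] at hx
    subst hy
    obtain ⟨r1, s1⟩ := allChk_spec P n hP hchk y (by omega) (by omega) B
    exact ⟨re_ne _ B r1, fun h3 h4 _ => im_ne _ B (s1 (by omega) (fun hh => h4 ⟨by omega, by omega⟩))⟩

end Pool.Agent.K7.H29.FC
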