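import Pool.Agent.K7.H32.LV.Stm

/-!
# Project LV, job CYC: zeros at a primitive root of order `n p^a` give divisibility by `p` at order `n`
-/

set_option autoImplicit false

namespace Pool.Agent.K7.H29.LVCYC

open Polynomial

theorem cyc (n p a : ℕ) (P : Polynomial ℤ) (z y : ℂ) (hn : 1 ≤ n) (hp : p.Prime) (hpn : ¬ p ∣ n)
    (ha : 1 ≤ a) (hz : IsPrimitiveRoot z (n * p ^ a)) (hy : IsPrimitiveRoot y n)
    (hP : Polynomial.aeval z P = 0) : IsIntegral ℤ (Polynomial.aeval y P / (p : ℂ)) := by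
  have : Fact p.Prime := ⟨hp⟩
  have hpos : 0 < n * p ^ a := Nat.mul_pos hn (pow_pos hp.pos a)
  -- the cyclotomic polynomial divides `P`
  have hmin : cyclotomic (n * p ^ a) ℤ = minpoly ℤ z := cyclotomic_eq_minpoly hz hpos
  have hzint : IsIntegral ℤ z := hz.isIntegral hpos
  have hdvd : cyclotomic (n * p ^ a) ℤ ∣ P := by
    rw [hmin]
    exact minpoly.isIntegrallyClosed_dvd hzint hP
  obtain ⟨Q, hQ⟩ := hdvd
  -- reduction modulo `p`
  have hmod : cyclotomic (n * p ^ a) (ZMod p) = cyclotomic n (ZMod p) ^ (p ^ a - p ^ (a - 1)) := by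
    rw [mul_comm]
    exact cyclotomic_mul_prime_pow_eq (ZMod p) hpn ha
  have hC : (C (p : ℤ) : Polynomial ℤ) ∣
      cyclotomic (n * p ^ a) ℤ - cyclotomic n ℤ ^ (p ^ a - p ^ (a - 1)) := by
    rw [C_dvd_iff_dvd_coeff]
    intro i
    have h0 : Polynomial.map (Int.castRingHom (ZMod p))
        (cyclotomic (n * p ^ a) ℤ - cyclotomic n ℤ ^ (p ^ a - p ^ (a - 1))) = 0 := by
      rw [Polynomial.map_sub, Polynomial.map_pow, map_cyclotomic, map_cyclotomic, hmod, sub_self]
    have h1 := congrArg (fun f => Polynomial.coeff f i) h0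
    simp only [coeff_map, coeff_zero] at h1
    exact (ZMod.intCast_zmod_eq_zero_iff_dvd _ p).mp (by simpa using h1)
  obtain ⟨G, hG⟩ := hC
  have he : p ^ a - p ^ (a - 1) ≠ 0 := by
    have : p ^ (a - 1) < p ^ a := Nat.pow_lt_pow_right hp.one_lt (by omega)
    omega
  have hy0 : aeval y (cyclotomic n ℤ) = 0 := by
    have := hy.isRoot_cyclotomic hn
    rw [IsRoot.def] at this
    rw [aeval_def, ← eval_map, algebraMap_int_eq, map_cyclotomic]
    exact this
  have h2 : aeval y (cyclotomic (n * p ^ a) ℤ) = (p : ℂ) * aeval y G := by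
    have h3 : cyclotomic (n * p ^ a) ℤ = cyclotomic n ℤ ^ (p ^ a - p ^ (a - 1)) + C (p : ℤ) * G := by
      rw [← hG]; ring
    rw [h3, map_add, map_pow, hy0, zero_pow he, zero_add, map_mul, aeval_C]
    simp
  have hp0 : (p : ℂ) ≠ 0 := by exact_mod_cast hp.ne_zero
  have h4 : aeval y P / (p : ℂ) = aeval y (G * Q) := by
    rw [hQ, map_mul, h2, map_mul]
    field_simp
  rw [h4]
  have hyint : IsIntegral ℤ y := hy.isIntegral hn
  rw [aeval_eq_sum_range]
  refine IsIntegral.sum _ fun i _ => ?_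
  rw [zsmul_eq_mul]
  exact (isIntegral_algebraMap (R := ℤ) (x := (G * Q).coeff i)).mul (hyint.pow i)

theorem t : Pool.Agent.K7.H32.LV.S_CYC := cyc

end Pool.Agent.K7.H29.LVCYC
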