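import Pool.Agent.K7.H32.LV.Stm

/-!
# Project LV, job NRM: the norm of a nonzero algebraic integer
-/

set_option autoImplicit false

namespace Pool.Agent.K7.H29.LVNRM

open Polynomial

theorem nrmK (n : ℕ) [NeZero n] (K : Type) [Field K] [NumberField K] [IsCyclotomicExtension {n} ℚ K]
    (P : Polynomial ℤ) (hn : 1 ≤ n)
    (hP : ∃ z ∈ primitiveRoots n ℂ, Polynomial.aeval z P ≠ 0) :
    1 ≤ ∏ z ∈ primitiveRoots n ℂ, ‖Polynomial.aeval z P‖ := by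
  let ζ : K := IsCyclotomicExtension.zeta n ℚ K
  have hζ : IsPrimitiveRoot ζ n := IsCyclotomicExtension.zeta_spec n ℚ K
  have hirr : Irreducible (cyclotomic n ℚ) := cyclotomic.irreducible_rat (by omega)
  let e := hζ.embeddingsEquivPrimitiveRoots ℂ hirr
  have he : ∀ φ : K →ₐ[ℚ] ℂ, ((e φ : primitiveRoots n ℂ) : ℂ) = φ ζ := fun φ =>
    hζ.embeddingsEquivPrimitiveRoots_apply_coe ℂ hirr φ
  let x : K := aeval ζ P
  have hφ : ∀ φ : K →ₐ[ℚ] ℂ, φ x = aeval (φ ζ) P := by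
    intro φ
    have := Polynomial.map_aeval_eq_aeval_map (φ := RingHom.id ℤ) (ψ := (φ : K →+* ℂ)) (by ext; simp) P ζ
    simpa [x] using this
  have hx : IsIntegral ℤ x := by
    have hz : IsIntegral ℤ ζ := hζ.isIntegral hn
    change IsIntegral ℤ (aeval ζ P)
    rw [aeval_eq_sum_range]
    refine IsIntegral.sum _ fun i _ => ?_
    rw [zsmul_eq_mul]
    exact (isIntegral_algebraMap (R := ℤ) (x := P.coeff i)).mul (hz.pow i)
  have hN : IsIntegral ℤ (Algebra.norm ℚ x) := Algebra.isIntegral_norm ℚ hx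
  obtain ⟨m, hm⟩ := IsIntegrallyClosed.isIntegral_iff.mp hN
  have hprod : (algebraMap ℚ ℂ) (Algebra.norm ℚ x) = ∏ φ : K →ₐ[ℚ] ℂ, φ x :=
    Algebra.norm_eq_prod_embeddings ℚ ℂ x
  have h1 : ∏ z ∈ primitiveRoots n ℂ, ‖aeval z P‖ = ∏ φ : K →ₐ[ℚ] ℂ, ‖φ x‖ := by
    rw [← Finset.prod_coe_sort (primitiveRoots n ℂ) (fun z => ‖aeval z P‖)]
    refine (Fintype.prod_equiv e _ _ fun φ => ?_).symm
    rw [hφ, he]
  rw [h1]
  have h2 : ∏ φ : K →ₐ[ℚ] ℂ, ‖φ x‖ = ‖(m : ℂ)‖ := by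
    rw [← norm_prod, ← hprod, ← hm]
    simp
  rw [h2]
  have hx0 : x ≠ 0 := by
    obtain ⟨z, hz, hz0⟩ := hP
    intro h0
    apply hz0
    have h3 := he (e.symm ⟨z, hz⟩)
    rw [Equiv.apply_symm_apply] at h3
    have h4 := hφ (e.symm ⟨z, hz⟩)
    rw [← h3, h0, map_zero] at h4
    exact h4.symm
  have hN0 : Algebra.norm ℚ x ≠ 0 := by
    rw [Ne, Algebra.norm_eq_zero_iff]
    exact hx0
  have hm0 : m ≠ 0 := by
    rintro rfl
    apply hN0
    rw [← hm]; simp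
  rw [Complex.norm_intCast]
  exact_mod_cast Int.one_le_abs hm0

theorem nrm (n : ℕ) (P : Polynomial ℤ) (hn : 1 ≤ n)
    (hP : ∃ z ∈ primitiveRoots n ℂ, Polynomial.aeval z P ≠ 0) :
    1 ≤ ∏ z ∈ primitiveRoots n ℂ, ‖Polynomial.aeval z P‖ := by
  have hn0 : NeZero n := ⟨by omega⟩
  have : NeZero ((n : ℕ) : ℚ) := ⟨by exact_mod_cast hn0.out⟩
  have : IsCyclotomicExtension {n} ℚ (CyclotomicField n ℚ) :=
    CyclotomicField.isCyclotomicExtension n ℚ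
  have : NumberField (CyclotomicField n ℚ) := IsCyclotomicExtension.numberField {n} ℚ _
  exact nrmK n (CyclotomicField n ℚ) P hn hP

theorem t : Pool.Agent.K7.H32.LV.S_NRM := nrm

end Pool.Agent.K7.H29.LVNRM
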