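import Mathlib
import Pool.Agent.K7.H97.MI.Defs

/-!
Project MI, job BUMP: the bump functions `N / (1 + r ^ 2) ^ k`.
-/

set_option autoImplicit false

open Polynomial

namespace Pool.Agent.K7.H29.MIBump

open Pool.Agent.K7.H97.MI

/-- the square of the product of the linear factors -/
noncomputable def W (Z : Finset ℝ) : ℝ[X] := ∏ c ∈ Z, (X - Polynomial.C c) ^ 2

lemma W_eval (Z : Finset ℝ) (r : ℝ) : (W Z).eval r = ∏ c ∈ Z, (r - c) ^ 2 := by
  simp [W, Polynomial.eval_prod]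

lemma W_deg (Z : Finset ℝ) : (W Z).natDegree ≤ 2 * Z.card := by
  unfold W
  refine (Polynomial.natDegree_prod_le _ _).trans ?_
  have : ∀ c ∈ Z, ((X - Polynomial.C c : ℝ[X]) ^ 2).natDegree ≤ 2 := by
    intro c _
    rw [Polynomial.natDegree_pow, Polynomial.natDegree_X_sub_C]
  refine (Finset.sum_le_sum this).trans ?_
  simp [mul_comm]

lemma W_nonneg (Z : Finset ℝ) (r : ℝ) : 0 ≤ (W Z).eval r := by
  rw [W_eval]
  exact Finset.prod_nonneg fun c _ => sq_nonneg _

lemma W_pos (Z : Finset ℝ) (r : ℝ) (hr : r ∉ Z) : 0 < (W Z).eval r := by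
  rw [W_eval]
  refine Finset.prod_pos fun c hc => ?_
  have : r - c ≠ 0 := fun h => hr (by rw [sub_eq_zero] at h; rwa [h])
  positivity

lemma W_zero (Z : Finset ℝ) (c : ℝ) (hc : c ∈ Z) : (W Z).eval c = 0 := by
  rw [W_eval]
  exact Finset.prod_eq_zero hc (by simp)

lemma sq_sub_le (r c : ℝ) : (r - c) ^ 2 ≤ (1 + c ^ 2) * (1 + r ^ 2) := by
  nlinarith [sq_nonneg (1 + r * c)]

lemma abs_sub_le' (r c : ℝ) : |r - c| ≤ (1 + c ^ 2) * (1 + r ^ 2) := by
  have h := sq_sub_le r c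
  have h1 : 1 ≤ (1 + c ^ 2) * (1 + r ^ 2) := by
    have : 0 ≤ c ^ 2 * r ^ 2 := by positivity
    nlinarith [sq_nonneg c, sq_nonneg r]
  refine abs_le_of_sq_le_sq ?_ (by linarith)
  nlinarith

/-- the bound for `W` -/
lemma W_le (Z : Finset ℝ) : ∃ B : ℝ, 0 < B ∧ (∀ r, (W Z).eval r ≤ B * (1 + r ^ 2) ^ Z.card) ∧
    ∀ c ∈ Z, ∀ r, (W Z).eval r ≤ B * |r - c| * (1 + r ^ 2) ^ Z.card := by
  refine ⟨∏ c ∈ Z, (1 + c ^ 2), Finset.prod_pos fun c _ => by positivity, ?_, ?_⟩
  · intro r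
    rw [W_eval]
    calc ∏ c ∈ Z, (r - c) ^ 2 ≤ ∏ c ∈ Z, ((1 + c ^ 2) * (1 + r ^ 2)) :=
          Finset.prod_le_prod (fun c _ => sq_nonneg _) fun c _ => sq_sub_le r c
      _ = _ := by rw [Finset.prod_mul_distrib, Finset.prod_const]
  · intro c hc r
    rw [W_eval, ← Finset.mul_prod_erase Z _ hc]
    have h1 : ∏ x ∈ Z.erase c, (r - x) ^ 2 ≤ ∏ x ∈ Z.erase c, ((1 + x ^ 2) * (1 + r ^ 2)) :=
      Finset.prod_le_prod (fun c _ => sq_nonneg _) fun c _ => sq_sub_le r c
    have h2 : (∏ x ∈ Z, (1 + x ^ 2)) * (1 + r ^ 2) ^ Z.card =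
        ((1 + c ^ 2) * (1 + r ^ 2)) * ∏ x ∈ Z.erase c, ((1 + x ^ 2) * (1 + r ^ 2)) := by
      rw [Finset.mul_prod_erase Z (fun x => (1 + x ^ 2) * (1 + r ^ 2)) hc,
        Finset.prod_mul_distrib, Finset.prod_const]
    have h3 : (r - c) ^ 2 ≤ |r - c| * ((1 + c ^ 2) * (1 + r ^ 2)) := by
      rw [← sq_abs, sq]
      exact mul_le_mul_of_nonneg_left (abs_sub_le' r c) (abs_nonneg _)
    have h4 : 0 ≤ ∏ x ∈ Z.erase c, (r - x) ^ 2 := Finset.prod_nonneg fun c _ => sq_nonneg _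
    calc (r - c) ^ 2 * ∏ x ∈ Z.erase c, (r - x) ^ 2
        ≤ (|r - c| * ((1 + c ^ 2) * (1 + r ^ 2))) *
          ∏ x ∈ Z.erase c, ((1 + x ^ 2) * (1 + r ^ 2)) :=
          mul_le_mul h3 h1 h4 (by positivity)
      _ = _ := by rw [mul_assoc, ← h2]; ring

/-- the peak factor -/
noncomputable def pk (x r : ℝ) : ℝ := (1 + x * r) ^ 2 / ((1 + x ^ 2) * (1 + r ^ 2))

lemma pk_nonneg (x r : ℝ) : 0 ≤ pk x r := by unfold pk; positivity

lemma pk_self (x : ℝ) : pk x x = 1 := by
  unfold pk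
  rw [div_eq_one_iff_eq (by positivity)]
  ring

lemma pk_le (x p q : ℝ) (hp : p < x) (hq : x < q) : ∃ β : ℝ, 0 ≤ β ∧ β < 1 ∧
    ∀ r, r ∉ Set.Ioo p q → pk x r ≤ β := by
  obtain ⟨δ, hδ, h1, h2⟩ : ∃ δ : ℝ, 0 < δ ∧ δ ≤ x - p ∧ δ ≤ q - x :=
    ⟨min (x - p) (q - x), lt_min (by linarith) (by linarith), min_le_left _ _, min_le_right _ _⟩
  set A : ℝ := (1 + 2 * x ^ 2) / δ ^ 2 + 2 with hA
  have hA2 : 2 ≤ A := by have : 0 ≤ (1 + 2 * x ^ 2) / δ ^ 2 := by positivity
                         linarith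
  have hAx : 2 ≤ A * (1 + x ^ 2) := by nlinarith [sq_nonneg x]
  have hApos : 0 < A * (1 + x ^ 2) := by linarith
  refine ⟨1 - 1 / (A * (1 + x ^ 2)), ?_, ?_, ?_⟩
  · rw [sub_nonneg, div_le_one hApos]; linarith
  · have : 0 < 1 / (A * (1 + x ^ 2)) := by positivity
    linarith
  · intro r hr
    have hd : δ ≤ |r - x| := by
      rw [Set.mem_Ioo, not_and_or, not_lt, not_lt] at hr
      rcases hr with h | h
      · rw [abs_sub_comm]; exact le_trans (by linarith) (le_abs_self _)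
      · exact le_trans (by linarith) (le_abs_self _)
    have hd2 : δ ^ 2 ≤ (r - x) ^ 2 := by
      rw [← sq_abs (r - x)]; exact pow_le_pow_left₀ hδ.le hd 2
    have h3 : 1 + r ^ 2 ≤ A * (r - x) ^ 2 := by
      have e1 : 1 + 2 * x ^ 2 ≤ (1 + 2 * x ^ 2) / δ ^ 2 * (r - x) ^ 2 := by
        rw [div_mul_eq_mul_div, le_div_iff₀ (by positivity)]
        exact mul_le_mul_of_nonneg_left hd2 (by positivity)
      rw [hA]
      nlinarith [sq_nonneg (r - 2 * x)]
    unfold pk
    rw [div_le_iff₀ (by positivity)]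
    have h4 : (1 - 1 / (A * (1 + x ^ 2))) * ((1 + x ^ 2) * (1 + r ^ 2)) =
        (1 + x ^ 2) * (1 + r ^ 2) - (1 + r ^ 2) / A := by
      field_simp
    rw [h4]
    have h5 : (1 + r ^ 2) / A ≤ (r - x) ^ 2 := by
      rw [div_le_iff₀ (by linarith)]
      linarith
    nlinarith

/-- the core function -/
noncomputable def g (Z : Finset ℝ) (x : ℝ) (n : ℕ) (r : ℝ) : ℝ :=
  (W Z).eval r / (1 + r ^ 2) ^ Z.card * pk x r ^ n

lemma g_nonneg (Z : Finset ℝ) (x : ℝ) (n : ℕ) (r : ℝ) : 0 ≤ g Z x n r := by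
  unfold g
  have := W_nonneg Z r
  have := pk_nonneg x r
  positivity

lemma continuous_g (Z : Finset ℝ) (x : ℝ) (n : ℕ) : Continuous (g Z x n) := by
  unfold g pk
  refine Continuous.mul (Continuous.div (Polynomial.continuous _) (by fun_prop) ?_)
    (Continuous.pow (Continuous.div (by fun_prop) (by fun_prop) ?_) n)
  · intro r; positivity
  · intro r; positivity

lemma core (Z : Finset ℝ) (p q : ℝ) (hpq : p < q) (hZ : ∀ z ∈ Z, z ∉ Set.Ioo p q)
    (h : ℝ → ℝ) (hcont : Continuous h) (hpos : ∀ r ∈ Set.Ioo p q, 0 < h r)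
    (hnn : ∀ r, 0 ≤ h r) (η : ℝ) (hη : 0 < η) :
    ∃ (n : ℕ) (r1 : ℝ), r1 ∈ Set.Ioo p q ∧ 0 < h r1 * g Z ((p + q) / 2) n r1 ∧
      (∀ r ∈ Set.Icc p q, h r * g Z ((p + q) / 2) n r ≤ h r1 * g Z ((p + q) / 2) n r1) ∧
      (∀ r, r ∉ Set.Ioo p q → g Z ((p + q) / 2) n r ≤ η * (h r1 * g Z ((p + q) / 2) n r1)) ∧
      (∀ r, r ∉ Set.Ioo p q → ∀ c ∈ Z,
        g Z ((p + q) / 2) n r ≤ η * (h r1 * g Z ((p + q) / 2) n r1) * |r - c|) := by
  set x : ℝ := (p + q) / 2 with hx
  have hxI : x ∈ Set.Ioo p q := ⟨by rw [hx]; linarith, by rw [hx]; linarith⟩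
  obtain ⟨B, hB, hB1, hB2⟩ := W_le Z
  obtain ⟨β, hβ0, hβ1, hβ⟩ := pk_le x p q hxI.1 hxI.2
  have hxZ : x ∉ Z := fun h => hZ x h hxI
  set w : ℝ := h x * ((W Z).eval x / (1 + x ^ 2) ^ Z.card) with hw
  have hwpos : 0 < w := by
    have := W_pos Z x hxZ
    have := hpos x hxI
    positivity
  -- bound of h on the compact interval
  obtain ⟨r0, hr0, hr0m⟩ := (isCompact_Icc (a := p) (b := q)).exists_isMaxOn
    ⟨p, Set.left_mem_Icc.2 hpq.le⟩ hcont.continuousOn
  set H : ℝ := h r0 with hH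
  have hH0 : 0 ≤ H := hnn _
  obtain ⟨n, hn⟩ := exists_pow_lt_of_lt_one
    (show 0 < min η 1 * w / (B * (H + 1)) by have : 0 < min η 1 := lt_min hη one_pos
                                             positivity) hβ1
  have hn1 : B * β ^ n < η * w := by
    have e : β ^ n * (B * (H + 1)) < min η 1 * w := by rwa [lt_div_iff₀ (by positivity)] at hn
    have e1 : B * β ^ n ≤ β ^ n * (B * (H + 1)) := by
      have : 0 ≤ β ^ n * B * H := by positivity
      nlinarith
    have e2 : min η 1 * w ≤ η * w := mul_le_mul_of_nonneg_right (min_le_left _ _) hwpos.le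
    linarith
  have hn2 : H * (B * β ^ n) < w := by
    have e : β ^ n * (B * (H + 1)) < min η 1 * w := by rwa [lt_div_iff₀ (by positivity)] at hn
    have e1 : H * (B * β ^ n) ≤ β ^ n * (B * (H + 1)) := by
      have : 0 ≤ β ^ n * B := by positivity
      nlinarith
    have e2 : min η 1 * w ≤ 1 * w := mul_le_mul_of_nonneg_right (min_le_right _ _) hwpos.le
    linarith
  have hgx : h x * g Z x n x = w := by
    rw [g, pk_self, one_pow, mul_one]
  have hout : ∀ r, r ∉ Set.Ioo p q → g Z x n r ≤ B * β ^ n := by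
    intro r hr
    unfold g
    refine mul_le_mul ?_ (pow_le_pow_left₀ (pk_nonneg x r) (hβ r hr) n)
      (pow_nonneg (pk_nonneg x r) n) hB.le
    rw [div_le_iff₀ (by positivity)]
    exact hB1 r
  have hout2 : ∀ r, r ∉ Set.Ioo p q → ∀ c ∈ Z, g Z x n r ≤ B * |r - c| * β ^ n := by
    intro r hr c hc
    unfold g
    refine mul_le_mul ?_ (pow_le_pow_left₀ (pk_nonneg x r) (hβ r hr) n)
      (pow_nonneg (pk_nonneg x r) n) (by positivity)
    rw [div_le_iff₀ (by positivity)]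
    exact hB2 c hc r
  obtain ⟨r1, hr1, hr1m⟩ := (isCompact_Icc (a := p) (b := q)).exists_isMaxOn
    ⟨p, Set.left_mem_Icc.2 hpq.le⟩ (hcont.mul (continuous_g Z x n)).continuousOn
  have hm : w ≤ h r1 * g Z x n r1 := by
    rw [← hgx]
    exact hr1m (Set.Ioo_subset_Icc_self hxI)
  have hr1I : r1 ∈ Set.Ioo p q := by
    by_contra hcon
    have e1 := hout r1 hcon
    have e2 : h r1 ≤ H := hr0m hr1
    have e3 : h r1 * g Z x n r1 ≤ H * (B * β ^ n) :=
      mul_le_mul e2 e1 (g_nonneg _ _ _ _) hH0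
    linarith
  refine ⟨n, r1, hr1I, by linarith, fun r hr => hr1m hr, ?_, ?_⟩
  · intro r hr
    have e1 := hout r hr
    have e2 : η * w ≤ η * (h r1 * g Z x n r1) := mul_le_mul_of_nonneg_left hm hη.le
    linarith
  · intro r hr c hc
    have e1 := hout2 r hr c hc
    have e2 : η * w ≤ η * (h r1 * g Z x n r1) := mul_le_mul_of_nonneg_left hm hη.le
    have e3 : B * |r - c| * β ^ n = (B * β ^ n) * |r - c| := by ring
    rw [e3] at e1
    refine e1.trans (mul_le_mul_of_nonneg_right ?_ (abs_nonneg _))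
    linarith

/-- the polynomial -/
noncomputable def Np (Z : Finset ℝ) (x : ℝ) (n : ℕ) : ℝ[X] :=
  Polynomial.C (((1 + x ^ 2) ^ n)⁻¹) * (W Z * (1 + Polynomial.C x * X) ^ (2 * n))

lemma Np_eval (Z : Finset ℝ) (x : ℝ) (n : ℕ) (r : ℝ) :
    (Np Z x n).eval r = g Z x n r * (1 + r ^ 2) ^ (Z.card + n) := by
  simp only [Np, g, pk, Polynomial.eval_mul, Polynomial.eval_C, Polynomial.eval_pow,
    Polynomial.eval_add, Polynomial.eval_one, Polynomial.eval_X]
  rw [div_pow, mul_pow, pow_add, pow_mul]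
  have h1 : (1 + x ^ 2) ^ n ≠ 0 := by positivity
  have h2 : (1 + r ^ 2) ^ n ≠ 0 := by positivity
  have h3 : (1 + r ^ 2) ^ Z.card ≠ 0 := by positivity
  field_simp

lemma Np_deg (Z : Finset ℝ) (x : ℝ) (n : ℕ) : (Np Z x n).natDegree ≤ 2 * (Z.card + n) := by
  unfold Np
  refine (Polynomial.natDegree_C_mul_le _ _).trans ?_
  refine (Polynomial.natDegree_mul_le).trans ?_
  have h1 := W_deg Z
  have h2 : ((1 + Polynomial.C x * X : ℝ[X]) ^ (2 * n)).natDegree ≤ 2 * n := by
    refine (Polynomial.natDegree_pow_le).trans ?_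
    have : (1 + Polynomial.C x * X : ℝ[X]).natDegree ≤ 1 := by
      refine (Polynomial.natDegree_add_le _ _).trans ?_
      rw [Polynomial.natDegree_one]
      simpa using Polynomial.natDegree_C_mul_le x X
    nlinarith
  omega

lemma g_zero (Z : Finset ℝ) (x : ℝ) (n : ℕ) (c : ℝ) (hc : c ∈ Z) : g Z x n c = 0 := by
  rw [g, W_zero Z c hc]; simp

/-- JOB BUMP (first half) -/
theorem bump : StBump := by
  intro Z p q hpq hZ C hC
  set x : ℝ := (p + q) / 2 with hx
  have hcont : Continuous fun r : ℝ => 1 / (1 + r ^ 2) :=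
    Continuous.div continuous_const (by fun_prop) fun r => by positivity
  obtain ⟨n, r1, hr1, hm, hin, hout, hout2⟩ := core Z p q hpq hZ (fun r => 1 / (1 + r ^ 2)) hcont
    (fun r _ => by positivity) (fun r => by positivity) (min 1 (1 / (2 * C)))
    (lt_min one_pos (by positivity))
  rw [← hx] at hm hin hout hout2
  set m : ℝ := 1 / (1 + r1 ^ 2) * g Z x n r1 with hmdef
  have hev : ∀ r, (Polynomial.C m⁻¹ * Np Z x n).eval r =
      (1 / (1 + r ^ 2) * g Z x n r / m) * (1 + r ^ 2) ^ (Z.card + n + 1) := by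
    intro r
    rw [Polynomial.eval_mul, Polynomial.eval_C, Np_eval, pow_succ (1 + r ^ 2) (Z.card + n)]
    have : (1 + r ^ 2) ≠ 0 := by positivity
    field_simp
  refine ⟨Polynomial.C m⁻¹ * Np Z x n, Z.card + n + 1, ?_, ?_, ?_, ?_, ?_⟩
  · have h1 := Np_deg Z x n
    have h2 := Polynomial.natDegree_C_mul_le (m⁻¹) (Np Z x n)
    omega
  · intro r
    rw [hev]
    have hg := g_nonneg Z x n r
    have hD : 0 < (1 + r ^ 2) ^ (Z.card + n + 1) := by positivity
    constructor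
    · positivity
    · have h1 : 1 / (1 + r ^ 2) * g Z x n r / m ≤ 1 := by
        rw [div_le_one hm]
        by_cases hr : r ∈ Set.Ioo p q
        · exact hin r (Set.Ioo_subset_Icc_self hr)
        · have e1 := hout r hr
          have e2 : min 1 (1 / (2 * C)) * m ≤ 1 * m :=
            mul_le_mul_of_nonneg_right (min_le_left _ _) hm.le
          have e3 : 1 / (1 + r ^ 2) * g Z x n r ≤ 1 * g Z x n r := by
            refine mul_le_mul_of_nonneg_right ?_ hg
            rw [div_le_one (by positivity)]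
            nlinarith [sq_nonneg r]
          linarith
      nlinarith
  · intro z hz
    rw [hev, g_zero Z x n z hz]
    simp
  · refine ⟨r1, hr1, ?_⟩
    rw [hev, ← hmdef, div_self hm.ne', one_mul]
  · intro r hr hrZ c hc
    rw [hev]
    have e1 := hout2 r hr c hc
    have hD : 0 < (1 + r ^ 2) ^ (Z.card + n + 1) := by positivity
    have hrc : 0 < |r - c| := by
      rw [abs_pos]
      intro h0
      rw [sub_eq_zero] at h0
      exact hrZ (by rwa [h0])
    have e2 : min 1 (1 / (2 * C)) * m * |r - c| ≤ 1 / (2 * C) * m * |r - c| :=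
      mul_le_mul_of_nonneg_right (mul_le_mul_of_nonneg_right (min_le_right _ _) hm.le) hrc.le
    have e3 : C * (1 + r ^ 2) * (1 / (1 + r ^ 2) * g Z x n r / m * (1 + r ^ 2) ^ (Z.card + n + 1)) =
        (C * g Z x n r / m) * (1 + r ^ 2) ^ (Z.card + n + 1) := by
      have : (1 + r ^ 2) ≠ 0 := by positivity
      field_simp
    rw [e3]
    refine mul_lt_mul_of_pos_right ?_ hD
    rw [div_lt_iff₀ hm]
    have e4 : C * g Z x n r ≤ C * (1 / (2 * C) * m * |r - c|) :=
      mul_le_mul_of_nonneg_left (e1.trans e2) hC.le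
    have e5 : C * (1 / (2 * C) * m * |r - c|) = 1 / 2 * (|r - c| * m) := by
      field_simp
    have e6 : 0 < |r - c| * m := by positivity
    linarith

/-- JOB BUMP (second half) -/
theorem bumpD : StBumpD := by
  intro Z z ξ h0 hz hz0 hξ hZ C hC
  set p : ℝ := min z ξ with hp
  set q : ℝ := max z ξ with hq
  have hpq : p < q := by
    rcases lt_or_gt_of_ne hξ with h | h
    · rw [hp, hq, min_eq_right h.le, max_eq_left h.le]; exact h
    · rw [hp, hq, min_eq_left h.le, max_eq_right h.le]; exact h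
  have hIcc : Set.uIcc z ξ = Set.Icc p q := rfl
  have hZI : ∀ c ∈ Z, c ∉ Set.Ioo p q := by
    intro c hc hcI
    by_cases hcz : c = z
    · rw [hcz] at hcI
      rcases lt_or_gt_of_ne hξ with h | h
      · rw [hq, max_eq_left h.le] at hcI; exact lt_irrefl _ hcI.2
      · rw [hp, min_eq_left h.le] at hcI; exact lt_irrefl _ hcI.1
    · exact hZ c hc hcz (by rw [hIcc]; exact Set.Ioo_subset_Icc_self hcI)
  have h0I : (0 : ℝ) ∉ Set.Icc p q := by rw [← hIcc]; exact hZ 0 h0 hz0.symm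
  have hzI : z ∈ Set.Icc p q := by rw [← hIcc]; exact Set.left_mem_uIcc
  -- the sign
  obtain ⟨σ, hσ, hσI⟩ : ∃ σ : ℝ, σ * σ = 1 ∧ ∀ r ∈ Set.Icc p q, |r| = σ * r ∧ r ≠ 0 := by
    rcases lt_or_gt_of_ne hz0 with h | h
    · refine ⟨-1, by norm_num, fun r hr => ?_⟩
      have : r < 0 := by
        by_contra hcon
        push Not at hcon
        exact h0I ⟨hzI.1.trans h.le, hcon.trans hr.2⟩
      exact ⟨by rw [abs_of_neg this]; ring, this.ne⟩
    · refine ⟨1, by norm_num, fun r hr => ?_⟩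
      have : 0 < r := by
        by_contra hcon
        push Not at hcon
        exact h0I ⟨hr.1.trans hcon, h.le.trans hzI.2⟩
      exact ⟨by rw [abs_of_pos this]; ring, this.ne'⟩
  have hσa : |σ| = 1 := by
    have : |σ| * |σ| = 1 := by rw [← abs_mul, hσ, abs_one]
    nlinarith [abs_nonneg σ]
  set x : ℝ := (p + q) / 2 with hx
  set hh : ℝ → ℝ := fun r => Real.sqrt |r| * (Real.sqrt |r| + Real.sqrt |z|) / (1 + r ^ 2) ^ 2
    with hhh
  have hcont : Continuous hh := by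
    rw [hhh]
    refine Continuous.div ?_ (by fun_prop) fun r => by positivity
    have : Continuous fun r : ℝ => Real.sqrt |r| := Real.continuous_sqrt.comp continuous_abs
    exact this.mul (this.add continuous_const)
  have hnn : ∀ r, 0 ≤ hh r := fun r => by rw [hhh]; positivity
  have hpos : ∀ r ∈ Set.Ioo p q, 0 < hh r := by
    intro r hr
    have h1 : 0 < |r| := abs_pos.2 (hσI r (Set.Ioo_subset_Icc_self hr)).2
    have h2 : 0 < Real.sqrt |r| := Real.sqrt_pos.2 h1
    rw [hhh]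
    positivity
  obtain ⟨n, r1, hr1, hm, hin, hout, hout2⟩ := core Z p q hpq hZI hh hcont hpos hnn
    (1 / (2 * C * (1 + |z|))) (by positivity)
  rw [← hx] at hm hin hout hout2
  set m : ℝ := hh r1 * g Z x n r1 with hmdef
  have hev : ∀ r, (Polynomial.C (m⁻¹ * σ) * ((X - Polynomial.C z) * Np Z x n)).eval r =
      (σ * (r - z) / (1 + r ^ 2) ^ 2 * g Z x n r / m) * (1 + r ^ 2) ^ (Z.card + n + 2) := by
    intro r
    rw [Polynomial.eval_mul, Polynomial.eval_C, Polynomial.eval_mul, Np_eval, Polynomial.eval_sub,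
      Polynomial.eval_X, Polynomial.eval_C, pow_add (1 + r ^ 2) (Z.card + n) 2]
    have : (1 + r ^ 2) ≠ 0 := by positivity
    field_simp
  -- the key identity on the interval
  have hkey : ∀ r ∈ Set.Icc p q, Real.sqrt |r| *
      (Polynomial.C (m⁻¹ * σ) * ((X - Polynomial.C z) * Np Z x n)).eval r =
      (Real.sqrt |r| - Real.sqrt |z|) * (hh r * g Z x n r / m) *
        (1 + r ^ 2) ^ (Z.card + n + 2) := by
    intro r hr
    rw [hev]
    have h1 : σ * (r - z) = (Real.sqrt |r| - Real.sqrt |z|) * (Real.sqrt |r| + Real.sqrt |z|) := by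
      have e1 : Real.sqrt |r| * Real.sqrt |r| = |r| := Real.mul_self_sqrt (abs_nonneg _)
      have e2 : Real.sqrt |z| * Real.sqrt |z| = |z| := Real.mul_self_sqrt (abs_nonneg _)
      have e3 := (hσI r hr).1
      have e4 := (hσI z hzI).1
      calc σ * (r - z) = |r| - |z| := by rw [e3, e4]; ring
        _ = Real.sqrt |r| * Real.sqrt |r| - Real.sqrt |z| * Real.sqrt |z| := by rw [e1, e2]
        _ = _ := by ring
    rw [h1, hhh]
    simp only
    have : (1 + r ^ 2) ≠ 0 := by positivity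
    field_simp
  refine ⟨Polynomial.C (m⁻¹ * σ) * ((X - Polynomial.C z) * Np Z x n), Z.card + n + 2,
    ?_, ?_, ?_, ?_, ?_⟩
  · have h1 := Np_deg Z x n
    have h2 := Polynomial.natDegree_C_mul_le (m⁻¹ * σ) ((X - Polynomial.C z) * Np Z x n)
    have h3 := Polynomial.natDegree_mul_le (p := (X - Polynomial.C z)) (q := Np Z x n)
    rw [Polynomial.natDegree_X_sub_C] at h3
    omega
  · intro c hc
    rw [hev, g_zero Z x n c hc]
    simp
  · intro r hr
    refine ⟨hh r * g Z x n r / m, ?_, ?_, hkey r (Set.Ioo_subset_Icc_self hr)⟩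
    · have := hnn r
      have := g_nonneg Z x n r
      positivity
    · rw [div_le_one hm]
      exact hin r (Set.Ioo_subset_Icc_self hr)
  · refine ⟨r1, hr1, ?_⟩
    rw [hkey r1 (Set.Ioo_subset_Icc_self hr1), ← hmdef, div_self hm.ne', mul_one]
  · intro r hr hrZ c hc
    rw [hev]
    have e1 := hout2 r hr c hc
    have hD : 0 < (1 + r ^ 2) ^ (Z.card + n + 2) := by positivity
    have hg := g_nonneg Z x n r
    have hrc : 0 < |r - c| := by
      rw [abs_pos]
      intro h0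
      rw [sub_eq_zero] at h0
      exact hrZ (by rwa [h0])
    have e2 : |σ * (r - z) / (1 + r ^ 2) ^ 2 * g Z x n r / m * (1 + r ^ 2) ^ (Z.card + n + 2)| =
        |r - z| / (1 + r ^ 2) ^ 2 * g Z x n r / m * (1 + r ^ 2) ^ (Z.card + n + 2) := by
      rw [abs_mul, abs_of_pos hD, abs_div, abs_of_pos hm, abs_mul, abs_of_nonneg hg, abs_div,
        abs_mul, hσa, one_mul, abs_of_pos (show (0 : ℝ) < (1 + r ^ 2) ^ 2 by positivity)]
    rw [e2]
    have e3 : |r - z| ≤ (1 + |z|) * (1 + r ^ 2) := by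
      have f1 : |r - z| ≤ |r| + |z| := abs_sub _ _
      have f2 : |r| ≤ 1 + r ^ 2 := by
        rw [← sq_abs r]
        nlinarith [sq_nonneg (|r| - 1), abs_nonneg r]
      have f3 : 0 ≤ |z| * r ^ 2 := by positivity
      nlinarith
    have e4 : C * (1 + r ^ 2) * (|r - z| / (1 + r ^ 2) ^ 2 * g Z x n r / m *
        (1 + r ^ 2) ^ (Z.card + n + 2)) =
        (C * (|r - z| / (1 + r ^ 2)) * g Z x n r / m) * (1 + r ^ 2) ^ (Z.card + n + 2) := by
      have : (1 + r ^ 2) ≠ 0 := by positivity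
      field_simp
    rw [e4]
    refine mul_lt_mul_of_pos_right ?_ hD
    rw [div_lt_iff₀ hm]
    have e5 : |r - z| / (1 + r ^ 2) ≤ 1 + |z| := by
      rw [div_le_iff₀ (by positivity)]
      exact e3
    have e6 : C * (|r - z| / (1 + r ^ 2)) * g Z x n r ≤
        C * (1 + |z|) * (1 / (2 * C * (1 + |z|)) * m * |r - c|) := by
      refine mul_le_mul (mul_le_mul_of_nonneg_left e5 hC.le) e1 hg (by positivity)
    have e7 : C * (1 + |z|) * (1 / (2 * C * (1 + |z|)) * m * |r - c|) = 1 / 2 * (|r - c| * m) := by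
      field_simp
    have e8 : 0 < |r - c| * m := by positivity
    linarith

end Pool.Agent.K7.H29.MIBump
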