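import Mathlib
import Pool.Agent.K7.H97.MI.Defs

/-!
Project MI, job STEPD: adding a nonzero special value.
-/

set_option autoImplicit false

open Polynomial

namespace Pool.Agent.K7.H29.MIStepD

open Pool.Agent.K7.H97.MI

/-! ### closure properties -/

lemma pr_const (r : ℝ) : PR (fun _ => r) := TR.const r

lemma pr_add {f g : Om → ℝ} (hf : PR f) (hg : PR g) : PR (fun x => f x + g x) := by
  have h := TR.add hf hg
  unfold PR
  convert h using 2
  rw [add_smul]

lemma pr_mul {f g : Om → ℝ} (hf : PR f) (hg : PR g) : PR (fun x => f x * g x) := by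
  have h := TR.mul hf hg
  unfold PR
  convert h using 2
  rw [smul_mul_smul_comm, mul_one]

lemma pr_pow {f : Om → ℝ} (hf : PR f) (n : ℕ) : PR (fun x => f x ^ n) := by
  induction n with
  | zero => simpa using pr_const 1
  | succ n ih => simpa [pow_succ] using pr_mul ih hf

lemma pr_neg {f : Om → ℝ} (hf : PR f) : PR (fun x => - f x) := by
  have := pr_mul (pr_const (-1)) hf
  simpa using this

lemma pr_sub {f g : Om → ℝ} (hf : PR f) (hg : PR g) : PR (fun x => f x - g x) := by
  have := pr_add hf (pr_neg hg)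
  simpa [sub_eq_add_neg] using this

lemma pr_sum {ι : Type} (s : Finset ι) (f : ι → Om → ℝ) (hf : ∀ i ∈ s, PR (f i)) :
    PR (fun x => ∑ i ∈ s, f i x) := by
  classical
  induction s using Finset.induction_on with
  | empty => simpa using pr_const 0
  | insert a s ha ih =>
    have h1 := pr_add (hf a (Finset.mem_insert_self _ _))
      (ih fun i hi => hf i (Finset.mem_insert_of_mem hi))
    convert h1 using 2
    rw [Finset.sum_insert ha]

lemma tr_smul {f : Om → ℝ} {P : Om → M2} (hf : PR f) (hP : TR P) : TR (fun x => f x • P x) := by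
  have h := TR.mul hf hP
  convert h using 2
  rw [smul_mul_assoc, one_mul]

lemma tr_sub {P Q : Om → M2} (hP : TR P) (hQ : TR Q) : TR (fun x => P x - Q x) := by
  have h := TR.add hP (tr_smul (pr_const (-1)) hQ)
  convert h using 2
  simp [sub_eq_add_neg]

lemma pr_trace {P : Om → M2} (hP : TR P) : PR (fun x => (P x).trace) := TR.tr hP

lemma pr_ht {P : Om → M2} (hP : TR P) : PR (fun x => ht (P x)) := by
  have := pr_mul (pr_trace hP) (pr_const (1 / 2))
  convert this using 2
  unfold ht
  ring

lemma pr_det {P : Om → M2} (hP : TR P) : PR (fun x => (P x).det) := by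
  have h := tr_sub (tr_smul (pr_trace hP) hP) (TR.mul hP hP)
  unfold PR
  convert h using 2 with x
  ext i j
  fin_cases i <;> fin_cases j <;>
    simp [Matrix.det_fin_two, Matrix.trace_fin_two, Matrix.mul_apply, Fin.sum_univ_two] <;> ring

lemma pr_dd {P : Om → M2} (hP : TR P) : PR (fun x => dd (P x)) := by
  have := pr_sub (pr_pow (pr_ht hP) 2) (pr_det hP)
  exact this

lemma tr_tl {P : Om → M2} (hP : TR P) : TR (fun x => tl (P x)) := by
  have := tr_sub hP (pr_ht hP)
  exact this

/-- an element of the trace ring depends on finitely many variables only -/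
lemma tr_local {P : Om → M2} (hP : TR P) : ∃ B : ℕ, ∀ x y : Om, (∀ i < B, x i = y i) → P x = P y := by
  induction hP with
  | const r => exact ⟨0, fun _ _ _ => rfl⟩
  | var i => exact ⟨i + 1, fun x y h => h i (Nat.lt_succ_self i)⟩
  | add _ _ ih1 ih2 =>
    obtain ⟨B1, h1⟩ := ih1
    obtain ⟨B2, h2⟩ := ih2
    refine ⟨max B1 B2, fun x y h => ?_⟩
    dsimp only
    rw [h1 x y fun i hi => h i (lt_of_lt_of_le hi (le_max_left _ _)),
      h2 x y fun i hi => h i (lt_of_lt_of_le hi (le_max_right _ _))]
  | mul _ _ ih1 ih2 =>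
    obtain ⟨B1, h1⟩ := ih1
    obtain ⟨B2, h2⟩ := ih2
    refine ⟨max B1 B2, fun x y h => ?_⟩
    dsimp only
    rw [h1 x y fun i hi => h i (lt_of_lt_of_le hi (le_max_left _ _)),
      h2 x y fun i hi => h i (lt_of_lt_of_le hi (le_max_right _ _))]
  | tr _ ih =>
    obtain ⟨B, h⟩ := ih
    refine ⟨B, fun x y hxy => ?_⟩
    dsimp only
    rw [h x y hxy]

/-! ### keys -/

lemma key_zero : key 0 = Key.zero := by simp [key]

lemma key_eq_zero_iff (T : M2) : key T = Key.zero ↔ T = 0 := by
  constructor
  · intro h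
    by_contra hT
    unfold key at h
    rw [if_neg hT] at h
    split_ifs at h
  · rintro rfl; exact key_zero

lemma ht_smul (c : ℝ) (T : M2) : ht (c • T) = c * ht T := by
  unfold ht; rw [Matrix.trace_smul, smul_eq_mul]; ring

lemma dd_smul (c : ℝ) (T : M2) : dd (c • T) = c ^ 2 * dd T := by
  unfold dd; rw [Matrix.trace_smul, Matrix.det_smul, smul_eq_mul, Fintype.card_fin]; ring

lemma key_smul (c : ℝ) (hc : 0 < c) (T : M2) : key (c • T) = key T := by
  unfold key
  have h1 : (c • T = 0) ↔ T = 0 := by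
    constructor
    · intro h; exact (smul_eq_zero.1 h).resolve_left hc.ne'
    · rintro rfl; simp
  have h2 : (c • T = ht (c • T) • (1 : M2)) ↔ T = ht T • (1 : M2) := by
    rw [ht_smul, mul_smul]
    constructor
    · intro h; exact smul_right_injective _ hc.ne' h
    · intro h
      conv_lhs => rw [h]
  have h3 : SignType.sign (ht (c • T)) = SignType.sign (ht T) := by
    rw [ht_smul, sign_mul, sign_pos hc, one_mul]
  have h4 : (ht (c • T) ≠ 0) ↔ ht T ≠ 0 := by
    rw [ht_smul]; simp [hc.ne']
  have h5 : rr (c • T) = rr T := by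
    unfold rr; rw [ht_smul, dd_smul, mul_pow, mul_div_mul_left _ _ (by positivity)]
  have h6 : (dd (c • T) ≠ 0) ↔ dd T ≠ 0 := by
    rw [dd_smul]; simp [hc.ne']
  have h7 : SignType.sign (dd (c • T)) = SignType.sign (dd T) := by
    rw [dd_smul, sign_mul, sign_pos (by positivity), one_mul]
  simp only [h1, h2, h3, h4, h5, h6, h7]

lemma dd_scalar (T : M2) (h : T = ht T • (1 : M2)) : dd T = 0 := by
  unfold dd
  have h2 : T.det = ht T ^ 2 := by
    conv_lhs => rw [h]
    rw [Matrix.det_smul, Matrix.det_one, Fintype.card_fin]; ring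
  rw [h2]
  unfold ht
  ring

lemma key_of_dd (T : M2) (h1 : ht T ≠ 0) (h2 : dd T ≠ 0) :
    key T = Key.reg (rr T) (SignType.sign (ht T)) := by
  have h3 : T ≠ 0 := by rintro rfl; simp [ht] at h1
  have h4 : T ≠ ht T • (1 : M2) := fun h => h2 (dd_scalar T h)
  unfold key
  rw [if_neg h3, if_neg h4, if_pos h1]

lemma key_reg_iff (T : M2) (r : ℝ) (s : SignType) (h : key T = Key.reg r s) :
    ht T ≠ 0 ∧ rr T = r ∧ SignType.sign (ht T) = s := by
  unfold key at h
  split_ifs at h with h1 h2 h3 h4
  injection h with e1 e2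
  exact ⟨h3, e1, e2⟩

lemma key_nil_or_zero (T : M2) (h1 : ht T = 0) (h2 : dd T = 0) :
    key T = Key.nil ∨ T = 0 := by
  by_cases h3 : T = 0
  · exact Or.inr h3
  · left
    have h4 : T ≠ ht T • (1 : M2) := by
      rw [h1, zero_smul]; exact h3
    unfold key
    rw [if_neg h3, if_neg h4, if_neg (by simpa using h1), if_neg (by simpa using h2)]

/-- the matrix with the same half trace up to `a` and traceless part multiplied by `b` -/
noncomputable def mk (a b : ℝ) (T : M2) : M2 := (a * ht T) • (1 : M2) + b • tl T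

lemma ht_mk (a b : ℝ) (T : M2) : ht (mk a b T) = a * ht T := by
  simp only [mk, tl, ht, Matrix.trace_fin_two, Matrix.add_apply, Matrix.smul_apply,
    Matrix.sub_apply, smul_eq_mul, Matrix.one_apply_eq]
  ring

lemma dd_mk (a b : ℝ) (T : M2) : dd (mk a b T) = b ^ 2 * dd T := by
  simp only [dd, mk, tl, ht, Matrix.trace_fin_two, Matrix.det_fin_two, Matrix.add_apply,
    Matrix.smul_apply, Matrix.sub_apply, smul_eq_mul, Matrix.one_apply_eq,
    Matrix.one_apply_ne (show (0 : Fin 2) ≠ 1 by decide),
    Matrix.one_apply_ne (show (1 : Fin 2) ≠ 0 by decide)]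
  ring

lemma mk_self (a : ℝ) (T : M2) : mk a a T = a • T := by
  unfold mk tl
  rw [smul_sub, mul_smul]
  abel

lemma key_mk (a b : ℝ) (T : M2) (ha : 0 < a) (hb : b ≠ 0) (h1 : ht T ≠ 0) (h2 : dd T ≠ 0) :
    key (mk a b T) = Key.reg ((b / a) ^ 2 * rr T) (SignType.sign (ht T)) := by
  rw [key_of_dd _ (by rw [ht_mk]; exact mul_ne_zero ha.ne' h1)
    (by rw [dd_mk]; exact mul_ne_zero (pow_ne_zero 2 hb) h2)]
  congr 1
  · unfold rr
    rw [ht_mk, dd_mk]
    field_simp
  · rw [ht_mk, sign_mul, sign_pos ha, one_mul]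

/-! ### the homogenised polynomial -/

noncomputable def Nh (N : ℝ[X]) (k : ℕ) (u v : ℝ) : ℝ :=
  ∑ i ∈ Finset.range (2 * k), N.coeff i * u ^ i * v ^ (2 * k - i)

lemma Nh_eval (N : ℝ[X]) (k : ℕ) (hN : N.natDegree < 2 * k) (u v : ℝ) (hv : v ≠ 0) :
    Nh N k u v = N.eval (u / v) * v ^ (2 * k) := by
  rw [Polynomial.eval_eq_sum_range' hN, Finset.sum_mul]
  unfold Nh
  refine Finset.sum_congr rfl fun i hi => ?_
  have hi' : i ≤ 2 * k := (Finset.mem_range.1 hi).le
  have h1 : v ^ (2 * k) = v ^ i * v ^ (2 * k - i) := by rw [← pow_add]; congr 1; omega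
  rw [h1, div_pow]
  field_simp

lemma Nh_zero (N : ℝ[X]) (k : ℕ) (u : ℝ) : Nh N k u 0 = 0 := by
  unfold Nh
  refine Finset.sum_eq_zero fun i hi => ?_
  have hi' : 2 * k - i ≠ 0 := by have := Finset.mem_range.1 hi; omega
  rw [zero_pow hi', mul_zero]

lemma pr_Nh (N : ℝ[X]) (k : ℕ) {f g : Om → ℝ} (hf : PR f) (hg : PR g) :
    PR (fun x => Nh N k (f x) (g x)) := by
  unfold Nh
  exact pr_sum _ _ fun i _ => pr_mul (pr_mul (pr_const _) (pr_pow hf _)) (pr_pow hg _)

/-! ### the switch -/

noncomputable def th (z : ℝ) : ℝ := 2 * z ^ 2 * (1 + z) ^ 2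
noncomputable def De (z : ℝ) : ℝ := (1 + z ^ 2) ^ 3

lemma De_pos (z : ℝ) : 0 < De z := by unfold De; positivity

lemma th_nonneg (z : ℝ) : 0 ≤ th z := by unfold th; positivity

lemma De_sub_th (z : ℝ) : De z - th z = (1 + z ^ 2) * (1 - z ^ 2) ^ 2 + 2 * z ^ 2 * (1 - z) ^ 2 := by
  unfold De th; ring

lemma th_le (z : ℝ) : th z ≤ De z := by
  have := De_sub_th z
  have h1 : 0 ≤ (1 + z ^ 2) * (1 - z ^ 2) ^ 2 + 2 * z ^ 2 * (1 - z) ^ 2 := by positivity
  linarith

lemma th_eq (z : ℝ) (h : th z = De z) : z = 1 := by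
  have h0 := De_sub_th z
  rw [h, sub_self] at h0
  have h1 : 0 ≤ (1 + z ^ 2) * (1 - z ^ 2) ^ 2 := by positivity
  have h2 : 0 ≤ 2 * z ^ 2 * (1 - z) ^ 2 := by positivity
  have h3 : (1 + z ^ 2) * (1 - z ^ 2) ^ 2 = 0 := by linarith
  have h4 : 2 * z ^ 2 * (1 - z) ^ 2 = 0 := by linarith
  have h5 : 1 - z ^ 2 = 0 := by
    have : (1 + z ^ 2) ≠ 0 := by positivity
    have h6 := (mul_eq_zero.1 h3).resolve_left this
    exact pow_eq_zero_iff (two_ne_zero) |>.1 h6
  have h6 : (1 - z) ^ 2 = 0 := by
    have : 2 * z ^ 2 = 2 := by linarith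
    rw [this] at h4
    linarith
  have h7 : 1 - z = 0 := pow_eq_zero_iff (two_ne_zero) |>.1 h6
  linarith

lemma th_zero : th 0 = 0 := by simp [th]
lemma De_zero : De 0 = 1 := by simp [De]
lemma th_one : th 1 = De 1 := by norm_num [th, De]

/-- the modified map: `L` the value of the switch variable -/
noncomputable def Q (N : ℝ[X]) (k : ℕ) (σ L : ℝ) (T : M2) : M2 :=
  mk (De (σ * L ^ 2 * ht T) * (ht T ^ 4 + dd T ^ 2) ^ k)
    (De (σ * L ^ 2 * ht T) * (ht T ^ 4 + dd T ^ 2) ^ k -
      th (σ * L ^ 2 * ht T) * Nh N k (dd T) (ht T ^ 2)) T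

lemma tr_Q (N : ℝ[X]) (k : ℕ) (σ : ℝ) (P : Om → M2) (hP : TR P) (B : ℕ) :
    TR (fun x => Q N k σ ((x B).trace) (P x)) := by
  have hL : PR (fun x : Om => (x B).trace) := pr_trace (TR.var B)
  have hz : PR (fun x : Om => σ * (x B).trace ^ 2 * ht (P x)) :=
    pr_mul (pr_mul (pr_const σ) (pr_pow hL 2)) (pr_ht hP)
  have hD : PR (fun x : Om => De (σ * (x B).trace ^ 2 * ht (P x))) := by
    unfold De
    exact pr_pow (pr_add (pr_const 1) (pr_pow hz 2)) 3
  have hth : PR (fun x : Om => th (σ * (x B).trace ^ 2 * ht (P x))) := by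
    unfold th
    exact pr_mul (pr_mul (pr_const 2) (pr_pow hz 2)) (pr_pow (pr_add (pr_const 1) hz) 2)
  have hq : PR (fun x : Om => (ht (P x) ^ 4 + dd (P x) ^ 2) ^ k) :=
    pr_pow (pr_add (pr_pow (pr_ht hP) 4) (pr_pow (pr_dd hP) 2)) k
  have hN : PR (fun x : Om => Nh N k (dd (P x)) (ht (P x) ^ 2)) :=
    pr_Nh N k (pr_dd hP) (pr_pow (pr_ht hP) 2)
  unfold Q mk
  exact TR.add (pr_mul (pr_mul hD hq) (pr_ht hP))
    (tr_smul (pr_sub (pr_mul hD hq) (pr_mul hth hN)) (tr_tl hP))

/-- if the half trace vanishes or the switch is off, then nothing changes -/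
lemma Q_trivial (N : ℝ[X]) (k : ℕ) (σ L : ℝ) (T : M2) (h : L = 0 ∨ ht T = 0) :
    Q N k σ L T = ((ht T ^ 4 + dd T ^ 2) ^ k) • T := by
  have h0 : σ * L ^ 2 * ht T = 0 := by
    rcases h with h | h
    · rw [h]; ring
    · rw [h]; ring
  unfold Q
  rw [h0, th_zero, De_zero, zero_mul, sub_zero, one_mul, mk_self]

lemma q_eq (T : M2) (h : ht T ≠ 0) : ht T ^ 4 + dd T ^ 2 = ht T ^ 4 * (1 + rr T ^ 2) := by
  unfold rr
  field_simp

/-- the general case -/
lemma Q_gen (N : ℝ[X]) (k : ℕ) (hN : N.natDegree < 2 * k) (σ L : ℝ) (T : M2) (h : ht T ≠ 0) :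
    Q N k σ L T = mk ((ht T ^ 4) ^ k * (De (σ * L ^ 2 * ht T) * (1 + rr T ^ 2) ^ k))
      ((ht T ^ 4) ^ k * (De (σ * L ^ 2 * ht T) * (1 + rr T ^ 2) ^ k -
      th (σ * L ^ 2 * ht T) * N.eval (rr T))) T := by
  have h1 : Nh N k (dd T) (ht T ^ 2) = N.eval (rr T) * (ht T ^ 4) ^ k := by
    rw [Nh_eval N k hN _ _ (pow_ne_zero 2 h)]
    unfold rr
    rw [pow_mul (ht T ^ 2) 2 k, ← pow_mul (ht T) 2 2]
  unfold Q
  rw [q_eq T h, mul_pow, h1]
  congr 1 <;> ring

/-- geometry: the square of a convex combination of square roots -/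
lemma between (σ r z r' t : ℝ) (hσ : σ * σ = 1) (hr : |r| = σ * r) (hz : |z| = σ * z)
    (hr' : |r'| = σ * r') (ht0 : 0 ≤ t) (ht1 : t ≤ 1)
    (h : Real.sqrt |r'| = Real.sqrt |r| - t * (Real.sqrt |r| - Real.sqrt |z|)) :
    r' ∈ Set.uIcc z r := by
  have h1 : |r'| ∈ Set.uIcc |z| |r| := by
    have e1 : |r'| = Real.sqrt |r'| ^ 2 := (Real.sq_sqrt (abs_nonneg _)).symm
    have e2 : |r| = Real.sqrt |r| ^ 2 := (Real.sq_sqrt (abs_nonneg _)).symm
    have e3 : |z| = Real.sqrt |z| ^ 2 := (Real.sq_sqrt (abs_nonneg _)).symm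
    have p1 := Real.sqrt_nonneg |r'|
    have p2 := Real.sqrt_nonneg |r|
    have p3 := Real.sqrt_nonneg |z|
    rw [e1, e2, e3]
    set a := Real.sqrt |r'|
    set b := Real.sqrt |r|
    set c := Real.sqrt |z|
    rcases le_total c b with hcb | hcb
    · rw [Set.uIcc_of_le (pow_le_pow_left₀ p3 hcb 2)]
      have q1 : c ≤ a := by nlinarith
      have q2 : a ≤ b := by nlinarith
      exact ⟨pow_le_pow_left₀ p3 q1 2, pow_le_pow_left₀ p1 q2 2⟩
    · rw [Set.uIcc_of_ge (pow_le_pow_left₀ p2 hcb 2)]
      have q1 : b ≤ a := by nlinarith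
      have q2 : a ≤ c := by nlinarith
      exact ⟨pow_le_pow_left₀ p2 q1 2, pow_le_pow_left₀ p1 q2 2⟩
  rw [hr, hz, hr'] at h1
  have hσ' : σ = 1 ∨ σ = -1 := by
    have : (σ - 1) * (σ + 1) = 0 := by nlinarith
    rcases mul_eq_zero.1 this with h | h
    · left; linarith
    · right; linarith
  rw [Set.mem_uIcc] at h1 ⊢
  rcases hσ' with rfl | rfl
  · simpa using h1
  · rcases h1 with ⟨a, b⟩ | ⟨a, b⟩
    · right; constructor <;> linarith
    · left; constructor <;> linarith

lemma sgn_real (s : SignType) (hs : s ≠ 0) : ∃ σ : ℝ, σ ≠ 0 ∧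
    (∀ a : ℝ, SignType.sign a = s → σ * a = |a|) ∧ (∀ a : ℝ, 0 < σ * a → SignType.sign a = s) := by
  rcases SignType.trichotomy s with h | h | h
  · refine ⟨-1, by norm_num, ?_, ?_⟩
    · intro a ha
      rw [h, sign_eq_neg_one_iff] at ha
      rw [abs_of_neg ha]; ring
    · intro a ha
      rw [h, sign_eq_neg_one_iff]; linarith
  · exact absurd h hs
  · refine ⟨1, by norm_num, ?_, ?_⟩
    · intro a ha
      rw [h, sign_eq_one_iff] at ha
      rw [abs_of_pos ha]; ring
    · intro a ha
      rw [h, sign_eq_one_iff]; linarith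

/-- JOB STEPD -/
theorem stepD (hB : StBumpD) : StD := by
  classical
  intro K Z z ξ s hKr hloc hnil h0 hz hz0 hs hξK hξ hZ
  obtain ⟨P, hP, hK⟩ := hKr
  obtain ⟨N, k, hdeg, hNZ, hNI, ⟨r1, hr1I, hr1⟩, hNout⟩ := hB Z z ξ h0 hz hz0 hξ hZ 3 (by norm_num)
  obtain ⟨B, hfresh⟩ := tr_local hP
  obtain ⟨σ, hσ0, hσ1, hσ2⟩ := sgn_real s hs
  set I : Set ℝ := Set.Ioo (min z ξ) (max z ξ) with hI
  have hIsub : ∀ r ∈ I, r ∈ Set.uIcc z ξ := fun r hr => Set.Ioo_subset_Icc_self hr
  have hIz : ∀ r ∈ I, r ≠ z := by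
    rintro r hr rfl
    rcases lt_or_gt_of_ne hξ with h | h
    · rw [hI, max_eq_left h.le] at hr; exact lt_irrefl _ hr.2
    · rw [hI, min_eq_left h.le] at hr; exact lt_irrefl _ hr.1
  -- no special value between two points of the closed interval different from `z`
  have hseg : ∀ a b : ℝ, a ∈ Set.uIcc z ξ → b ∈ Set.uIcc z ξ → a ≠ z → b ≠ z →
      ∀ c ∈ Z, c ∉ Set.uIcc a b := by
    intro a b ha hb haz hbz c hc hcab
    have hsub : Set.uIcc a b ⊆ Set.uIcc z ξ := Set.uIcc_subset_uIcc ha hb
    by_cases hcz : c = z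
    · rw [hcz, Set.mem_uIcc] at hcab
      rw [Set.mem_uIcc] at ha hb
      rcases lt_or_gt_of_ne hξ with h | h <;> rcases lt_or_gt_of_ne haz with h1 | h1 <;>
        rcases lt_or_gt_of_ne hbz with h2 | h2 <;> rcases hcab with ⟨a1, a2⟩ | ⟨a1, a2⟩ <;>
        rcases ha with ⟨b1, b2⟩ | ⟨b1, b2⟩ <;> rcases hb with ⟨c1, c2⟩ | ⟨c1, c2⟩ <;> linarith
    · exact hZ c hc hcz (hsub hcab)
  -- the sign on the interval
  have h0I : (0 : ℝ) ∉ Set.uIcc z ξ := hZ 0 h0 hz0.symm
  obtain ⟨ρ, hρ, hρI⟩ : ∃ ρ : ℝ, ρ * ρ = 1 ∧ ∀ r ∈ Set.uIcc z ξ, |r| = ρ * r ∧ r ≠ 0 := by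
    rw [Set.mem_uIcc, not_or, not_and_or, not_and_or] at h0I
    rcases lt_or_gt_of_ne hz0 with h | h
    · refine ⟨-1, by norm_num, fun r hr => ?_⟩
      have hξ0 : ξ < 0 := by
        rcases h0I.1 with h' | h'
        · exact absurd h.le h'
        · exact not_le.1 h'
      have : r < 0 := by
        rw [Set.mem_uIcc] at hr
        rcases hr with hr | hr
        · exact lt_of_le_of_lt hr.2 hξ0
        · exact lt_of_le_of_lt hr.2 h
      exact ⟨by rw [abs_of_neg this]; ring, this.ne⟩
    · refine ⟨1, by norm_num, fun r hr => ?_⟩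
      have hξ0 : 0 < ξ := by
        rcases h0I.2 with h' | h'
        · exact not_le.1 h'
        · exact absurd h.le h'
      have : 0 < r := by
        rw [Set.mem_uIcc] at hr
        rcases hr with hr | hr
        · exact lt_of_lt_of_le h hr.1
        · exact lt_of_lt_of_le hξ0 hr.1
      exact ⟨by rw [abs_of_pos this]; ring, this.ne'⟩
  have hzI : z ∈ Set.uIcc z ξ := Set.left_mem_uIcc
  -- the common computation
  have hgen : ∀ (L : ℝ) (T : M2), ht T ≠ 0 → ∃ a b : ℝ, 0 < a ∧ Q N k σ L T = mk a b T ∧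
      b / a = 1 - th (σ * L ^ 2 * ht T) / De (σ * L ^ 2 * ht T) *
        (N.eval (rr T) / (1 + rr T ^ 2) ^ k) := by
    intro L T hT
    have hD := De_pos (σ * L ^ 2 * ht T)
    have hh : 0 < (ht T ^ 4) ^ k := by positivity
    have hr : 0 < (1 + rr T ^ 2) ^ k := by positivity
    refine ⟨_, _, ?_, Q_gen N k hdeg σ L T hT, ?_⟩
    · positivity
    · rw [mul_div_mul_left _ _ hh.ne']
      field_simp
  refine ⟨fun x => Q N k σ ((x B).trace) (P x), tr_Q N k σ P hP B, ?_⟩
  intro κ hκ
  constructor
  · rintro (rfl | hκK)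
    · -- the new key
      have hr1K : Key.reg r1 s ∈ K := by
        by_cases hξr : ξ = r1
        · rw [← hξr]; exact hξK
        · refine hloc ξ r1 s ?_ hξK
          exact hseg ξ r1 Set.right_mem_uIcc (hIsub r1 hr1I) hξ (hIz r1 hr1I)
      obtain ⟨x, hx⟩ := (hK _ (by simp)).1 hr1K
      obtain ⟨hT1, hT2, hT3⟩ := key_reg_iff _ _ _ hx
      have habs : 0 < |ht (P x)| := abs_pos.2 hT1
      set L : ℝ := 1 / Real.sqrt |ht (P x)| with hL
      refine ⟨Function.update x B ((L / 2) • (1 : M2)), ?_⟩
      have hPx : P (Function.update x B ((L / 2) • (1 : M2))) = P x :=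
        hfresh _ _ fun i hi => Function.update_of_ne hi.ne _ _
      have htr : (Function.update x B ((L / 2) • (1 : M2)) B).trace = L := by
        rw [Function.update_self, Matrix.trace_smul, Matrix.trace_one, Fintype.card_fin]
        simp
      beta_reduce
      rw [htr, hPx]
      have hone : σ * L ^ 2 * ht (P x) = 1 := by
        have e1 : σ * ht (P x) = |ht (P x)| := hσ1 _ hT3
        have e2 : L ^ 2 = 1 / |ht (P x)| := by
          rw [hL, div_pow, one_pow, Real.sq_sqrt habs.le]
        calc σ * L ^ 2 * ht (P x) = (σ * ht (P x)) * L ^ 2 := by ring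
          _ = 1 := by rw [e1, e2]; field_simp
      obtain ⟨a, b, ha, hQ, hba⟩ := hgen L (P x) hT1
      rw [hone, th_one, div_self (De_pos 1).ne', one_mul, hT2] at hba
      have hr1' := hρI r1 (hIsub r1 hr1I)
      have hz' := hρI z hzI
      have hs1 : 0 < Real.sqrt |r1| := Real.sqrt_pos.2 (abs_pos.2 hr1'.2)
      have hs2 : 0 < Real.sqrt |z| := Real.sqrt_pos.2 (abs_pos.2 hz'.2)
      have hba2 : b / a = Real.sqrt |z| / Real.sqrt |r1| := by
        rw [hba]
        have hp : (1 + r1 ^ 2) ^ k ≠ 0 := by positivity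
        rw [eq_div_iff hs1.ne']
        have e1 : N.eval r1 / (1 + r1 ^ 2) ^ k * Real.sqrt |r1| =
            Real.sqrt |r1| - Real.sqrt |z| := by
          rw [div_mul_eq_mul_div, div_eq_iff hp, mul_comm, hr1]
        rw [sub_mul, one_mul, e1]
        ring
      have hb : b ≠ 0 := by
        rintro rfl
        rw [zero_div] at hba2
        have : 0 < Real.sqrt |z| / Real.sqrt |r1| := by positivity
        linarith
      have hdd : dd (P x) ≠ 0 := by
        intro h
        have : rr (P x) = 0 := by rw [rr, h, zero_div]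
        rw [this] at hT2
        exact hr1'.2 hT2.symm
      rw [hQ, key_mk a b (P x) ha hb hT1 hdd, hba2, hT2, hT3]
      congr 1
      rw [div_pow, Real.sq_sqrt (abs_nonneg _), Real.sq_sqrt (abs_nonneg _), hr1'.1, hz'.1]
      have hρ0 : ρ ≠ 0 := by rintro rfl; simp at hρ
      have := hr1'.2
      field_simp
    · -- an old key
      obtain ⟨x, hx⟩ := (hK κ hκ).1 hκK
      refine ⟨Function.update x B 0, ?_⟩
      have hPx : P (Function.update x B 0) = P x :=
        hfresh _ _ fun i hi => Function.update_of_ne hi.ne _ _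
      have htr : (Function.update x B (0 : M2) B).trace = 0 := by
        rw [Function.update_self, Matrix.trace_zero]
      beta_reduce
      rw [htr, hPx, Q_trivial N k σ 0 (P x) (Or.inl rfl)]
      by_cases hq : 0 < ht (P x) ^ 4 + dd (P x) ^ 2
      · rw [key_smul _ (pow_pos hq k), hx]
      · have e1 : ht (P x) ^ 4 = 0 := by
          have := sq_nonneg (dd (P x))
          have h4 : 0 ≤ ht (P x) ^ 4 := by positivity
          linarith [not_lt.1 hq]
        have e2 : dd (P x) ^ 2 = 0 := by
          have h4 : 0 ≤ ht (P x) ^ 4 := by positivity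
          have := sq_nonneg (dd (P x))
          linarith [not_lt.1 hq]
        rcases key_nil_or_zero (P x) (pow_eq_zero_iff (by norm_num) |>.1 e1)
          (pow_eq_zero_iff (by norm_num) |>.1 e2) with h | h
        · rw [hx] at h
          rw [h] at hκK
          exact absurd hκK hnil
        · rw [h, key_zero] at hx
          exact absurd hx.symm hκ
  · rintro ⟨x, hx⟩
    beta_reduce at hx
    set T := P x with hTdef
    set L := (x B).trace with hLdef
    have hTK : key T ≠ Key.zero → key T ∈ K := fun h => (hK _ h).2 ⟨x, rfl⟩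
    by_cases hT : ht T = 0
    · rw [Q_trivial N k σ L T (Or.inr hT)] at hx
      by_cases hq : 0 < ht T ^ 4 + dd T ^ 2
      · rw [key_smul _ (pow_pos hq k)] at hx
        right
        rw [← hx]
        exact hTK (by rw [hx]; exact hκ)
      · have e2 : dd T ^ 2 = 0 := by
          have h4 : 0 ≤ ht T ^ 4 := by positivity
          have := sq_nonneg (dd T)
          linarith [not_lt.1 hq]
        rcases key_nil_or_zero T hT (pow_eq_zero_iff (by norm_num) |>.1 e2) with h | h
        · exact absurd (hTK (by rw [h]; simp)) (by rw [h]; exact hnil)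
        · rw [h, smul_zero, key_zero] at hx
          exact absurd hx.symm hκ
    · obtain ⟨a, b, ha, hQ, hba⟩ := hgen L T hT
      by_cases hrZ : rr T ∈ Z
      · rw [hNZ _ hrZ, zero_div, mul_zero, sub_zero, div_eq_one_iff_eq ha.ne'] at hba
        rw [hQ, hba, mk_self, key_smul a ha] at hx
        right
        rw [← hx]
        exact hTK (by rw [hx]; exact hκ)
      · have hr0 : rr T ≠ 0 := fun h => hrZ (by rw [h]; exact h0)
        have hdd : dd T ≠ 0 := by
          intro h; exact hr0 (by rw [rr, h, zero_div])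
        have hkT : key T = Key.reg (rr T) (SignType.sign (ht T)) := key_of_dd T hT hdd
        have hkK : Key.reg (rr T) (SignType.sign (ht T)) ∈ K := by
          rw [← hkT]; exact hTK (by rw [hkT]; simp)
        have hD := De_pos (σ * L ^ 2 * ht T)
        have hth0 := th_nonneg (σ * L ^ 2 * ht T)
        have hth1 := th_le (σ * L ^ 2 * ht T)
        set τ : ℝ := th (σ * L ^ 2 * ht T) / De (σ * L ^ 2 * ht T) with hτ
        have hτ0 : 0 ≤ τ := div_nonneg hth0 hD.le
        have hτ1 : τ ≤ 1 := (div_le_one hD).2 hth1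
        have hpk : 0 < (1 + rr T ^ 2) ^ k := by positivity
        by_cases hrI : rr T ∈ I
        · obtain ⟨M, hM0, hM1, hM⟩ := hNI (rr T) hrI
          have hr' := hρI (rr T) (hIsub _ hrI)
          have hz' := hρI z hzI
          have hs1 : 0 < Real.sqrt |rr T| := Real.sqrt_pos.2 (abs_pos.2 hr'.2)
          have hs2 : 0 < Real.sqrt |z| := Real.sqrt_pos.2 (abs_pos.2 hz'.2)
          have e1 : (b / a) * Real.sqrt |rr T| =
              Real.sqrt |rr T| - (τ * M) * (Real.sqrt |rr T| - Real.sqrt |z|) := by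
            rw [hba]
            have e2 : N.eval (rr T) / (1 + rr T ^ 2) ^ k * Real.sqrt |rr T| =
                (Real.sqrt |rr T| - Real.sqrt |z|) * M := by
              rw [div_mul_eq_mul_div, div_eq_iff hpk.ne', mul_comm, hM]
            calc (1 - τ * (N.eval (rr T) / (1 + rr T ^ 2) ^ k)) * Real.sqrt |rr T|
                = Real.sqrt |rr T| - τ * (N.eval (rr T) / (1 + rr T ^ 2) ^ k *
                  Real.sqrt |rr T|) := by ring
              _ = _ := by rw [e2]; ring
          have ht0 : 0 ≤ τ * M := mul_nonneg hτ0 hM0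
          have ht1 : τ * M ≤ 1 := by nlinarith
          have hpos : 0 < (b / a) * Real.sqrt |rr T| := by
            rw [e1]
            rcases le_total (Real.sqrt |rr T|) (Real.sqrt |z|) with h | h <;> nlinarith
          have hbpos : 0 < b / a := by
            by_contra hcon
            push Not at hcon
            nlinarith
          have hb : b ≠ 0 := by
            rintro rfl
            rw [zero_div] at hbpos
            exact lt_irrefl _ hbpos
          rw [hQ, key_mk a b T ha hb hT hdd] at hx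
          set r' : ℝ := (b / a) ^ 2 * rr T with hr'def
          have habs : |r'| = ρ * r' := by
            rw [hr'def, abs_mul, hr'.1, abs_of_nonneg (sq_nonneg _)]; ring
          have hsq : Real.sqrt |r'| = (b / a) * Real.sqrt |rr T| := by
            rw [hr'def, abs_mul, abs_of_nonneg (sq_nonneg _), Real.sqrt_mul (sq_nonneg _),
              Real.sqrt_sq hbpos.le]
          rw [e1] at hsq
          have hbet : r' ∈ Set.uIcc z (rr T) :=
            between ρ (rr T) z r' (τ * M) hρ hr'.1 hz'.1 habs ht0 ht1 hsq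
          by_cases htm : τ * M = 1
          · -- the new value
            have hτ' : τ = 1 := by nlinarith
            have hone : σ * L ^ 2 * ht T = 1 := by
              apply th_eq
              rw [hτ, div_eq_one_iff_eq hD.ne'] at hτ'
              exact hτ'
            have hsign : SignType.sign (ht T) = s := by
              apply hσ2
              have e3 : (σ * ht T) * L ^ 2 = 1 := by rw [← hone]; ring
              by_contra hcon
              push Not at hcon
              have := mul_nonpos_of_nonpos_of_nonneg hcon (sq_nonneg L)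
              linarith
            have hrz : r' = z := by
              rw [htm, one_mul] at hsq
              have e4 : Real.sqrt |r'| = Real.sqrt |z| := by rw [hsq]; ring
              have e5 : |r'| = |z| := by
                rw [← Real.sq_sqrt (abs_nonneg r'), ← Real.sq_sqrt (abs_nonneg z), e4]
              rw [habs, hz'.1] at e5
              have hρ0 : ρ ≠ 0 := by rintro rfl; simp at hρ
              exact mul_left_cancel₀ hρ0 e5
            left
            rw [← hx, hrz, hsign]
          · right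
            have hr'z : r' ≠ z := by
              intro h
              rw [h] at hsq
              have e6 : (1 - τ * M) * (Real.sqrt |rr T| - Real.sqrt |z|) = 0 := by linarith
              rcases mul_eq_zero.1 e6 with h7 | h7
              · exact htm (by linarith)
              · have e5 : |rr T| = |z| := by
                  rw [← Real.sq_sqrt (abs_nonneg (rr T)), ← Real.sq_sqrt (abs_nonneg z)]
                  rw [show Real.sqrt |rr T| = Real.sqrt |z| by linarith]
                rw [hr'.1, hz'.1] at e5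
                have hρ0 : ρ ≠ 0 := by rintro rfl; simp at hρ
                exact hIz _ hrI (mul_left_cancel₀ hρ0 e5)
            rw [← hx]
            refine hloc (rr T) r' _ ?_ hkK
            refine hseg _ _ (hIsub _ hrI) ?_ (hIz _ hrI) hr'z
            exact Set.uIcc_subset_uIcc hzI (hIsub _ hrI) hbet
        · -- outside of the interval
          have hF := hNout (rr T) hrI hrZ
          set F : ℝ := N.eval (rr T) / (1 + rr T ^ 2) ^ k with hFdef
          have hF' : ∀ c ∈ Z, 3 * (1 + rr T ^ 2) * |F| < |rr T - c| := by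
            intro c hc
            have := hF c hc
            rw [hFdef, abs_div, abs_of_pos hpk, mul_div_assoc', div_lt_iff₀ hpk]
            exact this
          set δ : ℝ := τ * F with hδ
          have hδF : |δ| ≤ |F| := by
            rw [hδ, abs_mul, abs_of_nonneg hτ0]
            nlinarith [abs_nonneg F]
          have hr1r : |rr T| ≤ (1 + rr T ^ 2) / 2 := by
            rw [← sq_abs (rr T)]
            nlinarith [sq_nonneg (|rr T| - 1)]
          have hFs : |F| ≤ 1 / 6 := by
            have h1 := hF' 0 h0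
            rw [sub_zero] at h1
            have h2 : 0 < 1 + rr T ^ 2 := by positivity
            by_contra hcon
            push Not at hcon
            nlinarith
          have hδs : |δ| ≤ 1 / 6 := hδF.trans hFs
          have hba' : b / a = 1 - δ := hba
          have hbpos : 0 < b / a := by
            rw [hba']
            have := (abs_le.1 hδs).2
            linarith
          have hb : b ≠ 0 := by
            rintro rfl
            rw [zero_div] at hbpos
            exact lt_irrefl _ hbpos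
          rw [hQ, key_mk a b T ha hb hT hdd] at hx
          right
          rw [← hx]
          refine hloc (rr T) _ _ ?_ hkK
          intro c hc hcu
          have h3 : |(b / a) ^ 2 * rr T - rr T| < |rr T - c| := by
            refine lt_of_le_of_lt ?_ (hF' c hc)
            have e1 : (b / a) ^ 2 * rr T - rr T = (-δ * (2 - δ)) * rr T := by
              rw [hba']; ring
            rw [e1, abs_mul, abs_mul, abs_neg]
            have e2 : |2 - δ| ≤ 3 := by
              rw [abs_le] at hδs ⊢
              constructor <;> linarith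
            have e3 : |rr T| ≤ 1 + rr T ^ 2 := by
              have : 0 ≤ 1 + rr T ^ 2 := by positivity
              linarith
            calc |δ| * |2 - δ| * |rr T| ≤ |F| * 3 * (1 + rr T ^ 2) := by gcongr
              _ = _ := by ring
          rw [Set.mem_uIcc] at hcu
          rcases hcu with ⟨h4, h5⟩ | ⟨h4, h5⟩
          · rw [abs_of_nonneg (by linarith), abs_of_nonpos (by linarith)] at h3
            linarith
          · rw [abs_of_nonpos (by linarith), abs_of_nonneg (by linarith)] at h3
            linarith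

end Pool.Agent.K7.H29.MIStepD
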