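import Mathlib

/-!
# Circle-valued maps with real logarithms and unicoherence

`PB K`: every continuous map from the set `K` to the unit circle has a continuous real argument.
-/

set_option autoImplicit false

namespace Pool.Agent.K7.H29

open Set Topology

/-- Every continuous unimodular function on `K` is `exp (i θ)` for a continuous real `θ`. -/
def PB {E : Type*} [TopologicalSpace E] (K : Set E) : Prop :=
  ∀ φ : E → ℂ, ContinuousOn φ K → (∀ x ∈ K, ‖φ x‖ = 1) →
    ∃ θ : E → ℝ, ContinuousOn θ K ∧ ∀ x ∈ K, φ x = Complex.exp (θ x * Complex.I)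

/-- A continuous real function on a preconnected set with `exp (i f) = 1` is constant. -/
lemma const_of_exp {E : Type*} [TopologicalSpace E] {K : Set E} (hK : IsPreconnected K)
    {f : E → ℝ} (hf : ContinuousOn f K) (h : ∀ x ∈ K, Complex.exp (f x * Complex.I) = 1)
    {x y : E} (hx : x ∈ K) (hy : y ∈ K) : f x = f y := by
  have hint : ∀ x ∈ K, ∃ n : ℤ, f x = n * (2 * Real.pi) := by
    intro x hx
    obtain ⟨n, hn⟩ := Complex.exp_eq_one_iff.1 (h x hx)
    refine ⟨n, ?_⟩
    have h1 : ((f x : ℝ) : ℂ) = ((n * (2 * Real.pi) : ℝ) : ℂ) := by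
      have : (f x : ℂ) * Complex.I = (n * (2 * Real.pi)) * Complex.I := by
        rw [hn]; ring
      have h2 := mul_right_cancel₀ Complex.I_ne_zero this
      rw [h2]; push_cast; ring
    exact_mod_cast h1
  -- use g = f / (2π), continuous with integer values
  have hg : ContinuousOn (fun x => f x / (2 * Real.pi)) K := hf.div_const _
  have hr : MapsTo (fun x => f x / (2 * Real.pi)) K (range ((↑) : ℤ → ℝ)) := by
    intro z hz
    obtain ⟨n, hn⟩ := hint z hz
    refine ⟨n, ?_⟩
    show (n : ℝ) = f z / (2 * Real.pi)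
    rw [hn]
    field_simp
  have hpi : (2 * Real.pi) ≠ 0 := by positivity
  have himg : IsPreconnected ((fun x => f x / (2 * Real.pi)) '' K) := hK.image _ hg
  have hsub : ((fun x => f x / (2 * Real.pi)) '' K).Subsingleton := by
    have hd : IsTotallyDisconnected (range ((↑) : ℤ → ℝ)) := by
      apply Set.Countable.isTotallyDisconnected
      exact countable_range _
    exact hd _ (by rintro _ ⟨z, hz, rfl⟩; exact hr hz) himg
  have := hsub ⟨x, hx, rfl⟩ ⟨y, hy, rfl⟩
  simp only at this
  field_simp at this
  exact this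

/-- Glueing: two closed sets with preconnected intersection. -/
lemma PB.union {E : Type*} [TopologicalSpace E] {A B : Set E} (hA : IsClosed A) (hB : IsClosed B)
    (hAB : IsPreconnected (A ∩ B)) (h1 : PB A) (h2 : PB B) : PB (A ∪ B) := by
  classical
  intro φ hφ hn
  obtain ⟨a, ha, ha'⟩ := h1 φ (hφ.mono subset_union_left) fun x hx => hn x (Or.inl hx)
  obtain ⟨b, hb, hb'⟩ := h2 φ (hφ.mono subset_union_right) fun x hx => hn x (Or.inr hx)
  -- the difference is constant on the intersection
  obtain ⟨c, hc1, hc⟩ : ∃ c : ℝ, Complex.exp (c * Complex.I) = 1 ∧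
      ∀ x ∈ A ∩ B, a x = b x + c := by
    have hd : ∀ x ∈ A ∩ B, Complex.exp (((a x - b x : ℝ) : ℂ) * Complex.I) = 1 := by
      intro x hx
      have e1 := ha' x hx.1
      have e2 := hb' x hx.2
      have : ((a x - b x : ℝ) : ℂ) * Complex.I = a x * Complex.I - b x * Complex.I := by
        push_cast; ring
      rw [this, Complex.exp_sub, ← e1, ← e2]
      have : φ x ≠ 0 := by
        intro h
        have := hn x (Or.inl hx.1)
        rw [h, norm_zero] at this
        exact zero_ne_one this
      exact div_self this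
    rcases (A ∩ B).eq_empty_or_nonempty with he | ⟨x0, hx0⟩
    · refine ⟨0, by simp, ?_⟩
      intro x hx
      rw [he] at hx
      exact hx.elim
    · refine ⟨a x0 - b x0, hd x0 hx0, ?_⟩
      intro x hx
      have := const_of_exp hAB (f := fun x => a x - b x)
        ((ha.mono inter_subset_left).sub (hb.mono inter_subset_right)) hd hx hx0
      linarith
  refine ⟨fun x => if x ∈ A then a x else b x + c, ?_, ?_⟩
  · apply ContinuousOn.union_of_isClosed _ _ hA hB
    · refine ha.congr fun x hx => ?_
      simp [hx]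
    · refine (hb.add_const c).congr fun x hx => ?_
      by_cases hxA : x ∈ A
      · simp only [hxA, if_true]
        exact hc x ⟨hxA, hx⟩
      · simp [hxA]
  · intro x hx
    by_cases hxA : x ∈ A
    · simp only [hxA, if_true]
      exact ha' x hxA
    · simp only [hxA, if_false]
      have hxB : x ∈ B := hx.resolve_left hxA
      rw [hb' x hxB]
      push_cast
      rw [add_mul, Complex.exp_add, hc1, mul_one]

/-- Images under maps which identify at most the points of an involution on a preconnected set. -/
lemma PB.image {E F : Type*} [TopologicalSpace E] [TopologicalSpace F] [T2Space F] {K : Set E}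
    (hK : IsCompact K) (hc : IsPreconnected K) (v : E → F) (hv : ContinuousOn v K)
    (s : E → E) (hs : ContinuousOn s K) (hsK : MapsTo s K K) (hss : ∀ x ∈ K, s (s x) = x)
    (hvs : ∀ x ∈ K, v (s x) = v x)
    (hfib : ∀ x ∈ K, ∀ y ∈ K, v x = v y → y = x ∨ y = s x) (h : PB K) : PB (v '' K) := by
  classical
  intro φ hφ hn
  obtain ⟨θ, hθ, hθ'⟩ := h (φ ∘ v) (hφ.comp hv (mapsTo_image _ _))
    fun x hx => hn _ (mem_image_of_mem _ hx)
  have hne : ∀ x ∈ K, φ (v x) ≠ 0 := by
    intro x hx h0
    have := hn _ (mem_image_of_mem v hx)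
    rw [h0, norm_zero] at this
    exact zero_ne_one this
  have hd : ∀ x ∈ K, Complex.exp (((θ (s x) - θ x : ℝ) : ℂ) * Complex.I) = 1 := by
    intro x hx
    have e1 := hθ' x hx
    have e2 := hθ' (s x) (hsK hx)
    have : ((θ (s x) - θ x : ℝ) : ℂ) * Complex.I = θ (s x) * Complex.I - θ x * Complex.I := by
      push_cast; ring
    rw [this, Complex.exp_sub, ← e1, ← e2]
    simp only [Function.comp]
    rw [hvs x hx]
    exact div_self (hne x hx)
  have hinv : ∀ x ∈ K, θ (s x) = θ x := by
    intro x hx
    have h1 := const_of_exp hc (f := fun x => θ (s x) - θ x) ((hθ.comp hs hsK).sub hθ) hd hx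
      (hsK hx)
    simp only [hss x hx] at h1
    linarith
  have hconst : ∀ x ∈ K, ∀ y ∈ K, v x = v y → θ x = θ y := by
    intro x hx y hy hxy
    rcases hfib x hx y hy hxy with rfl | rfl
    · rfl
    · exact (hinv x hx).symm
  rcases isEmpty_or_nonempty E with hE | hE
  · have hKe : K = ∅ := Set.eq_empty_of_isEmpty K
    refine ⟨fun _ => 0, continuousOn_const, ?_⟩
    rintro _ ⟨x, hx, rfl⟩
    exact hE.elim x
  have hg : ∀ x ∈ K, θ (Function.invFunOn v K (v x)) = θ x := by
    intro x hx
    have h1 : Function.invFunOn v K (v x) ∈ K := Function.invFunOn_mem ⟨x, hx, rfl⟩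
    have h2 : v (Function.invFunOn v K (v x)) = v x := Function.invFunOn_eq ⟨x, hx, rfl⟩
    exact hconst _ h1 _ hx h2
  refine ⟨fun y => θ (Function.invFunOn v K y), ?_, ?_⟩
  · rw [continuousOn_iff_isClosed]
    intro t ht
    refine ⟨v '' (K ∩ θ ⁻¹' t), ?_, ?_⟩
    · have hcl : IsCompact (K ∩ θ ⁻¹' t) := by
        obtain ⟨u, hu, hu'⟩ := continuousOn_iff_isClosed.1 hθ t ht
        rw [inter_comm, hu', inter_comm]
        exact hK.inter_right hu
      exact (hcl.image_of_continuousOn (hv.mono inter_subset_left)).isClosed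
    · ext y
      constructor
      · rintro ⟨h1, x, hx, rfl⟩
        refine ⟨⟨x, ⟨hx, ?_⟩, rfl⟩, ⟨x, hx, rfl⟩⟩
        have h2 : θ (Function.invFunOn v K (v x)) ∈ t := h1
        rw [hg x hx] at h2
        exact h2
      · rintro ⟨⟨x, ⟨hx, hxt⟩, rfl⟩, -⟩
        refine ⟨?_, ⟨x, hx, rfl⟩⟩
        show θ (Function.invFunOn v K (v x)) ∈ t
        rw [hg x hx]
        exact hxt
  · rintro _ ⟨x, hx, rfl⟩
    simp only
    rw [hg x hx]
    exact hθ' x hx

/-- The closed unit disk. -/
lemma pb_disk : PB (Metric.closedBall (0 : ℂ) 1) := by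
  intro φ hφ hn
  set D := Metric.closedBall (0 : ℂ) 1 with hD
  have hscale : ∀ t ∈ Icc (0 : ℝ) 1, ∀ x ∈ D, ((t : ℂ) * x) ∈ D := by
    intro t ht x hx
    rw [hD, mem_closedBall_zero_iff] at hx ⊢
    rw [norm_mul, Complex.norm_real, Real.norm_of_nonneg ht.1]
    nlinarith [ht.1, ht.2, norm_nonneg x]
  have huc : UniformContinuousOn φ D :=
    (isCompact_closedBall (0 : ℂ) 1).uniformContinuousOn_of_continuous hφ
  rw [Metric.uniformContinuousOn_iff] at huc
  obtain ⟨δ, hδ, hδ'⟩ := huc 1 one_pos
  obtain ⟨n, hn1⟩ := exists_nat_gt (1 / δ)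
  have hn0 : (0 : ℝ) < n := lt_trans (by positivity) hn1
  have hnn : n ≠ 0 := by
    rintro rfl
    simp at hn0
  -- the points `k x / n`
  let p : ℕ → ℂ → ℂ := fun k x => (((k : ℝ) / n : ℝ) : ℂ) * x
  have hpc : ∀ k, Continuous (p k) := fun k => continuous_const.mul continuous_id
  have hpD : ∀ k ≤ n, ∀ x ∈ D, p k x ∈ D := by
    intro k hk x hx
    refine hscale _ ⟨by positivity, ?_⟩ x hx
    rw [div_le_one hn0]
    exact_mod_cast hk
  have hdist : ∀ k < n, ∀ x ∈ D, dist (p (k + 1) x) (p k x) < δ := by
    intro k hk x hx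
    rw [dist_eq_norm]
    have : p (k + 1) x - p k x = ((1 / (n : ℝ) : ℝ) : ℂ) * x := by
      simp only [p]
      push_cast
      ring
    rw [this, norm_mul, Complex.norm_real, Real.norm_of_nonneg (by positivity)]
    rw [hD, mem_closedBall_zero_iff] at hx
    have h1 : 1 / (n : ℝ) < δ := by
      rw [div_lt_iff₀ hn0]
      rw [div_lt_iff₀ hδ] at hn1
      linarith
    have h2 : 0 ≤ 1 / (n : ℝ) := by positivity
    nlinarith [norm_nonneg x]
  have hφp : ∀ k ≤ n, ∀ x ∈ D, φ (p k x) ≠ 0 := by
    intro k hk x hx h0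
    have := hn _ (hpD k hk x hx)
    rw [h0, norm_zero] at this
    exact zero_ne_one this
  have hslit : ∀ k < n, ∀ x ∈ D, φ (p (k + 1) x) / φ (p k x) ∈ Complex.slitPlane := by
    intro k hk x hx
    have h1 := hδ' _ (hpD (k + 1) hk x hx) _ (hpD k hk.le x hx) (hdist k hk x hx)
    rw [dist_eq_norm] at h1
    have h2 := hn _ (hpD k hk.le x hx)
    have h3 : ‖φ (p (k + 1) x) / φ (p k x) - 1‖ < 1 := by
      have : φ (p (k + 1) x) / φ (p k x) - 1 = (φ (p (k + 1) x) - φ (p k x)) / φ (p k x) := by
        field_simp [hφp k hk.le x hx]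
      rw [this, norm_div, h2, div_one]
      exact h1
    left
    have h4 := (Complex.abs_re_le_norm (φ (p (k + 1) x) / φ (p k x) - 1)).trans_lt h3
    rw [abs_lt] at h4
    simp only [Complex.sub_re, Complex.one_re] at h4
    linarith [h4.1]
  refine ⟨fun x => Complex.arg (φ 0) +
    ∑ k ∈ Finset.range n, Complex.arg (φ (p (k + 1) x) / φ (p k x)), ?_, ?_⟩
  · refine continuousOn_const.add (continuousOn_finsetSum _ fun k hk => ?_)
    rw [Finset.mem_range] at hk
    have h1 : ContinuousOn (fun x => φ (p (k + 1) x) / φ (p k x)) D :=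
      (hφ.comp (hpc (k + 1)).continuousOn fun x hx => hpD _ hk x hx).div
        (hφ.comp (hpc k).continuousOn fun x hx => hpD _ hk.le x hx)
        fun x hx => hφp k hk.le x hx
    intro x hx
    exact ContinuousAt.comp_continuousWithinAt (g := Complex.arg)
      (f := fun x => φ (p (k + 1) x) / φ (p k x)) (Complex.continuousAt_arg (hslit k hk x hx))
      (h1 x hx)
  · intro x hx
    have hexp : ∀ z : ℂ, ‖z‖ = 1 → Complex.exp (Complex.arg z * Complex.I) = z := by
      intro z hz
      have := Complex.norm_mul_exp_arg_mul_I z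
      rw [hz] at this
      simpa using this
    have hprod : ∀ m ≤ n, Complex.exp (((Complex.arg (φ 0) +
        ∑ k ∈ Finset.range m, Complex.arg (φ (p (k + 1) x) / φ (p k x)) : ℝ) : ℂ) *
          Complex.I) = φ (p m x) := by
      intro m
      induction m with
      | zero =>
        intro _
        simp only [Finset.range_zero, Finset.sum_empty, add_zero]
        have : p 0 x = 0 := by simp [p]
        rw [this]
        refine hexp _ (hn _ ?_)
        simp [hD]
      | succ m ih =>
        intro hm
        rw [Finset.sum_range_succ, ← add_assoc]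
        push_cast
        rw [add_mul, Complex.exp_add]
        have h1 := ih (by omega)
        push_cast at h1
        rw [h1, hexp]
        · field_simp [hφp m (by omega) x hx]
        · rw [norm_div, hn _ (hpD (m + 1) hm x hx), hn _ (hpD m (by omega) x hx), div_one]
    have := hprod n le_rfl
    have hpn : p n x = x := by
      simp only [p]
      rw [div_self hn0.ne']
      simp
    rw [hpn] at this
    exact this.symm

/-- A connected normal space all of whose circle-valued maps have a logarithm is unicoherent. -/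
theorem unicoherent {Y : Type*} [TopologicalSpace Y] [NormalSpace Y] (h : PB (univ : Set Y))
    {A B : Set Y} (hA : IsClosed A) (hB : IsClosed B) (hAc : IsConnected A) (hBc : IsConnected B)
    (hAB : A ∪ B = univ) (hY : IsPreconnected (univ : Set Y)) : IsConnected (A ∩ B) := by
  classical
  refine ⟨?_, ?_⟩
  · have := isPreconnected_closed_iff.1 hY A B hA hB (by rw [hAB]) (by simpa using hAc.nonempty)
      (by simpa using hBc.nonempty)
    simpa using this
  · rw [isPreconnected_closed_iff]
    intro t t' ht ht' hsub hne hne'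
    by_contra hcon
    rw [not_nonempty_iff_eq_empty] at hcon
    have hHc : IsClosed (A ∩ B ∩ t) := (hA.inter hB).inter ht
    have hKc : IsClosed (A ∩ B ∩ t') := (hA.inter hB).inter ht'
    have hdis : Disjoint (A ∩ B ∩ t) (A ∩ B ∩ t') := by
      rw [Set.disjoint_left]
      rintro x ⟨h1, h2⟩ ⟨h3, h4⟩
      have : x ∈ A ∩ B ∩ (t ∩ t') := ⟨h1, h2, h4⟩
      rw [hcon] at this
      exact this
    obtain ⟨g, hg0, hg1, hg⟩ := exists_continuous_zero_one_of_isClosed hHc hKc hdis
    let φ : Y → ℂ := fun y => if y ∈ A then Complex.exp ((Real.pi * g y : ℝ) * Complex.I)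
      else Complex.exp ((-(Real.pi * g y) : ℝ) * Complex.I)
    have hφB : ∀ y ∈ B, φ y = Complex.exp ((-(Real.pi * g y) : ℝ) * Complex.I) := by
      intro y hy
      by_cases hyA : y ∈ A
      · simp only [φ, hyA, if_true]
        rcases hsub ⟨hyA, hy⟩ with h1 | h1
        · have : g y = 0 := hg0 ⟨⟨hyA, hy⟩, h1⟩
          rw [this]
          simp
        · have : g y = 1 := hg1 ⟨⟨hyA, hy⟩, h1⟩
          rw [this]
          simp only [mul_one]
          push_cast
          rw [Complex.exp_pi_mul_I, neg_mul, Complex.exp_neg, Complex.exp_pi_mul_I]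
          norm_num
      · simp only [φ, hyA, if_false]
    have hφA : ∀ y ∈ A, φ y = Complex.exp ((Real.pi * g y : ℝ) * Complex.I) := by
      intro y hy
      simp only [φ, hy, if_true]
    have hcont : ContinuousOn φ univ := by
      rw [← hAB]
      apply ContinuousOn.union_of_isClosed _ _ hA hB
      · refine ContinuousOn.congr ?_ hφA
        exact (Complex.continuous_exp.comp ((Complex.continuous_ofReal.comp
          (continuous_const.mul g.continuous)).mul continuous_const)).continuousOn
      · refine ContinuousOn.congr ?_ hφB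
        exact (Complex.continuous_exp.comp ((Complex.continuous_ofReal.comp
          (continuous_const.mul g.continuous).neg).mul continuous_const)).continuousOn
    have hnorm : ∀ y ∈ (univ : Set Y), ‖φ y‖ = 1 := by
      intro y _
      by_cases hyA : y ∈ A
      · rw [hφA y hyA, Complex.norm_exp_ofReal_mul_I]
      · simp only [φ, hyA, if_false]
        rw [Complex.norm_exp_ofReal_mul_I]
    obtain ⟨θ, hθ, hθ'⟩ := h φ hcont hnorm
    have hθc : Continuous θ := continuousOn_univ.1 hθ
    obtain ⟨x, hxAB, hxt⟩ := hne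
    obtain ⟨y, hyAB, hyt⟩ := hne'
    have hgx : g x = 0 := hg0 ⟨hxAB, hxt⟩
    have hgy : g y = 1 := hg1 ⟨hyAB, hyt⟩
    have e1 := const_of_exp hAc.isPreconnected (f := fun z => θ z - Real.pi * g z)
      (hθc.sub (continuous_const.mul g.continuous)).continuousOn (by
        intro z hz
        have h1 := hθ' z (mem_univ _)
        rw [hφA z hz] at h1
        push_cast
        rw [sub_mul, Complex.exp_sub, ← h1]
        push_cast
        exact div_self (Complex.exp_ne_zero _)) hxAB.1 hyAB.1
    have e2 := const_of_exp hBc.isPreconnected (f := fun z => θ z + Real.pi * g z)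
      (hθc.add (continuous_const.mul g.continuous)).continuousOn (by
        intro z hz
        have h1 := hθ' z (mem_univ _)
        rw [hφB z hz] at h1
        push_cast
        rw [add_mul, Complex.exp_add, ← h1]
        push_cast
        rw [← Complex.exp_add]
        simp) hxAB.2 hyAB.2
    simp only [hgx, hgy, mul_zero, mul_one, sub_zero, add_zero] at e1 e2
    have := Real.pi_pos
    linarith

end Pool.Agent.K7.H29
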