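import Pool.Agent.K7.H26.SHI.Defs
import Mathlib

/-!
# Job BOUND of project SHI
-/

set_option autoImplicit false

namespace Pool.Agent.K7.H29.SHI

open Pool.Agent.K7.H26.SHI Finset

/-- the eleventh root of the diagonal of the kernel -/
noncomputable def u0 : ℝ := 3231 / 10

/-- the eleventh root of the nonadjacent entries of the kernel -/
noncomputable def u1 : ℝ := 10295 / 10000

open Classical in
/-- the eleventh root of the kernel -/
noncomputable def uu (p q : Fin 5 × Fin mm) : ℝ :=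
  if p.1 = q.1 then (if p.2 = q.2 then u0 else 0) else if C5.Adj p.1 q.1 then 0 else u1

theorem uu_nonneg (p q : Fin 5 × Fin mm) : 0 ≤ uu p q := by
  unfold uu u0 u1
  split_ifs <;> norm_num

theorem mm_cast : (mm : ℝ) = 300 ^ 11 := by
  norm_num [mm]

theorem ker_eq (p q : Fin 5 × Fin mm) : ker p q = uu p q ^ 11 := by
  unfold ker uu u0 u1
  rw [mm_cast]
  split_ifs <;> norm_num

theorem uu_adj {p q : Fin 5 × Fin mm} (h : (lex C5 (KK mm)).Adj p q) : uu p q = 0 := by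
  unfold uu
  rcases h with h | ⟨h1, h2⟩
  · rw [if_neg (C5.ne_of_adj h), if_pos h]
  · rw [if_pos h1, if_neg]
    exact (KK mm).ne_of_adj h2

open Classical in
theorem sum_uu (p : Fin 5 × Fin mm) : ∑ q, uu p q ^ 12 = u0 ^ 12 + 2 * (mm * u1 ^ 12) := by
  obtain ⟨g, j⟩ := p
  rw [Fintype.sum_prod_type]
  have h1 : ∀ g' : Fin 5, ∑ j' : Fin mm, uu (g, j) (g', j') ^ 12 =
      if g = g' then u0 ^ 12 else if C5.Adj g g' then 0 else mm * u1 ^ 12 := by
    intro g'
    unfold uu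
    by_cases h : g = g'
    · simp only [h, if_true]
      have h2 : ∀ j' : Fin mm, (if j = j' then u0 else 0) ^ 12 = if j = j' then u0 ^ 12 else 0 := by
        intro j'
        split_ifs
        · rfl
        · norm_num
      rw [Finset.sum_congr rfl fun j' _ => h2 j', Finset.sum_ite_eq]
      simp
    · simp only [h, if_false]
      by_cases h3 : C5.Adj g g'
      · simp [h3]
      · simp [h3]
  rw [Finset.sum_congr rfl fun g' _ => h1 g']
  generalize (mm : ℝ) * u1 ^ 12 = w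
  generalize u0 ^ 12 = v
  have hadj : ∀ a b : Fin 5, C5.Adj a b ↔ (b = a + 1 ∨ a = b + 1) := by decide
  simp only [hadj, Fin.sum_univ_five]
  fin_cases g <;> simp <;> ring

theorem young {U z : ℝ} (hU : 0 ≤ U) (hz : 0 < z) :
    U ^ 11 ≤ 11 / 12 * (U ^ 12 / z) + z ^ 11 / 12 := by
  have key : 12 * U ^ 11 * z ≤ 11 * U ^ 12 + z ^ 12 := by
    rcases hU.eq_or_lt with rfl | hU'
    · have : (0 : ℝ) < z ^ 12 := by positivity
      norm_num
      exact this.le
    · have h1 : (-2 : ℝ) ≤ z / U - 1 := by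
        have : 0 < z / U := by positivity
        linarith
      have h2 := one_add_mul_le_pow h1 12
      have h3 : 1 + (z / U - 1) = z / U := by ring
      rw [h3] at h2
      have h4 : U ^ 12 * (1 + ((12 : ℕ) : ℝ) * (z / U - 1)) ≤ U ^ 12 * (z / U) ^ 12 :=
        mul_le_mul_of_nonneg_left h2 (by positivity)
      have h5 : U ^ 12 * (z / U) ^ 12 = z ^ 12 := by
        rw [← mul_pow, mul_div_cancel₀ _ hU'.ne']
      have h6 : U ^ 12 * (1 + ((12 : ℕ) : ℝ) * (z / U - 1)) = 12 * U ^ 11 * z - 11 * U ^ 12 := by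
        push_cast
        field_simp
        ring
      rw [h5, h6] at h4
      linarith
  have h7 : U ^ 11 = 12 * U ^ 11 * z / (12 * z) := by
    field_simp
  have h8 : 11 / 12 * (U ^ 12 / z) + z ^ 11 / 12 = (11 * U ^ 12 + z ^ 12) / (12 * z) := by
    field_simp
  rw [h8]
  conv_lhs => rw [h7]
  exact div_le_div_of_nonneg_right key (by positivity)

theorem num1 : (u0 ^ 12 + 2 * ((mm : ℝ) * u1 ^ 12)) / 294 ≤ 2499 / 1000 * mm := by
  rw [mm_cast]
  unfold u0 u1
  norm_num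

theorem num2 : (3 : ℝ) * 294 ^ 11 ≤ 2499 / 1000 * mm := by
  rw [mm_cast]
  norm_num

open Classical in
theorem bound (hK : StKer) : StBound := by
  intro N Y hY
  have hD0 : (0 : ℝ) ≤ 2499 / 1000 * mm := by positivity
  set D : ℝ := 2499 / 1000 * mm with hD
  have hrow : ∀ y ∈ Y, ∑ y' ∈ Y, ∏ i, ker (y i) (y' i) ≤ D ^ N := by
    intro y hy
    have hz : (0 : ℝ) < 294 ^ N := by positivity
    have h1 : ∀ y' ∈ Y, ∏ i, ker (y i) (y' i) ≤ 11 / 12 * ((∏ i, uu (y i) (y' i)) ^ 12 / 294 ^ N) +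
        (if ¬ (dpow (lex C5 (KK mm)) N).Adj y y' then ((294 : ℝ) ^ N) ^ 11 / 12 else 0) := by
      intro y' _
      have hU : 0 ≤ ∏ i, uu (y i) (y' i) := prod_nonneg fun i _ => uu_nonneg _ _
      have h2 : ∏ i, ker (y i) (y' i) = (∏ i, uu (y i) (y' i)) ^ 11 := by
        rw [← prod_pow]
        exact prod_congr rfl fun i _ => ker_eq _ _
      rw [h2]
      by_cases hadj : (dpow (lex C5 (KK mm)) N).Adj y y'
      · rw [if_neg (not_not.2 hadj)]
        obtain ⟨i, hi⟩ := hadj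
        have h3 : ∏ i, uu (y i) (y' i) = 0 := prod_eq_zero (mem_univ i) (uu_adj hi)
        rw [h3]
        norm_num
      · rw [if_pos hadj]
        exact young hU hz
    have h4 : ∑ y' ∈ Y, (∏ i, uu (y i) (y' i)) ^ 12 ≤ (u0 ^ 12 + 2 * ((mm : ℝ) * u1 ^ 12)) ^ N := by
      calc ∑ y' ∈ Y, (∏ i, uu (y i) (y' i)) ^ 12
          ≤ ∑ y' : Fin N → Fin 5 × Fin mm, (∏ i, uu (y i) (y' i)) ^ 12 :=
            sum_le_sum_of_subset_of_nonneg (subset_univ _) fun y' _ _ =>
              pow_nonneg (prod_nonneg fun i _ => uu_nonneg _ _) _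
        _ = ∑ y' : Fin N → Fin 5 × Fin mm, ∏ i, uu (y i) (y' i) ^ 12 := by
            refine sum_congr rfl fun y' _ => ?_
            rw [prod_pow]
        _ = ∏ i, ∑ q, uu (y i) q ^ 12 := by
            rw [prod_univ_sum, Fintype.piFinset_univ]
        _ = (u0 ^ 12 + 2 * ((mm : ℝ) * u1 ^ 12)) ^ N := by
            rw [prod_congr rfl fun i _ => sum_uu (y i), prod_const, card_univ, Fintype.card_fin]
    have h5 : ∑ y' ∈ Y, (if ¬ (dpow (lex C5 (KK mm)) N).Adj y y' then ((294 : ℝ) ^ N) ^ 11 / 12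
        else 0) ≤ 3 ^ N * (((294 : ℝ) ^ N) ^ 11 / 12) := by
      rw [← sum_filter, sum_const, nsmul_eq_mul]
      refine mul_le_mul_of_nonneg_right ?_ (by positivity)
      have h6 := hY y hy
      have h7 : ((Y.filter fun y' => ¬ (dpow (lex C5 (KK mm)) N).Adj y y').card : ℝ) ≤
          ((3 ^ N : ℕ) : ℝ) := by
        have h8 : (Y.filter fun y' => ¬ (dpow (lex C5 (KK mm)) N).Adj y y').card ≤ 3 ^ N := by
          convert h6
        exact_mod_cast h8
      push_cast at h7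
      convert h7
    calc ∑ y' ∈ Y, ∏ i, ker (y i) (y' i)
        ≤ ∑ y' ∈ Y, (11 / 12 * ((∏ i, uu (y i) (y' i)) ^ 12 / 294 ^ N) +
          (if ¬ (dpow (lex C5 (KK mm)) N).Adj y y' then ((294 : ℝ) ^ N) ^ 11 / 12 else 0)) :=
          sum_le_sum h1
      _ = 11 / 12 * ((∑ y' ∈ Y, (∏ i, uu (y i) (y' i)) ^ 12) / 294 ^ N) +
          ∑ y' ∈ Y, (if ¬ (dpow (lex C5 (KK mm)) N).Adj y y' then ((294 : ℝ) ^ N) ^ 11 / 12
            else 0) := by
          rw [sum_add_distrib, ← mul_sum, ← sum_div]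
      _ ≤ 11 / 12 * ((u0 ^ 12 + 2 * ((mm : ℝ) * u1 ^ 12)) ^ N / 294 ^ N) +
          3 ^ N * (((294 : ℝ) ^ N) ^ 11 / 12) := by
          gcongr
      _ = 11 / 12 * ((u0 ^ 12 + 2 * ((mm : ℝ) * u1 ^ 12)) / 294) ^ N +
          1 / 12 * (3 * 294 ^ 11) ^ N := by
          rw [div_pow, mul_pow, ← pow_mul, ← pow_mul, mul_comm N 11]
          ring
      _ ≤ 11 / 12 * D ^ N + 1 / 12 * D ^ N := by
          gcongr
          · exact num1
          · exact num2
      _ = D ^ N := by ring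
  have h9 : (Y.card : ℝ) ^ 2 ≤ Y.card * D ^ N := by
    calc (Y.card : ℝ) ^ 2 ≤ ∑ y ∈ Y, ∑ y' ∈ Y, ∏ i, ker (y i) (y' i) := hK N Y
      _ ≤ ∑ _y ∈ Y, D ^ N := sum_le_sum hrow
      _ = Y.card * D ^ N := by rw [sum_const, nsmul_eq_mul]
  rcases Nat.eq_zero_or_pos Y.card with h | h
  · rw [h]
    push_cast
    positivity
  · have h' : (0 : ℝ) < Y.card := by exact_mod_cast h
    rw [pow_two] at h9
    exact le_of_mul_le_mul_left h9 h'

end Pool.Agent.K7.H29.SHI
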