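import Mathlib
import Pool.Agent.K7.H29.PB

/-!
# Two spheres glued at two points and the wedge of two projective planes

`XX` is the union of two round spheres with common poles, `YY` is its quotient by the antipodal
map, realised by quadratic forms; it is the wedge of two projective planes.
-/

set_option autoImplicit false

namespace Pool.Agent.K7.H29

open Set Topology

/-- The unit sphere in `ℂ × ℝ`. -/
def SS : Set (ℂ × ℝ) := {q | ‖q.1‖ ^ 2 + q.2 ^ 2 = 1}

lemma SS_closed : IsClosed SS :=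
  isClosed_eq (((continuous_norm.comp continuous_fst).pow 2).add (continuous_snd.pow 2))
    continuous_const

lemma SS_bdd {q : ℂ × ℝ} (hq : q ∈ SS) : ‖q.1‖ ≤ 1 ∧ |q.2| ≤ 1 := by
  have h : ‖q.1‖ ^ 2 + q.2 ^ 2 = 1 := hq
  constructor
  · have h1 : 0 ≤ q.2 ^ 2 := sq_nonneg _
    have h2 : ‖q.1‖ ^ 2 ≤ 1 ^ 2 := by linarith
    exact abs_le_of_sq_le_sq' h2 zero_le_one |>.2
  · have h1 : 0 ≤ ‖q.1‖ ^ 2 := sq_nonneg _
    rw [← sq_le_one_iff_abs_le_one]
    linarith

lemma SS_compact : IsCompact SS := by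
  apply Metric.isCompact_of_isClosed_isBounded SS_closed
  refine (Metric.isBounded_closedBall (x := (0 : ℂ × ℝ)) (r := 1)).subset ?_
  intro q hq
  rw [mem_closedBall_zero_iff, Prod.norm_def]
  exact max_le (SS_bdd hq).1 (by rw [Real.norm_eq_abs]; exact (SS_bdd hq).2)

/-- Spherical coordinates. -/
noncomputable def pol (a : ℝ × ℝ) : ℂ × ℝ :=
  (Real.sin a.1 * Complex.exp (a.2 * Complex.I), Real.cos a.1)

lemma pol_cont : Continuous pol := by
  unfold pol
  fun_prop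

lemma pol_arccos {q : ℂ × ℝ} (hq : q ∈ SS) :
    (Real.sin (Real.arccos q.2) : ℂ) * Complex.exp (Complex.arg q.1 * Complex.I) = q.1 ∧
      Real.cos (Real.arccos q.2) = q.2 := by
  have h := SS_bdd hq
  rw [abs_le] at h
  refine ⟨?_, Real.cos_arccos h.2.1 h.2.2⟩
  rw [Real.sin_arccos]
  have h1 : 1 - q.2 ^ 2 = ‖q.1‖ ^ 2 := by
    have : ‖q.1‖ ^ 2 + q.2 ^ 2 = 1 := hq
    linarith
  rw [h1, Real.sqrt_sq (norm_nonneg _)]
  exact Complex.norm_mul_exp_arg_mul_I _

lemma SS_range : SS = range pol := by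
  ext q
  constructor
  · intro hq
    obtain ⟨h1, h2⟩ := pol_arccos hq
    exact ⟨(Real.arccos q.2, Complex.arg q.1), Prod.ext h1 h2⟩
  · rintro ⟨a, rfl⟩
    show ‖(Real.sin a.1 : ℂ) * Complex.exp (a.2 * Complex.I)‖ ^ 2 + Real.cos a.1 ^ 2 = 1
    rw [norm_mul, Complex.norm_exp_ofReal_mul_I, mul_one, Complex.norm_real, Real.norm_eq_abs,
      sq_abs]
    exact Real.sin_sq_add_cos_sq _

lemma SS_preconnected : IsPreconnected SS := by
  rw [SS_range]
  exact isPreconnected_range pol_cont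

lemma hemi (ε : ℝ) (hε : ε = 1 ∨ ε = -1) : {q ∈ SS | 0 ≤ ε * q.2} =
    (fun u : ℂ => (u, ε * Real.sqrt (1 - ‖u‖ ^ 2))) '' Metric.closedBall (0 : ℂ) 1 := by
  have hε2 : ε ^ 2 = 1 := by rcases hε with rfl | rfl <;> norm_num
  ext q
  constructor
  · rintro ⟨hq, h0⟩
    refine ⟨q.1, ?_, ?_⟩
    · rw [mem_closedBall_zero_iff]
      exact (SS_bdd hq).1
    · refine Prod.ext rfl ?_
      show ε * Real.sqrt (1 - ‖q.1‖ ^ 2) = q.2
      have h1 : 1 - ‖q.1‖ ^ 2 = (ε * q.2) ^ 2 := by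
        have : ‖q.1‖ ^ 2 + q.2 ^ 2 = 1 := hq
        rw [mul_pow, hε2]
        linarith
      rw [h1, Real.sqrt_sq h0, ← mul_assoc, ← sq, hε2, one_mul]
  · rintro ⟨u, hu, rfl⟩
    rw [mem_closedBall_zero_iff] at hu
    have h1 : 0 ≤ 1 - ‖u‖ ^ 2 := by nlinarith [norm_nonneg u]
    constructor
    · show ‖u‖ ^ 2 + (ε * Real.sqrt (1 - ‖u‖ ^ 2)) ^ 2 = 1
      rw [mul_pow, Real.sq_sqrt h1, hε2]
      ring
    · show 0 ≤ ε * (ε * Real.sqrt (1 - ‖u‖ ^ 2))
      rw [← mul_assoc, ← sq, hε2, one_mul]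
      exact Real.sqrt_nonneg _

lemma pb_hemi (ε : ℝ) (hε : ε = 1 ∨ ε = -1) : PB {q ∈ SS | 0 ≤ ε * q.2} := by
  rw [hemi ε hε]
  refine PB.image (isCompact_closedBall _ _) (convex_closedBall _ _).isPreconnected _ ?_ id
    continuousOn_id (fun x hx => hx) (fun x _ => rfl) (fun x _ => rfl) ?_ pb_disk
  · fun_prop
  · intro x _ y _ hxy
    exact Or.inl (congrArg Prod.fst hxy).symm

lemma pb_SS : PB SS := by
  have h : SS = {q ∈ SS | 0 ≤ (1 : ℝ) * q.2} ∪ {q ∈ SS | 0 ≤ (-1 : ℝ) * q.2} := by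
    ext q
    constructor
    · intro hq
      rcases le_total 0 q.2 with h | h
      · exact Or.inl ⟨hq, by linarith⟩
      · exact Or.inr ⟨hq, by linarith⟩
    · rintro (h | h) <;> exact h.1
  have hcl : ∀ ε : ℝ, IsClosed {q ∈ SS | 0 ≤ ε * q.2} := fun ε =>
    SS_closed.inter (isClosed_le continuous_const (continuous_const.mul continuous_snd))
  rw [h]
  refine PB.union (hcl _) (hcl _) ?_ (pb_hemi 1 (Or.inl rfl)) (pb_hemi (-1) (Or.inr rfl))
  have : {q ∈ SS | 0 ≤ (1 : ℝ) * q.2} ∩ {q ∈ SS | 0 ≤ (-1 : ℝ) * q.2} =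
      range (fun t : ℝ => ((Complex.exp (t * Complex.I), 0) : ℂ × ℝ)) := by
    ext q
    constructor
    · rintro ⟨⟨hq, h1⟩, -, h2⟩
      have h3 : q.2 = 0 := by linarith
      have h4 : ‖q.1‖ ^ 2 + q.2 ^ 2 = 1 := hq
      rw [h3] at h4
      have h5 : ‖q.1‖ = 1 := by nlinarith [norm_nonneg q.1]
      refine ⟨Complex.arg q.1, Prod.ext ?_ h3.symm⟩
      have := Complex.norm_mul_exp_arg_mul_I q.1
      rw [h5] at this
      simpa using this
    · rintro ⟨t, rfl⟩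
      have : ((Complex.exp (t * Complex.I), 0) : ℂ × ℝ) ∈ SS := by
        show ‖Complex.exp (t * Complex.I)‖ ^ 2 + (0 : ℝ) ^ 2 = 1
        rw [Complex.norm_exp_ofReal_mul_I]
        norm_num
      exact ⟨⟨this, by simp⟩, this, by simp⟩
  rw [this]
  exact isPreconnected_range (by fun_prop)

/-- first sphere -/
def j1 (q : ℂ × ℝ) : ℂ × ℝ × ℂ := (q.1, q.2, 0)
/-- second sphere -/
def j2 (q : ℂ × ℝ) : ℂ × ℝ × ℂ := (0, q.2, q.1)

lemma j1_cont : Continuous j1 := by unfold j1; fun_prop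
lemma j2_cont : Continuous j2 := by unfold j2; fun_prop

/-- Two spheres with common poles. -/
def XX : Set (ℂ × ℝ × ℂ) := j1 '' SS ∪ j2 '' SS

lemma XX_compact : IsCompact XX := (SS_compact.image j1_cont).union (SS_compact.image j2_cont)

lemma XX_neg {x : ℂ × ℝ × ℂ} (hx : x ∈ XX) : -x ∈ XX := by
  have hS : ∀ q ∈ SS, -q ∈ SS := by
    intro q hq
    show ‖(-q).1‖ ^ 2 + (-q).2 ^ 2 = 1
    rw [Prod.fst_neg, Prod.snd_neg, norm_neg, neg_sq]
    exact hq
  rcases hx with ⟨q, hq, rfl⟩ | ⟨q, hq, rfl⟩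
  · exact Or.inl ⟨-q, hS q hq, by simp [j1]⟩
  · exact Or.inr ⟨-q, hS q hq, by simp [j2]⟩

lemma XX_eq {x : ℂ × ℝ × ℂ} (hx : x ∈ XX) : (x.1 = 0 ∨ x.2.2 = 0) ∧
    ‖x.1‖ ^ 2 + x.2.1 ^ 2 + ‖x.2.2‖ ^ 2 = 1 := by
  rcases hx with ⟨q, hq, rfl⟩ | ⟨q, hq, rfl⟩
  · refine ⟨Or.inr rfl, ?_⟩
    have : ‖q.1‖ ^ 2 + q.2 ^ 2 = 1 := hq
    show ‖q.1‖ ^ 2 + q.2 ^ 2 + ‖(0 : ℂ)‖ ^ 2 = 1
    simp [this]
  · refine ⟨Or.inl rfl, ?_⟩
    have : ‖q.1‖ ^ 2 + q.2 ^ 2 = 1 := hq
    show ‖(0 : ℂ)‖ ^ 2 + q.2 ^ 2 + ‖q.1‖ ^ 2 = 1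
    simp only [norm_zero, ne_eq, OfNat.ofNat_ne_zero, not_false_eq_true, zero_pow, zero_add]
    linarith

/-- A parametrisation of `XX`. -/
noncomputable def pp (a : ℝ × ℝ) : ℂ × ℝ × ℂ :=
  ((max (Real.sin a.1) 0 : ℝ) * Complex.exp (a.2 * Complex.I), Real.cos a.1,
    (max (-Real.sin a.1) 0 : ℝ) * Complex.exp (a.2 * Complex.I))

lemma pp_cont : Continuous pp := by
  unfold pp
  fun_prop

lemma pp_mem (a : ℝ × ℝ) : pp a ∈ XX := by
  rcases le_total 0 (Real.sin a.1) with h | h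
  · left
    refine ⟨pol a, by rw [SS_range]; exact ⟨a, rfl⟩, ?_⟩
    have h1 : max (Real.sin a.1) 0 = Real.sin a.1 := max_eq_left h
    have h2 : max (-Real.sin a.1) 0 = 0 := max_eq_right (by linarith)
    simp only [j1, pol, pp, h1, h2]
    simp
  · right
    refine ⟨pol (-a.1, a.2), by rw [SS_range]; exact ⟨_, rfl⟩, ?_⟩
    have h1 : max (Real.sin a.1) 0 = 0 := max_eq_right h
    have h2 : max (-Real.sin a.1) 0 = -Real.sin a.1 := max_eq_left (by linarith)
    simp only [j2, pol, pp, h1, h2]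
    simp

lemma pp_surj {x : ℂ × ℝ × ℂ} (hx : x ∈ XX) :
    ∃ a ∈ Icc (-Real.pi) Real.pi ×ˢ Icc (-Real.pi) Real.pi, pp a = x := by
  rcases hx with ⟨q, hq, rfl⟩ | ⟨q, hq, rfl⟩
  · obtain ⟨h1, h2⟩ := pol_arccos hq
    refine ⟨(Real.arccos q.2, Complex.arg q.1), ⟨⟨?_, Real.arccos_le_pi _⟩,
      (Complex.neg_pi_lt_arg _).le, Complex.arg_le_pi _⟩, ?_⟩
    · have := Real.arccos_nonneg q.2
      have := Real.pi_pos
      show -Real.pi ≤ Real.arccos q.2
      linarith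
    · have h : 0 ≤ Real.sin (Real.arccos q.2) :=
        Real.sin_nonneg_of_nonneg_of_le_pi (Real.arccos_nonneg _) (Real.arccos_le_pi _)
      have h3 : max (Real.sin (Real.arccos q.2)) 0 = Real.sin (Real.arccos q.2) := max_eq_left h
      have h4 : max (-Real.sin (Real.arccos q.2)) 0 = 0 := max_eq_right (by linarith)
      simp only [pp, j1, h3, h4]
      refine Prod.ext h1 (Prod.ext h2 ?_)
      simp
  · obtain ⟨h1, h2⟩ := pol_arccos hq
    refine ⟨(-Real.arccos q.2, Complex.arg q.1), ⟨⟨?_, ?_⟩,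
      (Complex.neg_pi_lt_arg _).le, Complex.arg_le_pi _⟩, ?_⟩
    · have := Real.arccos_le_pi q.2
      show -Real.pi ≤ -Real.arccos q.2
      linarith
    · have := Real.arccos_nonneg q.2
      have := Real.pi_pos
      show -Real.arccos q.2 ≤ Real.pi
      linarith
    · have h : 0 ≤ Real.sin (Real.arccos q.2) :=
        Real.sin_nonneg_of_nonneg_of_le_pi (Real.arccos_nonneg _) (Real.arccos_le_pi _)
      have h3 : max (Real.sin (-Real.arccos q.2)) 0 = 0 :=
        max_eq_right (by rw [Real.sin_neg]; linarith)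
      have h4 : max (-Real.sin (-Real.arccos q.2)) 0 = Real.sin (Real.arccos q.2) := by
        rw [Real.sin_neg, neg_neg]
        exact max_eq_left h
      simp only [pp, j2, h3, h4, Real.cos_neg]
      refine Prod.ext ?_ (Prod.ext h2 h1)
      simp

instance : CompactSpace XX := isCompact_iff_compactSpace.1 XX_compact

/-- The parametrisation as a map to the subtype. -/
noncomputable def ppX (a : ℝ × ℝ) : XX := ⟨pp a, pp_mem a⟩

lemma ppX_cont : Continuous ppX := pp_cont.subtype_mk _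

lemma ppX_surj : Function.Surjective ppX := by
  rintro ⟨x, hx⟩
  obtain ⟨a, -, ha⟩ := pp_surj hx
  exact ⟨a, Subtype.ext ha⟩

lemma ppX_quot : IsQuotientMap ppX := by
  rw [isQuotientMap_iff_isClosed]
  refine ⟨ppX_surj, fun s => ⟨fun h => h.preimage ppX_cont, fun h => ?_⟩⟩
  have hK : IsCompact (Icc (-Real.pi) Real.pi ×ˢ Icc (-Real.pi) Real.pi : Set (ℝ × ℝ)) :=
    isCompact_Icc.prod isCompact_Icc
  have : s = ppX '' ((Icc (-Real.pi) Real.pi ×ˢ Icc (-Real.pi) Real.pi) ∩ ppX ⁻¹' s) := by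
    ext x
    constructor
    · intro hx
      obtain ⟨a, ha, hax⟩ := pp_surj x.2
      have : ppX a = x := Subtype.ext hax
      exact ⟨a, ⟨ha, by rw [mem_preimage, this]; exact hx⟩, this⟩
    · rintro ⟨a, ⟨-, ha⟩, rfl⟩
      exact ha
  rw [this]
  exact ((hK.inter_right h).image ppX_cont).isClosed

instance : LocallyConnectedSpace XX := by
  have := ppX_quot.locallyPathConnectedSpace
  infer_instance

instance : ConnectedSpace XX := by
  rw [connectedSpace_iff_univ, ← ppX_surj.range_eq]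
  exact isConnected_range ppX_cont

/-- The quadratic map. -/
def vv (x : ℂ × ℝ × ℂ) : ℂ × ℂ × ℝ × ℂ × ℂ :=
  (x.1 ^ 2, x.1 * x.2.1, x.2.1 ^ 2, x.2.2 ^ 2, x.2.2 * x.2.1)

lemma vv_cont : Continuous vv := by unfold vv; fun_prop

lemma vv_neg (x : ℂ × ℝ × ℂ) : vv (-x) = vv x := by
  simp [vv]

lemma vv_fib {x y : ℂ × ℝ × ℂ} (hx : x.1 = 0 ∨ x.2.2 = 0) (h : vv x = vv y) :
    y = x ∨ y = -x := by
  obtain ⟨u, z, w⟩ := x
  obtain ⟨u', z', w'⟩ := y
  simp only [vv, Prod.mk.injEq] at h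
  obtain ⟨h1, h2, h3, h4, h5⟩ := h
  simp only at hx
  have key : ∀ (a a' : ℂ), a ≠ 0 → a ^ 2 = a' ^ 2 → a * z = a' * z' →
      (a' = a ∧ z' = z) ∨ (a' = -a ∧ z' = -z) := by
    intro a a' ha e1 e2
    rcases sq_eq_sq_iff_eq_or_eq_neg.1 e1 with rfl | e
    · left
      refine ⟨rfl, ?_⟩
      have := mul_left_cancel₀ ha e2
      exact_mod_cast this.symm
    · right
      have e' : a' = -a := by rw [e, neg_neg]
      refine ⟨e', ?_⟩
      rw [e'] at e2
      have e3 : a * (z : ℂ) = a * (-z') := by rw [e2]; ring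
      have := mul_left_cancel₀ ha e3
      have h6 : z = -z' := by exact_mod_cast this
      linarith
  rcases hx with rfl | rfl
  · have hu : u' = 0 := by
      have : u' ^ 2 = 0 := by rw [← h1]; ring
      simpa using this
    subst hu
    by_cases hw : w = 0
    · subst hw
      have hw' : w' = 0 := by
        have : w' ^ 2 = 0 := by rw [← h4]; ring
        simpa using this
      subst hw'
      rcases sq_eq_sq_iff_eq_or_eq_neg.1 h3 with e | e
      · left; rw [e]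
      · right; simp [e]
    · rcases key w w' hw h4 h5 with ⟨e1, e2⟩ | ⟨e1, e2⟩
      · left; rw [e1, e2]
      · right; rw [e1, e2]; simp
  · have hw : w' = 0 := by
      have : w' ^ 2 = 0 := by rw [← h4]; ring
      simpa using this
    subst hw
    by_cases hu : u = 0
    · subst hu
      have hu' : u' = 0 := by
        have : u' ^ 2 = 0 := by rw [← h1]; ring
        simpa using this
      subst hu'
      rcases sq_eq_sq_iff_eq_or_eq_neg.1 h3 with e | e
      · left; rw [e]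
      · right; simp [e]
    · rcases key u u' hu h1 h2 with ⟨e1, e2⟩ | ⟨e1, e2⟩
      · left; rw [e1, e2]
      · right; rw [e1, e2]; simp

/-- The wedge of two projective planes. -/
def YY : Set (ℂ × ℂ × ℝ × ℂ × ℂ) := vv '' XX

lemma YY_compact : IsCompact YY := XX_compact.image vv_cont

instance : CompactSpace YY := isCompact_iff_compactSpace.1 YY_compact

/-- The double covering. -/
def ff (x : XX) : YY := ⟨vv x, mem_image_of_mem vv x.2⟩

lemma ff_cont : Continuous ff := (vv_cont.comp continuous_subtype_val).subtype_mk _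

lemma ff_surj : Function.Surjective ff := by
  rintro ⟨_, x, hx, rfl⟩
  exact ⟨⟨x, hx⟩, rfl⟩

/-- The antipodal map. -/
def nn (x : XX) : XX := ⟨-x, XX_neg x.2⟩

lemma nn_cont : Continuous nn := continuous_subtype_val.neg.subtype_mk _

lemma ff_fib {x y : XX} (h : ff x = ff y) : y = x ∨ y = nn x := by
  have h1 : vv x = vv y := congrArg Subtype.val h
  rcases vv_fib (XX_eq x.2).1 h1 with h2 | h2
  · exact Or.inl (Subtype.ext h2)
  · exact Or.inr (Subtype.ext h2)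

lemma ff_nn (x : XX) : ff (nn x) = ff x := Subtype.ext (vv_neg _)

lemma ff_open : IsOpenMap ff := by
  intro W hW
  have hq : IsQuotientMap ff := (ff_cont.isClosedMap).isQuotientMap ff_cont ff_surj
  rw [← hq.isOpen_preimage]
  have : ff ⁻¹' (ff '' W) = W ∪ nn ⁻¹' W := by
    ext x
    constructor
    · rintro ⟨y, hy, hyx⟩
      rcases ff_fib hyx.symm with rfl | rfl
      · exact Or.inl hy
      · exact Or.inr hy
    · rintro (h | h)
      · exact ⟨x, h, rfl⟩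
      · exact ⟨nn x, h, ff_nn x⟩
  rw [this]
  exact hW.union (hW.preimage nn_cont)

lemma XX_norm (x : XX) : 1 / 2 ≤ ‖(x : ℂ × ℝ × ℂ)‖ := by
  by_contra h
  push Not at h
  obtain ⟨-, h1⟩ := XX_eq x.2
  have a1 : ‖(x : ℂ × ℝ × ℂ).1‖ < 1 / 2 := (norm_fst_le _).trans_lt h
  have a2 : ‖(x : ℂ × ℝ × ℂ).2.1‖ < 1 / 2 :=
    ((norm_fst_le _).trans (norm_snd_le _)).trans_lt h
  have a3 : ‖(x : ℂ × ℝ × ℂ).2.2‖ < 1 / 2 :=
    ((norm_snd_le _).trans (norm_snd_le _)).trans_lt h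
  rw [Real.norm_eq_abs] at a2
  have b1 : ‖(x : ℂ × ℝ × ℂ).1‖ ^ 2 < 1 / 4 := by nlinarith [norm_nonneg (x : ℂ × ℝ × ℂ).1]
  have b2 : (x : ℂ × ℝ × ℂ).2.1 ^ 2 < 1 / 4 := by
    rw [← sq_abs]
    nlinarith [abs_nonneg (x : ℂ × ℝ × ℂ).2.1]
  have b3 : ‖(x : ℂ × ℝ × ℂ).2.2‖ ^ 2 < 1 / 4 := by nlinarith [norm_nonneg (x : ℂ × ℝ × ℂ).2.2]
  linarith

lemma ff_local : IsLocalHomeomorph ff := by
  rw [isLocalHomeomorph_iff_isOpenEmbedding_restrict]
  intro x
  have hinj : Function.Injective ((Metric.ball x (1 / 2)).domRestrict ff) := by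
    rintro ⟨y, hy⟩ ⟨y', hy'⟩ h
    have h1 : ff y = ff y' := h
    rcases ff_fib h1 with h2 | h2
    · exact Subtype.ext h2.symm
    · exfalso
      rw [Metric.mem_ball] at hy hy'
      have h3 : dist y' y < 1 := by
        have := dist_triangle_right y' y x
        linarith
      rw [h2] at h3
      have h4 : dist (nn y) y = 2 * ‖(y : ℂ × ℝ × ℂ)‖ := by
        rw [Subtype.dist_eq, dist_eq_norm]
        show ‖-(y : ℂ × ℝ × ℂ) - y‖ = _
        have : -(y : ℂ × ℝ × ℂ) - y = (-2 : ℝ) • (y : ℂ × ℝ × ℂ) := by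
          rw [neg_smul, two_smul]
          abel
        rw [this, norm_smul]
        norm_num
      have h5 := XX_norm y
      linarith
  refine ⟨Metric.ball x (1 / 2), Metric.ball_mem_nhds x (by norm_num), ?_⟩
  exact IsOpenEmbedding.of_continuous_injective_isOpenMap (ff_cont.comp continuous_subtype_val)
    hinj (ff_open.comp Metric.isOpen_ball.isOpenMap_subtype_val)

lemma pb_vj1 : PB ((vv ∘ j1) '' SS) := by
  refine PB.image SS_compact SS_preconnected _ (vv_cont.comp j1_cont).continuousOn (fun q => -q)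
    continuous_neg.continuousOn ?_ (fun x _ => neg_neg x) ?_ ?_ pb_SS
  · intro q hq
    show ‖(-q).1‖ ^ 2 + (-q).2 ^ 2 = 1
    rw [Prod.fst_neg, Prod.snd_neg, norm_neg, neg_sq]
    exact hq
  · intro q _
    have : j1 (-q) = -j1 q := by simp [j1]
    simp only [Function.comp, this, vv_neg]
  · intro q _ q' _ h
    rcases vv_fib (x := j1 q) (y := j1 q') (Or.inr rfl) h with h1 | h1
    · left
      have e1 := congrArg (fun a => a.1) h1
      have e2 := congrArg (fun a => a.2.1) h1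
      exact Prod.ext e1 e2
    · right
      have e1 := congrArg (fun a => a.1) h1
      have e2 := congrArg (fun a => a.2.1) h1
      exact Prod.ext e1 e2

lemma pb_vj2 : PB ((vv ∘ j2) '' SS) := by
  refine PB.image SS_compact SS_preconnected _ (vv_cont.comp j2_cont).continuousOn (fun q => -q)
    continuous_neg.continuousOn ?_ (fun x _ => neg_neg x) ?_ ?_ pb_SS
  · intro q hq
    show ‖(-q).1‖ ^ 2 + (-q).2 ^ 2 = 1
    rw [Prod.fst_neg, Prod.snd_neg, norm_neg, neg_sq]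
    exact hq
  · intro q _
    have : j2 (-q) = -j2 q := by simp [j2]
    simp only [Function.comp, this, vv_neg]
  · intro q _ q' _ h
    rcases vv_fib (x := j2 q) (y := j2 q') (Or.inl rfl) h with h1 | h1
    · left
      exact Prod.ext (congrArg (fun a => a.2.2) h1) (congrArg (fun a => a.2.1) h1)
    · right
      exact Prod.ext (congrArg (fun a => a.2.2) h1) (congrArg (fun a => a.2.1) h1)

lemma pb_YY : PB YY := by
  have : YY = (vv ∘ j1) '' SS ∪ (vv ∘ j2) '' SS := by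
    rw [YY, XX, image_union, image_comp, image_comp]
  rw [this]
  refine PB.union (SS_compact.image (vv_cont.comp j1_cont)).isClosed
    (SS_compact.image (vv_cont.comp j2_cont)).isClosed ?_ pb_vj1 pb_vj2
  apply Set.Subsingleton.isPreconnected
  have hsub : ∀ y ∈ (vv ∘ j1) '' SS ∩ (vv ∘ j2) '' SS, y = ((0, 0, 1, 0, 0) : ℂ × ℂ × ℝ × ℂ × ℂ) := by
    rintro _ ⟨⟨q, hq, rfl⟩, q', hq', h⟩
    simp only [Function.comp, vv, j1, j2, Prod.mk.injEq] at h
    obtain ⟨h1, h2, h3, h4, h5⟩ := h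
    have hu : q.1 = 0 := by
      have : q.1 ^ 2 = 0 := by rw [← h1]; ring
      simpa using this
    have hz : q.2 ^ 2 = 1 := by
      have h6 : ‖q.1‖ ^ 2 + q.2 ^ 2 = 1 := hq
      rw [hu] at h6
      simpa using h6
    simp [Function.comp, vv, j1, hu, hz]
  intro y hy y' hy'
  rw [hsub y hy, hsub y' hy']

lemma pb_subtype {F : Type*} [TopologicalSpace F] {K : Set F} (h : PB K) :
    PB (univ : Set K) := by
  classical
  intro φ hφ hn
  let φ' : F → ℂ := fun y => if hy : y ∈ K then φ ⟨y, hy⟩ else 1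
  have h1 : K.domRestrict φ' = φ := by
    funext y
    simp [φ', Set.domRestrict]
  have h2 : ContinuousOn φ' K := by
    rw [continuousOn_iff_continuous_domRestrict, h1]
    exact continuousOn_univ.1 hφ
  obtain ⟨θ, hθ, hθ'⟩ := h φ' h2 fun x hx => by
    have := hn ⟨x, hx⟩ (mem_univ _)
    simpa [φ', hx] using this
  refine ⟨K.domRestrict θ, ?_, ?_⟩
  · rw [continuousOn_univ]
    exact continuousOn_iff_continuous_domRestrict.1 hθ
  · intro x _
    have := hθ' x x.2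
    simpa [φ'] using this

lemma XX_not_unicoherent : ∃ A B : Set XX, IsClosed A ∧ IsClosed B ∧ IsConnected A ∧
    IsConnected B ∧ A ∪ B = univ ∧ ¬ IsConnected (A ∩ B) := by
  refine ⟨{x | (x : ℂ × ℝ × ℂ).2.2 = 0}, {x | (x : ℂ × ℝ × ℂ).1 = 0},
    isClosed_eq (by fun_prop) continuous_const, isClosed_eq (by fun_prop) continuous_const,
    ?_, ?_, ?_, ?_⟩
  · constructor
    · exact ⟨⟨j1 (0, 1), Or.inl ⟨(0, 1), by simp [SS], rfl⟩⟩, rfl⟩
    · rw [← IsInducing.subtypeVal.isPreconnected_image]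
      have : ((↑) : XX → ℂ × ℝ × ℂ) '' {x | (x : ℂ × ℝ × ℂ).2.2 = 0} = j1 '' SS := by
        ext x
        constructor
        · rintro ⟨⟨x, hx⟩, h, rfl⟩
          rcases hx with hx | ⟨q, hq, rfl⟩
          · exact hx
          · have h' : q.1 = 0 := h
            refine ⟨q, hq, ?_⟩
            simp [j1, j2, h']
        · rintro ⟨q, hq, rfl⟩
          exact ⟨⟨j1 q, Or.inl ⟨q, hq, rfl⟩⟩, rfl, rfl⟩
      rw [this]
      exact SS_preconnected.image _ j1_cont.continuousOn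
  · constructor
    · exact ⟨⟨j2 (0, 1), Or.inr ⟨(0, 1), by simp [SS], rfl⟩⟩, rfl⟩
    · rw [← IsInducing.subtypeVal.isPreconnected_image]
      have : ((↑) : XX → ℂ × ℝ × ℂ) '' {x | (x : ℂ × ℝ × ℂ).1 = 0} = j2 '' SS := by
        ext x
        constructor
        · rintro ⟨⟨x, hx⟩, h, rfl⟩
          rcases hx with ⟨q, hq, rfl⟩ | hx
          · have h' : q.1 = 0 := h
            refine ⟨q, hq, ?_⟩
            simp [j1, j2, h']
          · exact hx
        · rintro ⟨q, hq, rfl⟩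
          exact ⟨⟨j2 q, Or.inr ⟨q, hq, rfl⟩⟩, rfl, rfl⟩
      rw [this]
      exact SS_preconnected.image _ j2_cont.continuousOn
  · ext x
    simp only [mem_union, mem_univ, iff_true]
    rcases (XX_eq x.2).1 with h | h
    · exact Or.inr h
    · exact Or.inl h
  · intro hcon
    have h1 : IsPreconnected ((fun x : XX => (x : ℂ × ℝ × ℂ).2.1) ''
        ({x | (x : ℂ × ℝ × ℂ).2.2 = 0} ∩ {x | (x : ℂ × ℝ × ℂ).1 = 0})) :=
      hcon.isPreconnected.image _ (by fun_prop)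
    have h2 : (1 : ℝ) ∈ (fun x : XX => (x : ℂ × ℝ × ℂ).2.1) ''
        ({x | (x : ℂ × ℝ × ℂ).2.2 = 0} ∩ {x | (x : ℂ × ℝ × ℂ).1 = 0}) :=
      ⟨⟨j1 (0, 1), Or.inl ⟨(0, 1), by simp [SS], rfl⟩⟩, ⟨rfl, rfl⟩, rfl⟩
    have h3 : (-1 : ℝ) ∈ (fun x : XX => (x : ℂ × ℝ × ℂ).2.1) ''
        ({x | (x : ℂ × ℝ × ℂ).2.2 = 0} ∩ {x | (x : ℂ × ℝ × ℂ).1 = 0}) :=
      ⟨⟨j1 (0, -1), Or.inl ⟨(0, -1), by simp [SS], rfl⟩⟩, ⟨rfl, rfl⟩, rfl⟩
    obtain ⟨x, ⟨hx1, hx2⟩, hx3⟩ := h1.Icc_subset h3 h2 (show (0 : ℝ) ∈ Icc (-1) 1 by simp)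
    have h4 := (XX_eq x.2).2
    have e1 : (x : ℂ × ℝ × ℂ).2.2 = 0 := hx1
    have e2 : (x : ℂ × ℝ × ℂ).1 = 0 := hx2
    have e3 : (x : ℂ × ℝ × ℂ).2.1 = 0 := hx3
    rw [e1, e2, e3] at h4
    simp at h4

lemma YY_connected : IsConnected (univ : Set YY) := by
  rw [← ff_surj.range_eq]
  exact isConnected_range ff_cont

end Pool.Agent.K7.H29
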